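import Pool.Agent.H36.TD.Defs

set_option autoImplicit false

/-!
# Module Alg: pointwise algebra (100 lines)

`omega_Yx`, `omega_sg`: unfold; for `omega_sg` expand `w = ∑ j, ((w j).1 • ex j + (w j).2 • ey j)` (`exp_w`) and use linearity.
`alg_phi`: `L (B Y) = omega (sg L) (B Y)` and `s * s = 1`, so
`L (B Y) = s * omega (A (sg L)) (A (B Y)) = s * omega (A (sg L)) Y = - s * omega Y (A (sg L)) = - s * Lam p (A (sg L))`.
`alg_id`: the same with `A = B = 1`, `s = 1`. `lam_sg`: `sg L = ∑ i, (L (ey i) • ex i - L (ex i) • ey i)`, apply `A`, take the coordinate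
`(· j).2`, exchange the sums.
-/

namespace Pool.Agent.H36.TD

open Pool.Agent.H72.Symp

variable {n : ℕ}

theorem exp_w (w : Sp n) : w = ∑ j, ((w j).1 • ex j + (w j).2 • ey j) := by
  funext k
  rw [Finset.sum_apply, Finset.sum_eq_single k]
  · simp [ex, ey]
  · intro b _ hb
    simp [ex, ey, Ne.symm hb]
  · intro h
    exact absurd (Finset.mem_univ k) h

theorem omega_Yx (p w : Sp n) : omega (Yx p) w = Lam p w := by
  unfold omega Yx Lam
  refine Finset.sum_congr rfl fun j _ => ?_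
  simp

theorem omega_sg (L : Sp n →L[ℝ] ℝ) (w : Sp n) : omega (sg L) w = L w := by
  conv_rhs => rw [exp_w w]
  rw [map_sum]
  unfold omega sg
  refine Finset.sum_congr rfl fun j _ => ?_
  rw [map_add, map_smul, map_smul, smul_eq_mul, smul_eq_mul]
  ring

private theorem Alg_anti (u v : Sp n) : omega u v = -omega v u := by
  unfold omega
  rw [← Finset.sum_neg_distrib]
  refine Finset.sum_congr rfl fun j _ => ?_
  ring

theorem alg_phi {A B : Sp n →L[ℝ] Sp n} {s : ℝ} (hs : s = 1 ∨ s = -1) (hA : Mul s A)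
    (hAB : ∀ w, A (B w) = w) (L : Sp n →L[ℝ] ℝ) (p : Sp n) :
    L (B (Yx p)) = -(s * Lam p (A (sg L))) := by
  have hss : s * s = 1 := by
    rcases hs with h | h <;> rw [h] <;> norm_num
  have h1 := hA (sg L) (B (Yx p))
  rw [hAB, omega_sg] at h1
  rw [← omega_Yx p (A (sg L)), Alg_anti (Yx p) (A (sg L)), h1]
  linear_combination (-L (B (Yx p))) * hss

theorem alg_id (L : Sp n →L[ℝ] ℝ) (p : Sp n) : L (Yx p) = -Lam p (sg L) := by
  rw [← omega_Yx p (sg L), Alg_anti (Yx p) (sg L), omega_sg, neg_neg]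

private theorem Alg_sg (A : Sp n →L[ℝ] Sp n) (L : Sp n →L[ℝ] ℝ) (j : Fin n) :
    (A (sg L) j).2 = ∑ i, (L (ey i) * (A (ex i) j).2 - L (ex i) * (A (ey i) j).2) := by
  have h1 : A (sg L) = ∑ i, (L (ey i) • A (ex i) + (-L (ex i)) • A (ey i)) := by
    conv_lhs => rw [exp_w (sg L)]
    rw [map_sum]
    refine Finset.sum_congr rfl fun i _ => ?_
    rw [map_add, map_smul, map_smul]
    rfl
  rw [h1, Finset.sum_apply, Prod.snd_sum]
  refine Finset.sum_congr rfl fun i _ => ?_
  simp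
  ring

/-- the coordinate formula for `Lam p (A (sg L))` -/
theorem lam_sg (A : Sp n →L[ℝ] Sp n) (L : Sp n →L[ℝ] ℝ) (p : Sp n) :
    Lam p (A (sg L)) =
      -∑ i, ∑ j, (p j).1 * (L (ex i) * (A (ey i) j).2 - L (ey i) * (A (ex i) j).2) := by
  unfold Lam
  rw [Finset.sum_comm, ← Finset.sum_neg_distrib]
  refine Finset.sum_congr rfl fun j _ => ?_
  rw [Alg_sg, Finset.mul_sum, ← Finset.sum_neg_distrib]
  refine Finset.sum_congr rfl fun i _ => ?_
  ring

end Pool.Agent.H36.TD
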