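import Pool.Agent.H36.TD.Cut

set_option autoImplicit false

/-!
# Module Cmp: compact relatively open parts of `K` (80 lines)

`hk`: the integrals of `χ` for `μ` and `ν` agree for all test functions which are locally constant near `K`. `μ`, `ν` are finite on compact sets, hence regular
(`X` is a locally compact Polish space: instances). Let `ε > 0`; by outer regularity (`Set.exists_isOpen_lt_add` for `μ` and for `ν`, intersect) there is an open
`U ⊇ Q` with `μ U ≤ μ Q + ε` and `ν U ≤ ν Q + ε`. Let `χ` be the function of `exists_cut`. For both measures `m`: `m Q ≤ ∫⁻ ofReal (χ x) ∂m ≤ m U`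
(`1_Q ≤ χ ≤ 1_U`), and `∫⁻ ofReal χ ∂m = ofReal (∫ χ ∂m)` (`ofReal_integral_eq_lintegral_ofReal`; `χ` is continuous with compact support, so integrable). So
`μ Q ≤ ofReal (∫ χ ∂μ) = ofReal (∫ χ ∂ν) ≤ ν U ≤ ν Q + ε`, and the same with `μ`, `ν` exchanged. `ENNReal.le_of_forall_pos_le_add`.
-/

namespace Pool.Agent.H36.TD

open MeasureTheory

variable {X : Type} [NormedAddCommGroup X] [NormedSpace ℝ X] [FiniteDimensional ℝ X]
  [MeasurableSpace X] [BorelSpace X]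

/-- one half -/
private theorem Cmp_le (μ ν : Measure X) [IsFiniteMeasureOnCompacts μ]
    [IsFiniteMeasureOnCompacts ν] {K : Set X}
    (hk : ∀ χ : X → ℝ, ContDiff ℝ 2 χ → HasCompactSupport χ → tsupport (fderiv ℝ χ) ⊆ Kᶜ →
      ∫ x, χ x ∂μ = ∫ x, χ x ∂ν) {Q : Set X} (hQ : IsCompact Q) (hQK : Q ⊆ K)
    (hKQ : IsClosed (K \ Q)) : μ Q ≤ ν Q := by
  have : ProperSpace X := FiniteDimensional.proper ℝ X
  refine ENNReal.le_of_forall_pos_le_add fun ε hε _ => ?_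
  have hε' : (ε : ENNReal) ≠ 0 := by
    rw [Ne, ENNReal.coe_eq_zero]
    exact hε.ne'
  obtain ⟨U, hQU, hU, hνU⟩ := Q.exists_isOpen_lt_add (μ := ν) hQ.measure_lt_top.ne hε'
  obtain ⟨χ, h1, h2, h3, h4, h5, h6⟩ := exists_cut hQ hQK hKQ hU hQU
  have hint : ∀ (m : Measure X) [IsFiniteMeasureOnCompacts m], Integrable χ m := by
    intro m _
    exact h1.continuous.integrable_of_hasCompactSupport h2
  have hlow : μ Q ≤ ∫⁻ x, ENNReal.ofReal (χ x) ∂μ := by
    calc μ Q = ∫⁻ _ in Q, 1 ∂μ := by rw [setLIntegral_one]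
      _ ≤ ∫⁻ x in Q, ENNReal.ofReal (χ x) ∂μ := by
          refine setLIntegral_mono' hQ.measurableSet fun x hx => ?_
          rw [h4 x hx, ENNReal.ofReal_one]
      _ ≤ ∫⁻ x, ENNReal.ofReal (χ x) ∂μ := setLIntegral_le_lintegral _ _
  have hup : ∫⁻ x, ENNReal.ofReal (χ x) ∂ν ≤ ν U := by
    calc ∫⁻ x, ENNReal.ofReal (χ x) ∂ν ≤ ∫⁻ x, U.indicator (fun _ => 1) x ∂ν := by
          refine lintegral_mono fun x => ?_
          by_cases hx : x ∈ U
          · rw [Set.indicator_of_mem hx, ← ENNReal.ofReal_one]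
            exact ENNReal.ofReal_le_ofReal (h3 x).2
          · rw [Set.indicator_of_notMem hx, h5 x hx, ENNReal.ofReal_zero]
      _ = ν U := by rw [lintegral_indicator hU.measurableSet, setLIntegral_one]
  have e1 : ENNReal.ofReal (∫ x, χ x ∂μ) = ∫⁻ x, ENNReal.ofReal (χ x) ∂μ :=
    ofReal_integral_eq_lintegral_ofReal (hint μ) (Filter.Eventually.of_forall fun x => (h3 x).1)
  have e2 : ENNReal.ofReal (∫ x, χ x ∂ν) = ∫⁻ x, ENNReal.ofReal (χ x) ∂ν :=
    ofReal_integral_eq_lintegral_ofReal (hint ν) (Filter.Eventually.of_forall fun x => (h3 x).1)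
  calc μ Q ≤ ∫⁻ x, ENNReal.ofReal (χ x) ∂μ := hlow
    _ = ∫⁻ x, ENNReal.ofReal (χ x) ∂ν := by rw [← e1, ← e2, hk χ h1 h2 h6]
    _ ≤ ν U := hup
    _ ≤ ν Q + ε := hνU.le

theorem cmp_open (μ ν : Measure X) [IsFiniteMeasureOnCompacts μ] [IsFiniteMeasureOnCompacts ν]
    {K : Set X}
    (hk : ∀ χ : X → ℝ, ContDiff ℝ 2 χ → HasCompactSupport χ → tsupport (fderiv ℝ χ) ⊆ Kᶜ →
      ∫ x, χ x ∂μ = ∫ x, χ x ∂ν) {Q : Set X} (hQ : IsCompact Q) (hQK : Q ⊆ K)
    (hKQ : IsClosed (K \ Q)) : μ Q = ν Q := by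
  refine le_antisymm (Cmp_le μ ν hk hQ hQK hKQ) (Cmp_le ν μ ?_ hQ hQK hKQ)
  intro χ h1 h2 h3
  exact (hk χ h1 h2 h3).symm

end Pool.Agent.H36.TD
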