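import Pool.Agent.H36.TD.Inv
import Pool.Agent.H36.TD.Alg

set_option autoImplicit false

/-!
# Module Cov: change of variables (90 lines)

Let `θ y = χ (φ.symm y)`, `S = tsupport (fderiv ℝ χ) ⊆ N`. The function `y ↦ fderiv θ y (Yx y)` vanishes off `φ '' S` (`theta`, last part), so its integral is
the integral over `φ '' N`. `integral_image_eq_integral_abs_det_fderiv_smul` (on the measurable set `N`, injective `φ`, derivative `fderiv ℝ φ x`)
and `pm_det`: it is `∫ x in N, fderiv θ (φ x) (Yx (φ x))`. For `x ∈ N` let `e` be the equivalence of `pm_equiv` for `fderiv ℝ φ x`, `B = e.symm`: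
`fderiv θ (φ x) (Yx (φ x)) = fderiv θ (φ x) (fderiv φ x (B (Yx (φ x)))) = fderiv χ x (B (Yx (φ x)))` (`theta`, third part)
`= -(s x * Lam (φ x) (fderiv φ x (sg (fderiv χ x))))` (`alg_phi`). For `x ∉ N` (so `x ∉ S`) `fderiv χ x = 0`, `sg 0 = 0`, `Lam _ 0 = 0`: the integral over `N`
of the last function is the integral over the whole space (`setIntegral_eq_integral_of_forall_compl_eq_zero`).
-/

namespace Pool.Agent.H36.TD

open Pool.Agent.H72.Symp MeasureTheory

variable {n : ℕ}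

theorem cov {φ : Sp n ≃ₜ Sp n} {N : Set (Sp n)} (hN : IsOpen N) (hd : ContDiffOn ℝ 1 φ N)
    {s : Sp n → ℝ} (hs : ∀ x, s x = 1 ∨ s x = -1) (hM : ∀ x ∈ N, Mul (s x) (fderiv ℝ φ x))
    {χ : Sp n → ℝ} (hχ : ContDiff ℝ 1 χ) (hc : HasCompactSupport χ)
    (hS : tsupport (fderiv ℝ χ) ⊆ N) :
    ∫ y, fderiv ℝ (fun y => χ (φ.symm y)) y (Yx y) =
      -∫ x, s x * Lam (φ x) (fderiv ℝ φ x (sg (fderiv ℝ χ x))) := by
  have hPM : ∀ x ∈ N, PM (fderiv ℝ φ x) := by
    intro x hx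
    rcases hs x with h | h
    · left
      have := hM x hx
      rwa [h] at this
    · right
      have := hM x hx
      rwa [h] at this
  obtain ⟨-, -, h3, h4⟩ := theta hN hd hPM hχ hc hS
  have hmem : ∀ x, x ∉ N → x ∉ tsupport (fderiv ℝ χ) := fun x hx h => hx (hS h)
  have e1 : ∫ y in φ '' N, fderiv ℝ (fun y => χ (φ.symm y)) y (Yx y) =
      ∫ y, fderiv ℝ (fun y => χ (φ.symm y)) y (Yx y) := by
    apply setIntegral_eq_integral_of_forall_compl_eq_zero
    intro y hy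
    obtain ⟨x, rfl⟩ := φ.surjective y
    have hx : x ∉ N := fun h => hy ⟨x, h, rfl⟩
    rw [h4 x (hmem x hx)]
    rfl
  have hder : ∀ x ∈ N, HasFDerivWithinAt φ (fderiv ℝ φ x) N x := by
    intro x hx
    exact (((hd.contDiffAt (hN.mem_nhds hx)).differentiableAt (by simp)).hasFDerivAt).hasFDerivWithinAt
  have e2 : ∫ y in φ '' N, fderiv ℝ (fun y => χ (φ.symm y)) y (Yx y) =
      ∫ x in N, |(fderiv ℝ φ x).det| • fderiv ℝ (fun y => χ (φ.symm y)) (φ x) (Yx (φ x)) :=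
    integral_image_eq_integral_abs_det_fderiv_smul volume hN.measurableSet hder φ.injective.injOn _
  have e3 : ∫ x in N, |(fderiv ℝ φ x).det| • fderiv ℝ (fun y => χ (φ.symm y)) (φ x) (Yx (φ x)) =
      ∫ x in N, -(s x * Lam (φ x) (fderiv ℝ φ x (sg (fderiv ℝ χ x)))) := by
    apply setIntegral_congr_fun hN.measurableSet
    intro x hx
    obtain ⟨e, he⟩ := pm_equiv (hPM x hx)
    have hAB : ∀ w, fderiv ℝ φ x ((e.symm : Sp n →L[ℝ] Sp n) w) = w := by
      intro w
      rw [← he]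
      simp
    have h5 := alg_phi (hs x) (hM x hx) hAB (fderiv ℝ χ x) (φ x)
    have h6 := h3 x hx ((e.symm : Sp n →L[ℝ] Sp n) (Yx (φ x)))
    rw [hAB] at h6
    show |(fderiv ℝ φ x).det| • fderiv ℝ (fun y => χ (φ.symm y)) (φ x) (Yx (φ x)) =
      -(s x * Lam (φ x) (fderiv ℝ φ x (sg (fderiv ℝ χ x))))
    rw [pm_det (hPM x hx), one_smul, h6, h5]
  have e4 : ∫ x in N, -(s x * Lam (φ x) (fderiv ℝ φ x (sg (fderiv ℝ χ x)))) =
      ∫ x, -(s x * Lam (φ x) (fderiv ℝ φ x (sg (fderiv ℝ χ x)))) := by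
    apply setIntegral_eq_integral_of_forall_compl_eq_zero
    intro x hx
    have h0 : fderiv ℝ χ x = 0 := image_eq_zero_of_notMem_tsupport (hmem x hx)
    have h1 : sg (0 : Sp n →L[ℝ] ℝ) = 0 := by
      funext j
      simp [sg]
    rw [h0, h1, map_zero]
    simp [Lam]
  rw [← e1, e2, e3, e4, integral_neg]

end Pool.Agent.H36.TD
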