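import Pool.Agent.H36.TD.Defs

set_option autoImplicit false

/-!
# Module Cut: cutoff functions (70 lines)

The set `W = U ∩ (K \ Q)ᶜ` is open and contains the compact set `Q`; let `T` be compact with `Q ⊆ interior T`, `T ⊆ W` (`exists_compact_between`). There is a smooth
`χ : X → [0,1]` with `χ = 1` near `Q` and `χ = 0` outside `T` (`exists_contMDiff_one_nhds_of_subset_interior` or a similar lemma of
`Mathlib.Geometry.Manifold.PartitionOfUnity`, with `contMDiff_iff_contDiff`; or a finite sum of bump functions `exists_contDiff_tsupport_subset`, composed with a smooth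
function which is `1` on `[1, ∞)` and `0` near `0`). Its support is contained in the compact set `T`. Let `x ∈ K`. If `x ∈ Q`, then `χ = 1` near `x`; otherwise
`x ∈ K \ Q`, so `x ∉ T`, and `χ = 0` near `x`. In both cases `fderiv ℝ χ = 0` near `x`, so `x ∉ tsupport (fderiv ℝ χ)` (`notMem_tsupport_iff_eventuallyEq`).
-/

namespace Pool.Agent.H36.TD

variable {X : Type} [NormedAddCommGroup X] [NormedSpace ℝ X] [FiniteDimensional ℝ X]

theorem exists_cut {K Q U : Set X} (hQ : IsCompact Q) (hQK : Q ⊆ K) (hKQ : IsClosed (K \ Q))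
    (hU : IsOpen U) (hQU : Q ⊆ U) :
    ∃ χ : X → ℝ, ContDiff ℝ 2 χ ∧ HasCompactSupport χ ∧ (∀ x, 0 ≤ χ x ∧ χ x ≤ 1) ∧
      (∀ x ∈ Q, χ x = 1) ∧ (∀ x, x ∉ U → χ x = 0) ∧ tsupport (fderiv ℝ χ) ⊆ Kᶜ := by
  have hprop : ProperSpace X := FiniteDimensional.proper ℝ X
  have hW : IsOpen (U ∩ (K \ Q)ᶜ) := hU.inter hKQ.isOpen_compl
  have hQW : Q ⊆ U ∩ (K \ Q)ᶜ := fun x hx => ⟨hQU hx, fun h => h.2 hx⟩
  obtain ⟨T, hT, hQT, hTW⟩ := exists_compact_between hQ hW hQW
  obtain ⟨f, h1, h0, h01⟩ := exists_contMDiffMap_one_nhds_of_subset_interior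
    (modelWithCornersSelf ℝ X) (n := 2) hQ.isClosed hQT
  have hf : ContDiff ℝ 2 (fun x => f x) := contMDiff_iff_contDiff.mp f.contMDiff
  refine ⟨fun x => f x, hf, ?_, fun x => ⟨(h01 x).1, (h01 x).2⟩,
    fun x hx => h1.self_of_nhdsSet x hx, fun x hx => h0 x (fun h => hx (hTW h).1), ?_⟩
  · exact HasCompactSupport.intro hT h0
  · intro x hx hxK
    have key : fderiv ℝ (fun x => f x) =ᶠ[nhds x] 0 := by
      by_cases hxQ : x ∈ Q
      · have h2 : ∀ᶠ y in nhds x, f y = 1 := (Filter.eventually_of_mem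
          (mem_nhdsSet_iff_forall.mp h1 x hxQ) (fun y hy => hy))
        have h3 : (fun y => f y) =ᶠ[nhds x] fun _ => (1 : ℝ) := h2
        filter_upwards [h3.eventuallyEq_nhds] with y hy
        rw [hy.fderiv_eq]
        simp
      · have hxT : x ∉ T := fun h => (hTW h).2 ⟨hxK, hxQ⟩
        have h2 : ∀ᶠ y in nhds x, f y = 0 := by
          filter_upwards [hT.isClosed.isOpen_compl.mem_nhds hxT] with y hy
          exact h0 y hy
        have h3 : (fun y => f y) =ᶠ[nhds x] fun _ => (0 : ℝ) := h2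
        filter_upwards [h3.eventuallyEq_nhds] with y hy
        rw [hy.fderiv_eq]
        simp
    exact (notMem_tsupport_iff_eventuallyEq.mpr key) hx

end Pool.Agent.H36.TD
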