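import Pool.Agent.H36.TD.TrS
import Pool.Agent.H36.CSymp.Shear

set_option autoImplicit false

/-!
# Module Cyl: the capacities of square cylinders (100 lines)

`Zs u v r = {x | |Om u x| < r ∧ |Om v x| < r}` is open. `Zs e0 f0 1 = {x | |x.2 0| < 1 ∧ |x.1 0| < 1}`, so its capacity is finite (`RCap.cyl_lt`), and positive since it contains
`ball 0 1` (sup norm; `RCap.ball_pos`, `mono`). If `B` is symplectic, `B e0 = u`, `B f0 = v`, then `Zs u v r = B '' Zs e0 f0 r` (`Om u (B x) = Om e0 x`), and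
`Zs e0 f0 r = (r • ·) '' Zs e0 f0 1`: `val (Zs u v r) = r² * κ` for `Om u v = 1` (`RCap.symp`, `RCap.conf`). For `τ = Om u v > 0`:
`Zs u v r = Zs (u / √τ) (v / √τ) (r / √τ)`. For `τ < 0`: `Zs u v r = Zs v u r`.
`thin`: with `ξ = Om u`, `u ≠ 0`: choose `v` with `Om u v = 1`; a bounded set with `|Om u x| < δ` is contained in `{|Om u x| < δ, |Om v x| < R}`, `R` large, which is
`Zs (√(R/δ) u) (√(δ/R) v) √(δ R)` of capacity `δ R κ`.
-/

namespace Pool.Agent.H36.TD

open Pool.Agent.H36.CSymp Set Metric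
open scoped ENNReal

variable {m : ℕ} [NeZero m]

/-- a square cylinder -/
def Zs (u v : E m) (r : ℝ) : Set (E m) := {x | |Om u x| < r ∧ |Om v x| < r}

private theorem Cyl_smul_right (u x : E m) (t : ℝ) : Om u (t • x) = t * Om u x := by
  unfold Om
  rw [Prod.smul_fst, Prod.smul_snd, dt_smul_right, dt_smul_right]
  ring

private theorem Cyl_smul_left (u x : E m) (t : ℝ) : Om (t • u) x = t * Om u x := by
  unfold Om
  rw [Prod.smul_fst, Prod.smul_snd, dt_smul_left, dt_smul_left]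
  ring

private theorem Cyl_anti (u x : E m) : Om x u = - Om u x := by
  unfold Om
  rw [dt_comm x.1, dt_comm x.2]
  ring

private theorem Cyl_cont (u : E m) : Continuous fun x : E m => Om u x := by
  unfold Om dt
  fun_prop

private theorem Cyl_e0 (x : E m) : Om (e0 : E m) x = x.2 0 := by
  unfold Om e0
  simp [dt_single_left]
  simp [dt]

private theorem Cyl_f0 (x : E m) : Om (f0 : E m) x = - x.1 0 := by
  unfold Om f0
  simp [dt_single_left]
  simp [dt]

theorem isOpen_Zs (u v : E m) (r : ℝ) : IsOpen (Zs u v r) :=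
  (isOpen_lt (Cyl_cont u).abs continuous_const).and (isOpen_lt (Cyl_cont v).abs continuous_const)

theorem val_std (c : RCap m) : 0 < c.val (Zs e0 f0 1) ∧ c.val (Zs e0 f0 1) < ⊤ := by
  have h1 : (Zs e0 f0 1 : Set (E m)) = {x | |x.1 0| < 1 ∧ |x.2 0| < 1} := by
    ext x
    unfold Zs
    rw [mem_ofPred_eq, mem_ofPred_eq, Cyl_e0, Cyl_f0, abs_neg]
    exact and_comm
  refine ⟨?_, by rw [h1]; exact c.cyl_lt⟩
  refine c.ball_pos.trans_le (c.mono isOpen_ball (isOpen_Zs e0 f0 1) ?_)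
  rw [h1]
  intro x hx
  rw [mem_ball_zero_iff, Prod.norm_def, max_lt_iff] at hx
  exact ⟨(norm_le_pi_norm x.1 0).trans_lt hx.1, (norm_le_pi_norm x.2 0).trans_lt hx.2⟩

private theorem Cyl_one (c : RCap m) {u v : E m} (h : Om u v = 1) {r : ℝ} (hr : 0 < r) :
    c.val (Zs u v r) = ENNReal.ofReal (r ^ 2) * c.val (Zs e0 f0 1) := by
  obtain ⟨B, hB, hu, hv⟩ := symp_trans h
  have h1 : Zs u v r = B '' Zs e0 f0 r := by
    ext x
    constructor
    · intro hx
      refine ⟨B.symm x, ?_, B.apply_symm_apply x⟩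
      unfold Zs at hx ⊢
      rw [mem_ofPred_eq] at hx ⊢
      rw [← hB e0, ← hB f0, hu, hv, B.apply_symm_apply]
      exact hx
    · rintro ⟨y, hy, rfl⟩
      unfold Zs at hy ⊢
      rw [mem_ofPred_eq] at hy ⊢
      rw [← hu, ← hv, hB, hB]
      exact hy
  have h2 : (Zs e0 f0 r : Set (E m)) = (fun x => r • x) '' Zs e0 f0 1 := by
    ext x
    constructor
    · intro hx
      refine ⟨r⁻¹ • x, ?_, ?_⟩
      · unfold Zs at hx ⊢
        rw [mem_ofPred_eq] at hx ⊢
        rw [Cyl_smul_right, Cyl_smul_right, abs_mul, abs_mul, abs_of_pos (inv_pos.2 hr)]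
        constructor
        · rw [inv_mul_lt_iff₀ hr, mul_one]
          exact hx.1
        · rw [inv_mul_lt_iff₀ hr, mul_one]
          exact hx.2
      · show r • r⁻¹ • x = x
        rw [smul_smul, mul_inv_cancel₀ hr.ne', one_smul]
    · rintro ⟨y, hy, rfl⟩
      show r • y ∈ Zs e0 f0 r
      unfold Zs at hy ⊢
      rw [mem_ofPred_eq] at hy ⊢
      rw [Cyl_smul_right, Cyl_smul_right, abs_mul, abs_mul, abs_of_pos hr]
      constructor
      · nlinarith [hy.1]
      · nlinarith [hy.2]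
  rw [h1, c.symp B hB (isOpen_Zs _ _ _), h2, c.conf r hr (isOpen_Zs _ _ _)]

private theorem Cyl_pos (c : RCap m) {u v : E m} (h : 0 < Om u v) {r : ℝ} (hr : 0 < r) :
    c.val (Zs u v r) = ENNReal.ofReal (r ^ 2 / Om u v) * c.val (Zs e0 f0 1) := by
  set s := Real.sqrt (Om u v) with hs
  have hs0 : 0 < s := Real.sqrt_pos.2 h
  have hss : s * s = Om u v := Real.mul_self_sqrt h.le
  have h1 : Zs u v r = Zs (s⁻¹ • u) (s⁻¹ • v) (s⁻¹ * r) := by
    ext x
    unfold Zs
    rw [mem_ofPred_eq, mem_ofPred_eq, Cyl_smul_left, Cyl_smul_left, abs_mul, abs_mul,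
      abs_of_pos (inv_pos.2 hs0), mul_lt_mul_iff_right₀ (inv_pos.2 hs0),
      mul_lt_mul_iff_right₀ (inv_pos.2 hs0)]
  have h2 : Om (s⁻¹ • u) (s⁻¹ • v) = 1 := by
    rw [Cyl_smul_left, Cyl_smul_right, ← hss]
    field_simp
  rw [h1, Cyl_one c h2 (mul_pos (inv_pos.2 hs0) hr), ← hss]
  congr 2
  field_simp

theorem val_Zs (c : RCap m) {u v : E m} (h : Om u v ≠ 0) {r : ℝ} (hr : 0 < r) :
    c.val (Zs u v r) = ENNReal.ofReal (r ^ 2 / |Om u v|) * c.val (Zs e0 f0 1) := by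
  rcases lt_or_gt_of_ne h with h1 | h1
  · have h2 : Zs u v r = Zs v u r := by
      ext x
      exact and_comm
    have h3 : 0 < Om v u := by
      rw [Cyl_anti u v]
      linarith
    rw [h2, Cyl_pos c h3 hr, Cyl_anti u v, abs_of_neg h1]
  · rw [Cyl_pos c h1 hr, abs_of_pos h1]

private theorem Cyl_dual {u : E m} (hu : u ≠ 0) : ∃ v : E m, Om u v = 1 := by
  by_cases h1 : u.1 = 0
  · have h2 : u.2 ≠ 0 := fun h2 => hu (Prod.ext h1 h2)
    obtain ⟨i, hi⟩ := Function.ne_iff.1 h2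
    have hi' : u.2 i ≠ 0 := hi
    refine ⟨(Pi.single i (-(u.2 i)⁻¹), 0), ?_⟩
    unfold Om
    show dt u.1 0 - dt u.2 (Pi.single i (-(u.2 i)⁻¹)) = 1
    rw [dt_single_right, h1]
    simp [dt, hi']
  · obtain ⟨i, hi⟩ := Function.ne_iff.1 h1
    have hi' : u.1 i ≠ 0 := hi
    refine ⟨(0, Pi.single i (u.1 i)⁻¹), ?_⟩
    unfold Om
    show dt u.1 (Pi.single i (u.1 i)⁻¹) - dt u.2 0 = 1
    rw [dt_single_right]
    simp [dt, hi']

/-- bounded open sets near a hyperplane have small capacity -/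
theorem thin (c : RCap m) {u : E m} (hu : u ≠ 0) {R : ℝ} (hR : 0 < R) :
    ∃ C : ℝ≥0∞, C < ⊤ ∧ ∀ δ : ℝ, 0 < δ → ∀ W : Set (E m), IsOpen W → W ⊆ ball 0 R →
      (∀ x ∈ W, |Om u x| < δ) → c.val W ≤ ENNReal.ofReal δ * C := by
  obtain ⟨v, hv⟩ := Cyl_dual hu
  obtain ⟨M, hM⟩ := (isCompact_closedBall (0 : E m) R).exists_bound_of_continuousOn
    (Cyl_cont v).continuousOn
  set T : ℝ := |M| + 1 with hT
  have hT0 : 0 < T := by positivity
  refine ⟨ENNReal.ofReal T * c.val (Zs e0 f0 1), ENNReal.mul_lt_top ENNReal.ofReal_lt_top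
    (val_std c).2, fun δ hδ W hW hWR hWu => ?_⟩
  have hk : 0 < T / δ := div_pos hT0 hδ
  have h1 : W ⊆ Zs ((T / δ) • u) v T := by
    intro x hx
    unfold Zs
    rw [mem_ofPred_eq, Cyl_smul_left, abs_mul, abs_of_pos hk]
    constructor
    · calc T / δ * |Om u x| < T / δ * δ := by
            exact mul_lt_mul_of_pos_left (hWu x hx) hk
        _ = T := by field_simp
    · have h2 := hM x (ball_subset_closedBall (hWR hx))
      rw [Real.norm_eq_abs] at h2
      have h3 := le_abs_self M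
      linarith
  have h2 : Om ((T / δ) • u) v = T / δ := by
    rw [Cyl_smul_left, hv, mul_one]
  refine (c.mono hW (isOpen_Zs _ _ _) h1).trans ?_
  rw [val_Zs c (by rw [h2]; exact hk.ne') hT0, h2, abs_of_pos hk, ← mul_assoc,
    ← ENNReal.ofReal_mul hδ.le]
  have h3 : T ^ 2 / (T / δ) = δ * T := by
    field_simp
  rw [h3]

end Pool.Agent.H36.TD
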