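import Pool.Agent.H72.Symp.Defs

set_option autoImplicit false

/-!
# Homeomorphisms which are symplectic off a closed set with compact components: definitions

THEOREM (MP_bd900e_gt). Let `n ≥ 2`, `c` any capacity choice, `φ` a `c`-symplectic homeomorphism of `R^{2n}` and `K` a closed set such
that `φ` is `C¹` off `K` and all connected components of `K` are compact. Then `vol (φ B) = vol B` for every compact union `B` of
components of `K`, and `φ` preserves volume if the union of the components with more than one point has measure zero (for example if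
`K` is totally disconnected, of any measure, or if `K` has measure zero).

PROOF. Off `K` the derivative of `φ` preserves `ω` up to the sign (zoom and linear algebra: `LinP`, `ZmA`, `ZmB`, `Dif`). Let `χ` be a test
function which is locally constant near `K`. Then `θ = χ ∘ φ⁻¹` is `C¹` with compact support, and with `λ = ∑ x_j dy_j`,
`Y = ∑ x_j ∂/∂x_j` (divergence `n`, `ω(Y, ·) = λ`)
`n ∫ θ = - ∫ dθ(Y)`, `n ∫ χ = - ∫ dχ(Y)`; change of variables off `K` gives
`n (∫ θ - ∫ χ) = ∫ (s φ^*λ - λ)(sg dχ)`, where `s = ±1` is the sign and `ω(sg dχ, ·) = dχ`. The form `α = s φ^*λ - λ` is closed off `K`, and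
for `n ≥ 2` the integral vanishes: in the plane `(x_i, y_i)` it is `∫ dχ ∧ α ∧ dx_k dy_k ..`, and `dx_k dy_k` is the
differential of `x_k dy_k` (`TriA`, `TriB`, `Tot`). So `∫ χ ∘ φ⁻¹ = ∫ χ` (`Key`): no degree theory, no condition on `H^1`. The rest is
measure theory and topology.
-/

namespace Pool.Agent.H36.TD

open Pool.Agent.H72.Symp

variable {n : ℕ}

/-- the vector `∂/∂x_j` -/
def ex (j : Fin n) : Sp n := Pi.single j (1, 0)

/-- the vector `∂/∂y_j` -/
def ey (j : Fin n) : Sp n := Pi.single j (0, 1)

/-- `λ_p(w) = ∑ x_j(p) y_j(w)` -/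
def Lam (p w : Sp n) : ℝ := ∑ j, (p j).1 * (w j).2

/-- the vector field `∑ x_j ∂/∂x_j` -/
def Yx (p : Sp n) : Sp n := fun j => ((p j).1, 0)

/-- the vector with `omega (sg L) w = L w` -/
def sg (L : Sp n →L[ℝ] ℝ) : Sp n := fun j => (L (ey j), -L (ex j))

/-- `A` multiplies the symplectic form by `s` -/
def Mul (s : ℝ) (A : Sp n →L[ℝ] Sp n) : Prop := ∀ u v, omega (A u) (A v) = s * omega u v

/-- `A` preserves the symplectic form up to the sign -/
def PM (A : Sp n →L[ℝ] Sp n) : Prop := Mul 1 A ∨ Mul (-1) A

/-- the union of the components of `K` with more than one point -/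
def Ntr {X : Type} [TopologicalSpace X] (K : Set X) : Set X :=
  {x | x ∈ K ∧ ∃ y ∈ connectedComponentIn K x, y ≠ x}

/-- the value of the wedge product of three linear forms on three vectors -/
def tri {X : Type} [NormedAddCommGroup X] [NormedSpace ℝ X] (p q r : X →L[ℝ] ℝ) (a b c : X) : ℝ :=
  p a * (q b * r c - q c * r b) + p b * (q c * r a - q a * r c) + p c * (q a * r b - q b * r a)

end Pool.Agent.H36.TD
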