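import Mathlib

set_option autoImplicit false

/-!
# Module Thr: three bilinear forms with zero product (60 lines)

If `B u₀ v₀ ≠ 0`, then `{(u, v) | B u v ≠ 0}` is open and dense in `X × X`: for `(u, v)` and `t` real, `B (u + t u₀) (v + t v₀)` is a polynomial in `t` of degree `2` with leading coefficient
`B u₀ v₀ ≠ 0`, so it is non-zero for all but two `t`, in particular for arbitrarily small `t`. The intersection of three open dense sets is non-empty (`Dense.inter_of_isOpen_left`).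
-/

namespace Pool.Agent.H36.TD

open Filter Topology

private lemma Thr_open {X : Type} [NormedAddCommGroup X] [NormedSpace ℝ X]
    (B : X →L[ℝ] X →L[ℝ] ℝ) : IsOpen {p : X × X | B p.1 p.2 ≠ 0} := by
  have hc : Continuous (fun p : X × X => B p.1 p.2) := by fun_prop
  exact isOpen_ne_fun hc continuous_const

private lemma Thr_poly {c0 c1 c2 : ℝ} (h2 : c2 ≠ 0) :
    ∃ᶠ t in 𝓝 (0 : ℝ), c0 + t * c1 + t * t * c2 ≠ 0 := by
  intro hcon
  have h1 : ∀ᶠ t in 𝓝 (0 : ℝ), c0 + t * c1 + t * t * c2 = 0 := by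
    filter_upwards [hcon] with t ht
    exact not_not.mp ht
  obtain ⟨ε, hε, hb⟩ := Metric.eventually_nhds_iff.mp h1
  have hd : ∀ s : ℝ, 0 < s → s < 1 → c0 + (s * ε) * c1 + (s * ε) * (s * ε) * c2 = 0 := by
    intro s hs hs1
    apply hb
    rw [Real.dist_eq, sub_zero, abs_of_pos (by positivity)]
    nlinarith
  have e1 := hd (1 / 2) (by norm_num) (by norm_num)
  have e2 := hd (1 / 4) (by norm_num) (by norm_num)
  have e3 := hd (3 / 4) (by norm_num) (by norm_num)
  have h4 : ε * ε * c2 = 0 := by nlinarith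
  rcases mul_eq_zero.mp h4 with h5 | h5
  · have : 0 < ε * ε := by positivity
    linarith
  · exact h2 h5

private lemma Thr_dense {X : Type} [NormedAddCommGroup X] [NormedSpace ℝ X]
    (B : X →L[ℝ] X →L[ℝ] ℝ) {u₀ v₀ : X} (h0 : B u₀ v₀ ≠ 0) :
    Dense {p : X × X | B p.1 p.2 ≠ 0} := by
  intro p
  rw [mem_closure_iff_frequently]
  have hg : Continuous (fun t : ℝ => ((p.1 + t • u₀, p.2 + t • v₀) : X × X)) := by fun_prop
  have ht : Tendsto (fun t : ℝ => ((p.1 + t • u₀, p.2 + t • v₀) : X × X)) (𝓝 0) (𝓝 p) := by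
    have := hg.tendsto 0
    simpa using this
  refine ht.frequently ?_
  have hf := Thr_poly (c0 := B p.1 p.2) (c1 := B p.1 v₀ + B u₀ p.2) h0
  refine hf.mono ?_
  intro t htt
  simp only [Set.mem_setOf_eq]
  intro hz
  apply htt
  rw [← hz]
  simp only [map_add, map_smul, ContinuousLinearMap.add_apply, ContinuousLinearMap.smul_apply,
    smul_eq_mul]
  ring

theorem three_forms {X : Type} [NormedAddCommGroup X] [NormedSpace ℝ X]
    (B₁ B₂ B₃ : X →L[ℝ] X →L[ℝ] ℝ) (h : ∀ u v, B₁ u v * B₂ u v * B₃ u v = 0) :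
    (∀ u v, B₁ u v = 0) ∨ (∀ u v, B₂ u v = 0) ∨ ∀ u v, B₃ u v = 0 := by
  by_contra hcon
  push Not at hcon
  obtain ⟨⟨u1, v1, h1⟩, ⟨u2, v2, h2⟩, ⟨u3, v3, h3⟩⟩ := hcon
  have d12 := (Thr_dense B₁ h1).inter_of_isOpen_left (Thr_dense B₂ h2) (Thr_open B₁)
  have d123 := d12.inter_of_isOpen_left (Thr_dense B₃ h3) ((Thr_open B₁).inter (Thr_open B₂))
  obtain ⟨p, ⟨hp1, hp2⟩, hp3⟩ := d123.nonempty
  have := h p.1 p.2
  rcases mul_eq_zero.mp this with h4 | h4
  · rcases mul_eq_zero.mp h4 with h5 | h5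
    · exact hp1 h5
    · exact hp2 h5
  · exact hp3 h4

end Pool.Agent.H36.TD
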