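import Pool.Agent.H36.TD.Cyl
import Pool.Agent.H36.TD.Thr

set_option autoImplicit false

/-!
# Module LinP: linear maps which preserve a capacity (130 lines)

Let `B` be the adjoint of `A` for `Om`: `Om (B u) x = Om u (A x)` (`B u = (fun j => Om u (A (0, single j 1)), fun j => - Om u (A (single j 1, 0)))`; linear in `u`; `adj`). Then
`A '' Zs (B u) (B v) 1 = Zs u v 1` (`A` is bijective), so for `Om u v = 1`
`val (Zs (B u) (B v) 1) = val (Zs u v 1) = κ` (`Pres.val`), and if `τ = Om (B u) (B v) ≠ 0`, `val_Zs` gives `κ / |τ| = κ`, `|τ| = 1`. So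
`τ (τ - 1) (τ + 1) = 0` if `Om u v = 1`; by scaling `u`, `τ (τ - Om u v) (τ + Om u v) = 0` whenever `Om u v ≠ 0`, and by density (or: continuity in `u`, the set
`Om u v ≠ 0` is dense if `v ≠ 0`; for `v = 0` clear) for all `u, v`. `three_forms` for the continuous bilinear forms `Om (B u) (B v)`, `Om (B u) (B v) - Om u v`,
`Om (B u) (B v) + Om u v`. The first is not zero: `B` is bijective (as `A` is) and `Om e0 f0 = 1`. In the second case
`Om u (A (B v)) = Om (B u) (B v) = Om u v` for all `u`, so `A (B v) = v`, `B = A⁻¹`, so `B (A x) = x` and `Om (A x) (A y) = Om (B (A x)) y = Om x y`. The third case in the same way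
with a sign.
-/

namespace Pool.Agent.H36.TD

open Pool.Agent.H36.CSymp Set
open scoped ENNReal

variable {m : ℕ} [NeZero m]

omit [NeZero m] in
private lemma LinP_add_left (u u' v : E m) : Om (u + u') v = Om u v + Om u' v := by
  simp only [Om, Prod.fst_add, Prod.snd_add, dt_add_left]; ring

omit [NeZero m] in
private lemma LinP_add_right (u v v' : E m) : Om u (v + v') = Om u v + Om u v' := by
  simp only [Om, Prod.fst_add, Prod.snd_add, dt_add_right]; ring

omit [NeZero m] in
private lemma LinP_smul_left (t : ℝ) (u v : E m) : Om (t • u) v = t * Om u v := by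
  simp only [Om, Prod.smul_fst, Prod.smul_snd, dt_smul_left]; ring

omit [NeZero m] in
private lemma LinP_smul_right (t : ℝ) (u v : E m) : Om u (t • v) = t * Om u v := by
  simp only [Om, Prod.smul_fst, Prod.smul_snd, dt_smul_right]; ring

omit [NeZero m] in
private lemma LinP_anti (u v : E m) : Om u v = - Om v u := by
  simp only [Om, dt_comm u.1 v.2, dt_comm u.2 v.1]; ring

/-- the symplectic form as a continuous bilinear map -/
private noncomputable def LinP_OmL : E m →L[ℝ] E m →L[ℝ] ℝ :=
  LinearMap.toContinuousLinearMap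
    { toFun := fun u => LinearMap.toContinuousLinearMap
        { toFun := fun v => Om u v
          map_add' := fun v v' => LinP_add_right u v v'
          map_smul' := fun t v => LinP_smul_right t u v }
      map_add' := fun u u' => by
        ext v
        · exact LinP_add_left u u' _
        · exact LinP_add_left u u' _
      map_smul' := fun t u => by
        ext v
        · exact LinP_smul_left t u _
        · exact LinP_smul_left t u _ }

omit [NeZero m] in
private lemma LinP_OmL_apply (u v : E m) : LinP_OmL u v = Om u v := rfl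

omit [NeZero m] in
private lemma LinP_nondeg {u : E m} (h : ∀ v, Om u v = 0) : u = 0 := by
  refine Prod.ext (funext fun j => ?_) (funext fun j => ?_)
  · have := h (0, Pi.single j 1)
    simp only [Om, dt_single_right] at this
    simpa [dt] using this
  · have := h (Pi.single j 1, 0)
    simp only [Om, dt_single_right] at this
    simpa [dt] using this

omit [NeZero m] in
private lemma LinP_nondeg' {v : E m} (h : ∀ u, Om u v = 0) : v = 0 :=
  LinP_nondeg fun u => by rw [LinP_anti, h u, neg_zero]

omit [NeZero m] in
private lemma LinP_func (L : E m →L[ℝ] ℝ) (x : E m) :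
    L x = ∑ j, x.1 j * L (Pi.single j 1, 0) + ∑ j, x.2 j * L (0, Pi.single j 1) := by
  have h1 : x = ∑ j, x.1 j • ((Pi.single j 1, 0) : E m) + ∑ j, x.2 j • ((0, Pi.single j 1) : E m) := by
    refine Prod.ext (funext fun i => ?_) (funext fun i => ?_)
    · simp [Prod.fst_sum, Finset.sum_apply, Pi.single_apply]
    · simp [Prod.snd_sum, Finset.sum_apply, Pi.single_apply]
  conv_lhs => rw [h1]
  rw [map_add, map_sum, map_sum]
  simp only [map_smul, smul_eq_mul]

theorem adj (A : E m →L[ℝ] E m) : ∃ B : E m →L[ℝ] E m, ∀ u x, Om (B u) x = Om u (A x) := by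
  refine ⟨LinearMap.toContinuousLinearMap
    { toFun := fun u => ((fun j => Om u (A (0, Pi.single j 1)), fun j => - Om u (A (Pi.single j 1, 0))) : E m)
      map_add' := fun u u' => ?_
      map_smul' := fun t u => ?_ }, fun u x => ?_⟩
  · refine Prod.ext (funext fun j => ?_) (funext fun j => ?_)
    · exact LinP_add_left u u' _
    · show - Om (u + u') _ = - Om u _ + - Om u' _
      rw [LinP_add_left]; ring
  · refine Prod.ext (funext fun j => ?_) (funext fun j => ?_)
    · exact LinP_smul_left t u _
    · show - Om (t • u) _ = t * - Om u _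
      rw [LinP_smul_left]; ring
  · have h1 := LinP_func ((LinP_OmL u).comp A) x
    simp only [ContinuousLinearMap.comp_apply, LinP_OmL_apply] at h1
    rw [h1]
    show dt (fun j => Om u (A (0, Pi.single j 1))) x.2 - dt (fun j => - Om u (A (Pi.single j 1, 0))) x.1 = _
    simp only [dt]
    rw [sub_eq_add_neg, ← Finset.sum_neg_distrib, add_comm]
    congr 1
    · exact Finset.sum_congr rfl fun j _ => by ring
    · exact Finset.sum_congr rfl fun j _ => by ring

private lemma LinP_key {c : RCap m} {A : E m ≃L[ℝ] E m} (h : Pres c univ A) {B : E m →L[ℝ] E m}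
    (hB : ∀ u x, Om (B u) x = Om u (A x)) {u v : E m} (huv : Om u v ≠ 0)
    (hτ : Om (B u) (B v) ≠ 0) : |Om (B u) (B v)| = |Om u v| := by
  have h1 : A '' Zs (B u) (B v) 1 = Zs u v 1 := by
    ext y
    constructor
    · rintro ⟨x, hx, rfl⟩
      simp only [Zs, mem_ofPred_eq, hB] at hx ⊢
      exact hx
    · intro hy
      refine ⟨A.symm y, ?_, A.apply_symm_apply y⟩
      simp only [Zs, mem_ofPred_eq, hB, ContinuousLinearEquiv.apply_symm_apply] at hy ⊢
      exact hy
  have h2 := h.val (Zs (B u) (B v) 1) (subset_univ _) (isOpen_Zs _ _ _)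
  rw [h1, val_Zs c huv one_pos, val_Zs c hτ one_pos] at h2
  obtain ⟨hk0, hk1⟩ := val_std c
  have h3 := (ENNReal.mul_left_inj hk0.ne' hk1.ne).1 h2
  have ha : 0 < |Om u v| := abs_pos.2 huv
  have hb : 0 < |Om (B u) (B v)| := abs_pos.2 hτ
  rw [ENNReal.ofReal_eq_ofReal_iff (by positivity) (by positivity)] at h3
  field_simp at h3
  linarith

private lemma LinP_prod {c : RCap m} {A : E m ≃L[ℝ] E m} (h : Pres c univ A) {B : E m →L[ℝ] E m}
    (hB : ∀ u x, Om (B u) x = Om u (A x)) (u v : E m) :
    Om (B u) (B v) * (Om (B u) (B v) - Om u v) * (Om (B u) (B v) + Om u v) = 0 := by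
  have key : ∀ u : E m, Om u v ≠ 0 →
      Om (B u) (B v) * (Om (B u) (B v) - Om u v) * (Om (B u) (B v) + Om u v) = 0 := by
    intro u hu
    by_cases hτ : Om (B u) (B v) = 0
    · rw [hτ]; ring
    · have := LinP_key h hB hu hτ
      rcases abs_eq_abs.1 this with h1 | h1
      · rw [h1]; ring
      · rw [h1]; ring
  by_cases huv : Om u v = 0
  swap
  · exact key u huv
  by_cases hv : v = 0
  · have : Om (B u) (B v) = 0 := by
      rw [hv, map_zero]; simp [Om, dt]
    rw [this]; ring
  · obtain ⟨w, hw⟩ : ∃ w, Om w v ≠ 0 := by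
      by_contra hcon
      push Not at hcon
      exact hv (LinP_nondeg' hcon)
    have hc1 : Continuous fun t : ℝ => LinP_OmL (B (u + t • w)) (B v) :=
      (((LinP_OmL (m := m)).comp B).continuous.comp (by fun_prop : Continuous fun t : ℝ => u + t • w)).clm_apply
        continuous_const
    have hc2 : Continuous fun t : ℝ => LinP_OmL (u + t • w) v :=
      ((LinP_OmL (m := m)).continuous.comp (by fun_prop : Continuous fun t : ℝ => u + t • w)).clm_apply
        continuous_const
    have h2 : (fun t : ℝ => LinP_OmL (B (u + t • w)) (B v) *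
        (LinP_OmL (B (u + t • w)) (B v) - LinP_OmL (u + t • w) v) *
        (LinP_OmL (B (u + t • w)) (B v) + LinP_OmL (u + t • w) v)) = fun _ => 0 := by
      refine Continuous.ext_on (dense_compl_singleton (0 : ℝ)) ((hc1.mul (hc1.sub hc2)).mul (hc1.add hc2))
        continuous_const fun t ht => ?_
      refine key (u + t • w) ?_
      rw [LinP_add_left, huv, LinP_smul_left, zero_add]
      exact mul_ne_zero ht hw
    have h3 := congrFun h2 0
    simpa [LinP_OmL_apply] using h3

theorem lin_pm {c : RCap m} {A : E m ≃L[ℝ] E m} (h : Pres c univ A) :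
    (∀ u v, Om (A u) (A v) = Om u v) ∨ ∀ u v, Om (A u) (A v) = -Om u v := by
  obtain ⟨B, hB⟩ := adj (A : E m →L[ℝ] E m)
  have hB' : ∀ u x, Om (B u) x = Om u (A x) := hB
  have h3 := three_forms ((LinP_OmL (m := m)).bilinearComp B B)
    ((LinP_OmL (m := m)).bilinearComp B B - LinP_OmL)
    ((LinP_OmL (m := m)).bilinearComp B B + LinP_OmL) (fun u v => LinP_prod h hB' u v)
  rcases h3 with h3 | h3 | h3
  · exfalso
    have h4 : ∀ v, A (B v) = 0 := fun v => LinP_nondeg' fun u => by
      rw [← hB' u (B v)]; exact h3 u v
    have h5 : ∀ v, B v = 0 := fun v => by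
      have := h4 v
      rwa [← map_zero A, A.injective.eq_iff] at this
    have h6 : (e0 : E m) = 0 := LinP_nondeg fun y => by
      rw [← A.apply_symm_apply y, ← hB', h5]; simp [Om, dt]
    have h7 := om_e0f0 (m := m)
    rw [h6] at h7
    simp [Om, dt] at h7
  · left
    have h4 : ∀ v, A (B v) = v := fun v => by
      have : A (B v) - v = 0 := LinP_nondeg' fun u => by
        have e := h3 u v
        change Om (B u) (B v) - Om u v = 0 at e
        rw [hB' u (B v)] at e
        rw [sub_eq_add_neg, LinP_add_right, show -v = (-1 : ℝ) • v by simp, LinP_smul_right]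
        linarith
      exact sub_eq_zero.1 this
    intro x y
    have h5 : B (A x) = x := A.injective (h4 (A x))
    rw [← hB', h5]
  · right
    have h4 : ∀ v, A (B v) = -v := fun v => by
      have : A (B v) + v = 0 := LinP_nondeg' fun u => by
        have e := h3 u v
        change Om (B u) (B v) + Om u v = 0 at e
        rw [hB' u (B v)] at e
        rw [LinP_add_right]
        exact e
      exact eq_neg_of_add_eq_zero_left this
    intro x y
    have h5 : B (A x) = -x := A.injective (by rw [h4 (A x), map_neg])
    rw [← hB', h5, show -x = (-1 : ℝ) • x by simp, LinP_smul_left]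
    ring

end Pool.Agent.H36.TD
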