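import Pool.Agent.H36.TD.Zm
import Pool.Agent.H36.TD.LinP
import Pool.Agent.H36.TD.Defs
import Pool.Agent.H36.CSymp.Stab

set_option autoImplicit false

/-!
# Module Dif: the derivative of a `c`-symplectic homeomorphism (150 lines)

`dif_loc`: let `U` be the open neighbourhood of `x` of `LocallyPreserves`. The map `f = Th ∘ φ ∘ Th.symm` satisfies `Pres (ofCap c) (Th '' U) f`: continuous, injective, open; the values: `locE_pres` of
CSymp/Core for `σ = τ = id` (the identity is an `IsSympEmbedding`), with `Pres.congr` (`locE_apply`, and the source of `locE` is `Th '' U`, `mem_locE`); or directly `vR_image` as there. Its derivative at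
`Th x` is `Th ∘ A ∘ Th.symm`. `zoom_pres` and `lin_pm` give `Om (Th (A u)) (Th (A v)) = ± Om (Th u) (Th v)`; `om_Th`.
`dif_stab`: `stab φ` has at `y = snoc x 0` the derivative `A × id`, that is `D w = snocL n (A (initL n w), w (Fin.last n))` (CSymp/Stab: `snocL`, `initL`, `stC`, `initL_stab`, `stab_last`). By
`dif_loc` `PM D`, `Mul s D`. Evaluate on the last coordinates: `u = snocL n (0, (1, 0))`, `v = snocL n (0, (0, 1))`: `omega (D u) (D v) = 1 = s` (`omega_snocL`). Evaluate on `snocL n (u, 0)`,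
`snocL n (v, 0)`: `omega (A u) (A v) = s * omega u v`. So `Mul 1 A`.
`dif`: by parity.
-/

namespace Pool.Agent.H36.TD

open Pool.Agent.H36.CSymp Pool.Agent.H72.Symp

private lemma dif_id {m : ℕ} (W : Set (Sp m)) : IsSympEmbedding (id : Sp m → Sp m) W Set.univ :=
  ⟨contDiff_id.contDiffOn, Function.injective_id.injOn, Set.mapsTo_univ _ _, fun x _ u v => by
    rw [fderiv_id]; rfl⟩

theorem dif_loc {m : ℕ} [NeZero m] {c : Capacity m} {φ : Sp m ≃ₜ Sp m} (hφ : LocallyPreserves c φ)
    {x : Sp m} {A : Sp m →L[ℝ] Sp m} (hA : HasFDerivAt φ A x) : PM A := by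
  obtain ⟨U, hU, hx, h⟩ := hφ x
  have hp := locE_pres (c := c) hU (dif_id U) (dif_id (φ '' U)) h
  have hf : Pres (ofCap c) (locE hU (dif_id U) (dif_id (φ '' U))).source
      (fun y : E m => Th (φ (Th.symm y))) := hp.congr fun y hy => by
    obtain ⟨z, hz, hzy⟩ := (mem_locE hU (dif_id U) (dif_id (φ '' U))).1 hy
    have h1 := locE_apply hU (dif_id U) (dif_id (φ '' U)) hz
    rw [hzy] at h1
    have h2 : Th.symm y = z := by
      rw [← hzy]
      exact ContinuousLinearEquiv.symm_apply_apply _ _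
    show Th (φ (Th.symm y)) = _
    rw [h1, h2]
    rfl
  have hmem : Th x ∈ (locE hU (dif_id U) (dif_id (φ '' U))).source :=
    (mem_locE hU (dif_id U) (dif_id (φ '' U))).2 ⟨x, hx, rfl⟩
  have hA' : HasFDerivAt (fun y : E m => Th (φ (Th.symm y)))
      ((Th : Sp m ≃L[ℝ] E m).toContinuousLinearMap.comp
        (A.comp (Th : Sp m ≃L[ℝ] E m).symm.toContinuousLinearMap)) (Th x) := by
    have h1 : HasFDerivAt (Th : Sp m ≃L[ℝ] E m).symm
        (Th : Sp m ≃L[ℝ] E m).symm.toContinuousLinearMap (Th x) :=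
      (Th : Sp m ≃L[ℝ] E m).symm.hasFDerivAt
    have h2 : HasFDerivAt φ A ((Th : Sp m ≃L[ℝ] E m).symm (Th x)) := by
      rw [ContinuousLinearEquiv.symm_apply_apply]
      exact hA
    have h3 := h2.comp (Th x) h1
    exact ((Th : Sp m ≃L[ℝ] E m).hasFDerivAt).comp (Th x) h3
  obtain ⟨e, he, hpe⟩ := zoom_pres hf hmem hA'
  have he' : ∀ u : Sp m, e (Th u) = Th (A u) := fun u => by
    have h1 := congrArg (fun L : E m →L[ℝ] E m => L (Th u)) he
    have h2 : e (Th u) = Th (A ((Th : Sp m ≃L[ℝ] E m).symm (Th u))) := h1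
    rw [h2, ContinuousLinearEquiv.symm_apply_apply]
  rcases lin_pm hpe with hl | hl
  · refine Or.inl fun u v => ?_
    rw [← om_Th, ← om_Th u v, ← he', ← he', hl, one_mul]
  · refine Or.inr fun u v => ?_
    rw [← om_Th, ← om_Th u v, ← he', ← he', hl]
    ring

theorem dif_stab {n : ℕ} [NeZero n] {c : Capacity (n + 1)} {φ : Sp n ≃ₜ Sp n}
    (hφ : LocallyPreserves c (stab φ)) {x : Sp n} {A : Sp n →L[ℝ] Sp n} (hA : HasFDerivAt φ A x) :
    PM A := by
  set y : Sp (n + 1) := snocL n (x, 0) with hy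
  have hyi : initL n y = x := by
    funext j
    exact snocL_castSucc (x, 0) j
  have h1 : HasFDerivAt (fun w : Sp (n + 1) => φ (initL n w)) (A.comp (initL n)) y := by
    have h0 : HasFDerivAt φ A (initL n y) := by rw [hyi]; exact hA
    exact h0.comp y (initL n).hasFDerivAt
  have h2 : HasFDerivAt (fun w : Sp (n + 1) => w (Fin.last n))
      (ContinuousLinearMap.proj (R := ℝ) (φ := fun _ : Fin (n + 1) => ℝ × ℝ) (Fin.last n)) y :=
    (ContinuousLinearMap.proj (R := ℝ) (φ := fun _ : Fin (n + 1) => ℝ × ℝ)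
      (Fin.last n)).hasFDerivAt
  have h3 : HasFDerivAt (fun w : Sp (n + 1) => snocL n (φ (initL n w), w (Fin.last n)))
      ((snocL n).comp ((A.comp (initL n)).prod
        (ContinuousLinearMap.proj (R := ℝ) (φ := fun _ : Fin (n + 1) => ℝ × ℝ) (Fin.last n)))) y :=
    (snocL n).hasFDerivAt.comp y (h1.prodMk h2)
  have h4 : (fun w : Sp (n + 1) => snocL n (φ (initL n w), w (Fin.last n))) = stab φ := by
    funext w
    refine ext_last ?_ ?_
    · rw [initL_stab]
      funext j
      exact snocL_castSucc (φ (initL n w), w (Fin.last n)) j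
    · rw [stab_last]
      exact snocL_last (φ (initL n w), w (Fin.last n))
  rw [h4] at h3
  have hD : ∀ a : Sp n × (ℝ × ℝ), ((snocL n).comp ((A.comp (initL n)).prod
      (ContinuousLinearMap.proj (R := ℝ) (φ := fun _ : Fin (n + 1) => ℝ × ℝ) (Fin.last n))))
      (snocL n a) = snocL n (A a.1, a.2) := fun a => by
    have hi : initL n (snocL n a) = a.1 := by
      funext j
      exact snocL_castSucc a j
    show snocL n (A (initL n (snocL n a)), snocL n a (Fin.last n)) = _
    rw [hi, snocL_last]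
  have key : ∀ s : ℝ, Mul s ((snocL n).comp ((A.comp (initL n)).prod
      (ContinuousLinearMap.proj (R := ℝ) (φ := fun _ : Fin (n + 1) => ℝ × ℝ) (Fin.last n)))) →
      Mul 1 A := fun s hs => by
    have hs1 : s = 1 := by
      have h5 := hs (snocL n (0, (1, 0))) (snocL n (0, (0, 1)))
      rw [hD, hD, omega_snocL, omega_snocL] at h5
      simp only [map_zero] at h5
      have h6 : omega (0 : Sp n) 0 = 0 := by simp [omega]
      rw [h6] at h5
      linarith
    intro u v
    have h5 := hs (snocL n (u, 0)) (snocL n (v, 0))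
    rw [hD, hD, omega_snocL, omega_snocL, hs1] at h5
    simpa using h5
  rcases dif_loc hφ h3 with h | h
  · exact Or.inl (key _ h)
  · exact Or.inl (key _ h)

theorem dif {O : (m : ℕ) → Set (Sp m ≃ₜ Sp m)} {c : CapacityChoice} {n : ℕ} [NeZero n]
    {φ : Sp n ≃ₜ Sp n} (hφ : IsCSymplectic O c φ) {x : Sp n} {A : Sp n →L[ℝ] Sp n}
    (hA : HasFDerivAt φ A x) : PM A := by
  rcases Nat.even_or_odd n with h | h
  · exact dif_stab (hφ.2 h).2 hA
  · exact dif_loc (hφ.1 h).2 hA

end Pool.Agent.H36.TD
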