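import Pool.Agent.H36.TD.Defs

set_option autoImplicit false

/-!
# Module TriA: integration by parts for three functions, `g` of class `C²` (130 lines)

Write `χ_a = dχ(a)` and so on. For two vectors `a, b` let `P a b = f (χ_a g_b - χ_b g_a)`, a `C¹` function with compact support
(`fderiv ℝ χ x a` is `C¹` in `x` because `χ` is `C²`; `ContDiff.fderiv_right`, `ContDiff.clm_apply`). The derivative `∂_c` of `P a b` in the direction
`c` is `f_c (χ_a g_b - χ_b g_a) + f (χ_ac g_b + χ_a g_bc - χ_bc g_a - χ_b g_ac)` (second derivatives: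
`fderiv ℝ (fun x => fderiv ℝ χ x a) x c = fderiv ℝ (fderiv ℝ χ) x c a`). The sum over the cyclic permutations of `a, b, c` of the second part is `0` by the
symmetry of the second derivatives (`ContDiffAt.isSymmSndFDerivAt`, `minSmoothness`, or `second_derivative_symmetric`), and of the first part it is
`- tri (dχ) (df) (dg) a b c`. For a `C¹` function `P` with compact support and a linear form `ℓ`
`∫ ℓ ∂_v P = - ℓ(v) ∫ P` (`integral_mul_fderiv_eq_neg_fderiv_mul_of_integrable`; everything is continuous with compact support; `ibp_lin`). So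
`∫ P a b = - ∫ ℓ ∂_c (P a b) = ∫ ℓ (tri + ∂_a (P b c) + ∂_b (P c a)) = ∫ ℓ tri`, as `ℓ a = ℓ b = 0`.
-/

namespace Pool.Agent.H36.TD

open MeasureTheory

variable {X : Type} [NormedAddCommGroup X] [NormedSpace ℝ X] [FiniteDimensional ℝ X]
  [MeasurableSpace X] [BorelSpace X] (μ : Measure X) [μ.IsAddHaarMeasure]

omit [FiniteDimensional ℝ X] [MeasurableSpace X] [BorelSpace X] in
private theorem TriA_c1 {u : X → ℝ} (hu : ContDiff ℝ 2 u) (a : X) :
    ContDiff ℝ 1 (fun x => fderiv ℝ u x a) :=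
  (hu.fderiv_right (m := 1) (by norm_num)).clm_apply contDiff_const

omit [FiniteDimensional ℝ X] [MeasurableSpace X] [BorelSpace X] in
private theorem TriA_sym {u : X → ℝ} (hu : ContDiff ℝ 2 u) (a c x : X) :
    fderiv ℝ (fun y => fderiv ℝ u y a) x c = fderiv ℝ (fun y => fderiv ℝ u y c) x a := by
  have hd : DifferentiableAt ℝ (fderiv ℝ u) x :=
    ((hu.fderiv_right (m := 1) (by norm_num)).differentiable (by norm_num)) x
  have key : ∀ v w : X, fderiv ℝ (fun y => fderiv ℝ u y v) x w = fderiv ℝ (fderiv ℝ u) x w v := by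
    intro v w
    have h1 := (hd.hasFDerivAt.clm_apply (hasFDerivAt_const v x)).fderiv
    rw [h1]
    simp
  rw [key a c, key c a]
  have hs : IsSymmSndFDerivAt ℝ u x := by
    refine (hu.contDiffAt).isSymmSndFDerivAt ?_
    simp [minSmoothness_of_isRCLikeNormedField]
  exact hs.eq c a

private noncomputable def TriA_P (f g χ : X → ℝ) (a b : X) (x : X) : ℝ :=
  f x * (fderiv ℝ χ x a * fderiv ℝ g x b - fderiv ℝ χ x b * fderiv ℝ g x a)

omit [FiniteDimensional ℝ X] [MeasurableSpace X] [BorelSpace X] in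
private theorem TriA_Pc1 {f g χ : X → ℝ} (hf : ContDiff ℝ 1 f) (hg : ContDiff ℝ 2 g)
    (hχ : ContDiff ℝ 2 χ) (a b : X) : ContDiff ℝ 1 (TriA_P f g χ a b) :=
  hf.mul (((TriA_c1 hχ a).mul (TriA_c1 hg b)).sub ((TriA_c1 hχ b).mul (TriA_c1 hg a)))

omit [FiniteDimensional ℝ X] [MeasurableSpace X] [BorelSpace X] in
private theorem TriA_Pcs {f g χ : X → ℝ} (hc : HasCompactSupport χ) (a b : X) :
    HasCompactSupport (TriA_P f g χ a b) := by
  have h1 : ∀ v : X, HasCompactSupport (fun x => fderiv ℝ χ x v) := fun v =>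
    hc.fderiv_apply (𝕜 := ℝ) v
  unfold TriA_P
  refine HasCompactSupport.mul_left ?_
  exact ((h1 a).mul_right).sub ((h1 b).mul_right)

omit [FiniteDimensional ℝ X] [MeasurableSpace X] [BorelSpace X] in
private theorem TriA_Pd {f g χ : X → ℝ} (hf : ContDiff ℝ 1 f) (hg : ContDiff ℝ 2 g)
    (hχ : ContDiff ℝ 2 χ) (a b c x : X) : fderiv ℝ (TriA_P f g χ a b) x c =
      fderiv ℝ f x c * (fderiv ℝ χ x a * fderiv ℝ g x b - fderiv ℝ χ x b * fderiv ℝ g x a) +
      f x * (fderiv ℝ (fun y => fderiv ℝ χ y a) x c * fderiv ℝ g x b +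
        fderiv ℝ χ x a * fderiv ℝ (fun y => fderiv ℝ g y b) x c -
        (fderiv ℝ (fun y => fderiv ℝ χ y b) x c * fderiv ℝ g x a +
        fderiv ℝ χ x b * fderiv ℝ (fun y => fderiv ℝ g y a) x c)) := by
  have hfd : HasFDerivAt f (fderiv ℝ f x) x := (hf.differentiable (by norm_num) x).hasFDerivAt
  have h2 : ∀ {u : X → ℝ}, ContDiff ℝ 2 u → ∀ v : X, HasFDerivAt (fun y => fderiv ℝ u y v)
      (fderiv ℝ (fun y => fderiv ℝ u y v) x) x := fun hu v =>
    ((TriA_c1 hu v).differentiable (by norm_num) x).hasFDerivAt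
  have h3 := hfd.mul ((((h2 hχ a).mul (h2 hg b)).sub ((h2 hχ b).mul (h2 hg a))))
  have h4 : fderiv ℝ (TriA_P f g χ a b) x = _ := h3.fderiv
  rw [h4]
  simp only [add_apply, smul_apply,
    sub_apply, smul_eq_mul, Pi.mul_apply, Pi.sub_apply]
  ring

theorem ibp_lin {P : X → ℝ} (hP : ContDiff ℝ 1 P) (hc : HasCompactSupport P) (ℓ : X →L[ℝ] ℝ) (v : X) :
    ∫ x, ℓ x * fderiv ℝ P x v ∂μ = -(ℓ v * ∫ x, P x ∂μ) := by
  have hℓ : Continuous ℓ := ℓ.continuous
  have hdP : Continuous (fun x => fderiv ℝ P x v) :=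
    (hP.continuous_fderiv (by norm_num)).clm_apply continuous_const
  have hfd : ∀ x, fderiv ℝ (fun x => ℓ x) x = ℓ := fun x => ℓ.fderiv
  have h1 := integral_mul_fderiv_eq_neg_fderiv_mul_of_integrable (μ := μ) (f := fun x => ℓ x)
    (g := P) (v := v) ?_ ?_ ?_ (fun x _ => ℓ.differentiableAt)
    (fun x _ => hP.differentiable (by norm_num) x)
  · rw [h1]
    congr 1
    rw [← integral_const_mul]
    refine integral_congr_ae (Filter.Eventually.of_forall fun x => ?_)
    simp only [hfd]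
  · simp only [hfd]
    exact (continuous_const.mul hP.continuous).integrable_of_hasCompactSupport hc.mul_left
  · exact (hℓ.mul hdP).integrable_of_hasCompactSupport
      (HasCompactSupport.mul_left (hc.fderiv_apply (𝕜 := ℝ) v))
  · exact (hℓ.mul hP.continuous).integrable_of_hasCompactSupport hc.mul_left

theorem tri_two {f g χ : X → ℝ} (hf : ContDiff ℝ 1 f) (hg : ContDiff ℝ 2 g) (hχ : ContDiff ℝ 2 χ)
    (hc : HasCompactSupport χ) (a b c : X) (ℓ : X →L[ℝ] ℝ) (h1 : ℓ a = 0) (h2 : ℓ b = 0)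
    (h3 : ℓ c = 1) :
    ∫ x, f x * (fderiv ℝ χ x a * fderiv ℝ g x b - fderiv ℝ χ x b * fderiv ℝ g x a) ∂μ =
      ∫ x, ℓ x * tri (fderiv ℝ χ x) (fderiv ℝ f x) (fderiv ℝ g x) a b c ∂μ := by
  have hint : ∀ u v w : X, Integrable (fun x => ℓ x * fderiv ℝ (TriA_P f g χ u v) x w) μ := by
    intro u v w
    have h4 : Continuous (fun x => fderiv ℝ (TriA_P f g χ u v) x w) :=
      ((TriA_Pc1 hf hg hχ u v).continuous_fderiv (by norm_num)).clm_apply continuous_const
    exact (ℓ.continuous.mul h4).integrable_of_hasCompactSupport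
      (HasCompactSupport.mul_left ((TriA_Pcs hc u v).fderiv_apply (𝕜 := ℝ) w))
  have e1 := ibp_lin μ (TriA_Pc1 hf hg hχ a b) (TriA_Pcs hc a b) ℓ c
  have e2 := ibp_lin μ (TriA_Pc1 hf hg hχ b c) (TriA_Pcs hc b c) ℓ a
  have e3 := ibp_lin μ (TriA_Pc1 hf hg hχ c a) (TriA_Pcs hc c a) ℓ b
  rw [h3, one_mul] at e1
  rw [h1, zero_mul, neg_zero] at e2
  rw [h2, zero_mul, neg_zero] at e3
  have hpt : ∀ x, ℓ x * tri (fderiv ℝ χ x) (fderiv ℝ f x) (fderiv ℝ g x) a b c =
      -(ℓ x * fderiv ℝ (TriA_P f g χ a b) x c) -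
        ℓ x * fderiv ℝ (TriA_P f g χ b c) x a - ℓ x * fderiv ℝ (TriA_P f g χ c a) x b := by
    intro x
    rw [TriA_Pd hf hg hχ a b c x, TriA_Pd hf hg hχ b c a x, TriA_Pd hf hg hχ c a b x,
      TriA_sym hχ b a x, TriA_sym hg b a x, TriA_sym hχ c a x, TriA_sym hg c a x,
      TriA_sym hχ c b x, TriA_sym hg c b x]
    unfold tri
    ring
  have hI : ∫ x, ℓ x * tri (fderiv ℝ χ x) (fderiv ℝ f x) (fderiv ℝ g x) a b c ∂μ =
      -(∫ x, ℓ x * fderiv ℝ (TriA_P f g χ a b) x c ∂μ) -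
        (∫ x, ℓ x * fderiv ℝ (TriA_P f g χ b c) x a ∂μ) -
        ∫ x, ℓ x * fderiv ℝ (TriA_P f g χ c a) x b ∂μ := by
    have i1 : Integrable (fun x => -(ℓ x * fderiv ℝ (TriA_P f g χ a b) x c)) μ :=
      (hint a b c).neg
    have i2 : Integrable (fun x => -(ℓ x * fderiv ℝ (TriA_P f g χ a b) x c) -
        ℓ x * fderiv ℝ (TriA_P f g χ b c) x a) μ := i1.sub (hint b c a)
    rw [integral_congr_ae (Filter.Eventually.of_forall hpt), integral_sub i2 (hint c a b),
      integral_sub i1 (hint b c a), integral_neg]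
  rw [hI, e1, e2, e3, neg_neg, sub_zero, sub_zero]
  rfl

end Pool.Agent.H36.TD
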