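import Pool.Agent.H36.TD.Alg
import Pool.Agent.H36.TD.TriA

set_option autoImplicit false

/-!
# Module Ibp: the divergence of `Y` is `n` (50 lines)

`Yx y = ∑ j, (y j).1 • ex j`, so `fderiv θ y (Yx y) = ∑ j, (y j).1 * fderiv θ y (ex j)`. For every `j` apply `ibp_lin` to the continuous linear form
`ℓ = (y ↦ (y j).1)` and `v = ex j` (`ℓ v = 1`); all functions are continuous with compact support, so integrable, and `integral_finset_sum`.
(`volume` on `Sp n = Fin n → ℝ × ℝ` is an additive Haar measure: instance.)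
-/

namespace Pool.Agent.H36.TD

open Pool.Agent.H72.Symp MeasureTheory

variable {n : ℕ}

/-- the coordinate `x_j` -/
private def IbpL (j : Fin n) : Sp n →L[ℝ] ℝ :=
  (ContinuousLinearMap.fst ℝ ℝ ℝ).comp (ContinuousLinearMap.proj j)

private lemma Ibp_Yx (y : Sp n) : Yx y = ∑ j, (y j).1 • ex j := by
  funext i
  rw [Finset.sum_apply, Finset.sum_eq_single i]
  · simp [Yx, ex]
  · intro j _ hj
    simp [ex, Pi.single_eq_of_ne (Ne.symm hj)]
  · intro h
    exact absurd (Finset.mem_univ i) h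

theorem ibp_Y {θ : Sp n → ℝ} (hθ : ContDiff ℝ 1 θ) (hc : HasCompactSupport θ) :
    ∫ y, fderiv ℝ θ y (Yx y) = -(n * ∫ y, θ y) := by
  have h1 : ∀ y : Sp n, fderiv ℝ θ y (Yx y) = ∑ j, IbpL j y * fderiv ℝ θ y (ex j) := by
    intro y
    rw [Ibp_Yx, map_sum]
    refine Finset.sum_congr rfl fun j _ => ?_
    rw [map_smul, smul_eq_mul]
    rfl
  have h2 : ∀ j : Fin n, Integrable (fun y : Sp n => IbpL j y * fderiv ℝ θ y (ex j)) := by
    intro j
    have hcont : Continuous (fun y : Sp n => fderiv ℝ θ y (ex j)) :=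
      (hθ.continuous_fderiv (by norm_num)).clm_apply continuous_const
    have hcs : HasCompactSupport (fun y : Sp n => fderiv ℝ θ y (ex j)) := hc.fderiv_apply ℝ (ex j)
    exact ((IbpL j).continuous.mul hcont).integrable_of_hasCompactSupport (hcs.mul_left)
  have h3 : ∀ j : Fin n, ∫ y : Sp n, IbpL j y * fderiv ℝ θ y (ex j) = -∫ y, θ y := by
    intro j
    have h := ibp_lin (volume : Measure (Sp n)) hθ hc (IbpL j) (ex j)
    have h4 : IbpL j (ex j) = 1 := by simp [IbpL, ex]
    rw [h, h4, one_mul]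
  calc ∫ y, fderiv ℝ θ y (Yx y) = ∫ y : Sp n, ∑ j, IbpL j y * fderiv ℝ θ y (ex j) :=
        integral_congr_ae (Filter.Eventually.of_forall h1)
    _ = ∑ j, ∫ y : Sp n, IbpL j y * fderiv ℝ θ y (ex j) :=
        integral_finsetSum _ fun j _ => h2 j
    _ = -(n * ∫ y, θ y) := by
        rw [Finset.sum_congr rfl fun j _ => h3 j, Finset.sum_const, Finset.card_univ,
          Fintype.card_fin, nsmul_eq_mul]
        ring

end Pool.Agent.H36.TD
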