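import Pool.Agent.H36.TD.Vol

set_option autoImplicit false

/-!
# Module Inv: the function `θ = χ ∘ φ⁻¹` (110 lines)

Let `S = tsupport (fderiv ℝ χ) ⊆ N`. `contDiff`: it suffices to show `ContDiffAt ℝ 1 θ y` for every `y = φ x`. If `x ∈ N`: `φ` is `C¹` at `x` with the
invertible derivative of `pm_equiv`, so `φ.symm` is `C¹` at `φ x` (`OpenPartialHomeomorph.contDiffAt_symm` for
`φ.toOpenPartialHomeomorph`), and `θ = χ ∘ φ.symm`. If `x ∉ S`: there is a ball around `x` disjoint from the closed set `S`; there `fderiv ℝ χ` vanishes,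
so `χ` is constant on the ball (`Convex.is_const_of_fderivWithin_eq_zero` or `IsOpen.is_const_of_fderiv_eq_zero`), so `θ` is constant on the open set
`φ '' ball`, a neighbourhood of `φ x`; this gives also the last claim. `fderiv`: for `x ∈ N`, `χ = θ ∘ φ` everywhere, chain rule at `x`
(`fderiv_comp`): `fderiv χ x = (fderiv θ (φ x)) ∘ (fderiv φ x)`. Compact support: `HasCompactSupport.comp_homeomorph`.
-/

namespace Pool.Agent.H36.TD

open Pool.Agent.H72.Symp

variable {n : ℕ}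

private theorem Inv_const {χ : Sp n → ℝ} (hχ : ContDiff ℝ 1 χ) {x : Sp n}
    (hx : x ∉ tsupport (fderiv ℝ χ)) :
    ∃ U : Set (Sp n), IsOpen U ∧ x ∈ U ∧ ∀ z ∈ U, χ z = χ x := by
  have ho : IsOpen (tsupport (fderiv ℝ χ))ᶜ := (isClosed_tsupport _).isOpen_compl
  obtain ⟨r, hr, hb⟩ := Metric.isOpen_iff.1 ho x hx
  refine ⟨Metric.ball x r, Metric.isOpen_ball, Metric.mem_ball_self hr, ?_⟩
  intro z hz
  have hdiff : DifferentiableOn ℝ χ (Metric.ball x r) :=
    (hχ.differentiable (by norm_num)).differentiableOn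
  have h0 : ∀ y ∈ Metric.ball x r, fderivWithin ℝ χ (Metric.ball x r) y = 0 := by
    intro y hy
    rw [fderivWithin_of_isOpen Metric.isOpen_ball hy]
    exact image_eq_zero_of_notMem_tsupport (hb hy)
  exact (convex_ball x r).is_const_of_fderivWithin_eq_zero hdiff h0 hz (Metric.mem_ball_self hr)

private theorem Inv_out {φ : Sp n ≃ₜ Sp n} {χ : Sp n → ℝ} (hχ : ContDiff ℝ 1 χ) {x : Sp n}
    (hx : x ∉ tsupport (fderiv ℝ χ)) :
    (fun y => χ (φ.symm y)) =ᶠ[nhds (φ x)] fun _ => χ x := by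
  obtain ⟨U, hU, hxU, hc⟩ := Inv_const hχ hx
  have hV : IsOpen (φ.symm ⁻¹' U) := hU.preimage φ.symm.continuous
  have hm : φ x ∈ φ.symm ⁻¹' U := by simpa using hxU
  filter_upwards [hV.mem_nhds hm] with y hy
  exact hc _ hy

private theorem Inv_in {φ : Sp n ≃ₜ Sp n} {N : Set (Sp n)} (hN : IsOpen N) (hd : ContDiffOn ℝ 1 φ N)
    (hs : ∀ x ∈ N, PM (fderiv ℝ φ x)) {x : Sp n} (hx : x ∈ N) :
    ContDiffAt ℝ 1 φ.symm (φ x) := by
  obtain ⟨e, he⟩ := pm_equiv (hs x hx)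
  have h1 : ContDiffAt ℝ 1 φ x := hd.contDiffAt (hN.mem_nhds hx)
  have h2 : HasFDerivAt φ (e : Sp n →L[ℝ] Sp n) x := by
    rw [he]
    exact (h1.differentiableAt (by norm_num)).hasFDerivAt
  have h3 := φ.toOpenPartialHomeomorph.contDiffAt_symm (n := 1) (a := φ x) (f₀' := e)
    (by simp) (by simpa using h2) (by simpa using h1)
  simpa using h3

theorem theta {φ : Sp n ≃ₜ Sp n} {N : Set (Sp n)} (hN : IsOpen N) (hd : ContDiffOn ℝ 1 φ N)
    (hs : ∀ x ∈ N, PM (fderiv ℝ φ x)) {χ : Sp n → ℝ} (hχ : ContDiff ℝ 1 χ) (hc : HasCompactSupport χ)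
    (hS : tsupport (fderiv ℝ χ) ⊆ N) :
    ContDiff ℝ 1 (fun y => χ (φ.symm y)) ∧ HasCompactSupport (fun y => χ (φ.symm y)) ∧
      (∀ x ∈ N, ∀ w, fderiv ℝ (fun y => χ (φ.symm y)) (φ x) (fderiv ℝ φ x w) = fderiv ℝ χ x w) ∧
      ∀ x, x ∉ tsupport (fderiv ℝ χ) → fderiv ℝ (fun y => χ (φ.symm y)) (φ x) = 0 := by
  have hCD : ContDiff ℝ 1 (fun y => χ (φ.symm y)) := by
    rw [contDiff_iff_contDiffAt]
    intro y
    obtain ⟨x, rfl⟩ := φ.surjective y
    by_cases hx : x ∈ N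
    · exact hχ.contDiffAt.comp (φ x) (Inv_in hN hd hs hx)
    · exact (contDiffAt_const (c := χ x)).congr_of_eventuallyEq (Inv_out hχ (fun h => hx (hS h)))
  refine ⟨hCD, hc.comp_homeomorph φ.symm, ?_, ?_⟩
  · intro x hx w
    have h1 : DifferentiableAt ℝ φ x :=
      (hd.contDiffAt (hN.mem_nhds hx)).differentiableAt (by norm_num)
    have h2 : DifferentiableAt ℝ (fun y => χ (φ.symm y)) (φ x) :=
      (hCD.differentiable (by norm_num)) (φ x)
    have h3 : HasFDerivAt ((fun y => χ (φ.symm y)) ∘ φ)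
        ((fderiv ℝ (fun y => χ (φ.symm y)) (φ x)).comp (fderiv ℝ φ x)) x :=
      h2.hasFDerivAt.comp x h1.hasFDerivAt
    have h4 : ((fun y => χ (φ.symm y)) ∘ φ) = χ := by
      funext z
      simp
    rw [h4] at h3
    rw [h3.fderiv]
    rfl
  · intro x hx
    rw [(Inv_out (φ := φ) hχ hx).fderiv_eq]
    simp

end Pool.Agent.H36.TD
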