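import Pool.Agent.H36.TD.Defs

set_option autoImplicit false

/-!
# Module Mol: approximation in `C¹` (80 lines)

Let `ρ` be a `ContDiffBump (0 : X)` with outer radius `δ` and `h = ρ.normed μ ⋆ g` (`ContDiffBump.convolution ..`,
`HasCompactSupport.contDiff_convolution_left`; `g` is continuous with compact support, hence locally integrable). The derivative of `h`
is the convolution with the derivative of `g` (`HasCompactSupport.hasFDerivAt_convolution_right`, as `g` is `C¹` with compact support), and for a uniformly continuous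
function `G` the distance of `ρ.normed μ ⋆ G` and `G` at `x` is at most the oscillation of `G` on the ball of radius `δ` around `x`
(`ContDiffBump.dist_normed_convolution_le`). `fderiv ℝ g` is continuous with compact support, so uniformly continuous
(`Continuous.uniformContinuous_of_hasCompactSupport` or `HasCompactSupport.uniformContinuous_of_continuous`); choose `δ` for `ε`.
-/

namespace Pool.Agent.H36.TD

open MeasureTheory

variable {X : Type} [NormedAddCommGroup X] [NormedSpace ℝ X] [FiniteDimensional ℝ X]

private theorem Mol_precomp :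
    (ContinuousLinearMap.lsmul ℝ ℝ : ℝ →L[ℝ] ℝ →L[ℝ] ℝ).precompR X =
      (ContinuousLinearMap.lsmul ℝ ℝ : ℝ →L[ℝ] (X →L[ℝ] ℝ) →L[ℝ] (X →L[ℝ] ℝ)) := by
  ext r f
  simp [ContinuousLinearMap.precompR_apply]

theorem exists_mol {g : X → ℝ} (hg : ContDiff ℝ 1 g) (hc : HasCompactSupport g) {ε : ℝ} (hε : 0 < ε) :
    ∃ h : X → ℝ, ContDiff ℝ 2 h ∧ ∀ x, ‖fderiv ℝ h x - fderiv ℝ g x‖ ≤ ε := by
  let _ : MeasurableSpace X := borel X
  have _ : BorelSpace X := ⟨rfl⟩
  let μ : Measure X := MeasureTheory.Measure.addHaar
  have hG : Continuous (fderiv ℝ g) := hg.continuous_fderiv one_ne_zero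
  have hGu : UniformContinuous (fderiv ℝ g) :=
    Continuous.uniformContinuous_of_tendsto_cocompact hG
      ((hc.fderiv (𝕜 := ℝ)).is_zero_at_infty)
  obtain ⟨δ, hδ, hδ'⟩ := Metric.uniformContinuous_iff.mp hGu ε hε
  let φ : ContDiffBump (0 : X) := ⟨δ / 2, δ, by linarith, by linarith⟩
  refine ⟨MeasureTheory.convolution (φ.normed μ) g (ContinuousLinearMap.lsmul ℝ ℝ) μ, ?_, ?_⟩
  · exact φ.hasCompactSupport_normed.contDiff_convolution_left _ (n := 2) φ.contDiff_normed
      (hg.continuous.integrable_of_hasCompactSupport hc).locallyIntegrable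
  · intro x
    have h1 := hc.hasFDerivAt_convolution_right (ContinuousLinearMap.lsmul ℝ ℝ) (μ := μ)
      (f := φ.normed μ) (φ.continuous_normed.integrable_of_hasCompactSupport
        φ.hasCompactSupport_normed).locallyIntegrable hg x
    rw [h1.fderiv, Mol_precomp, ← dist_eq_norm]
    refine ContDiffBump.dist_normed_convolution_le hG.aestronglyMeasurable ?_
    intro y hy
    exact (hδ' hy).le

end Pool.Agent.H36.TD
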