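import Pool.Agent.H36.TD.TriA
import Pool.Agent.H36.TD.Mol

set_option autoImplicit false

/-!
# Module TriB: integration by parts for three functions of class `C¹` near the support of `dχ` (150 lines)

`tri_one`: both sides are limits of the sides for `h` from `exists_mol` (`ε → 0`): the difference of the left sides is at most
`ε * ∫ |f| (|χ_a| ‖b‖ + |χ_b| ‖a‖)`, the difference of the right sides at most `ε` times the integral of a fixed continuous function with compact support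
(`|tri p q r a b c - tri p q r' a b c| ≤ ‖r - r'‖ * ‖p‖ * ‖q‖ * 6 * ‖a‖ * ‖b‖ * ‖c‖`). So `|LHS - RHS| ≤ C ε` for all `ε > 0`.

`tri_loc`: `S = tsupport (fderiv ℝ χ)` is compact (`HasCompactSupport.fderiv`) and contained in the open set `N`. There is a smooth `κ` with compact support
in `N` which is `1` near `S` (`exists_contMDiff_one_nhds_of_subset_interior`-like, or `exists_contDiff_tsupport_subset` and a finite cover; module Cut has such a
function too). The functions `κ f`, `κ g` (zero outside `N`) are `C¹` on `X` with compact support, and on the open set `{κ = 1}`-interior, which contains `S`, they and their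
derivatives coincide with `f`, `g`. Off `S` all integrands vanish because `fderiv ℝ χ x = 0`. So `tri_one` for `κ f`, `κ g` is the claim. Integrability: the integrands are
equal to continuous functions with compact support (those of `κ f`, `κ g`).
-/

namespace Pool.Agent.H36.TD

open MeasureTheory

variable {X : Type} [NormedAddCommGroup X] [NormedSpace ℝ X] [FiniteDimensional ℝ X]
  [MeasurableSpace X] [BorelSpace X] (μ : Measure X) [μ.IsAddHaarMeasure]

omit [FiniteDimensional ℝ X] [MeasurableSpace X] [BorelSpace X] in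
private lemma TriB_supp {χ : X → ℝ} (hc : HasCompactSupport χ) {F : X → ℝ}
    (h : ∀ x, fderiv ℝ χ x = 0 → F x = 0) : HasCompactSupport F :=
  (hc.fderiv ℝ).mono (fun x hx h0 => hx (h x h0))

omit [FiniteDimensional ℝ X] [MeasurableSpace X] [BorelSpace X] in
private lemma TriB_cont {f : X → ℝ} (hf : ContDiff ℝ 1 f) (v : X) :
    Continuous fun x => fderiv ℝ f x v :=
  (hf.continuous_fderiv one_ne_zero).clm_apply continuous_const

omit [FiniteDimensional ℝ X] in
private lemma TriB_int {χ : X → ℝ} (hc : HasCompactSupport χ) {F : X → ℝ} (hF : Continuous F)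
    (h : ∀ x, fderiv ℝ χ x = 0 → F x = 0) : Integrable F μ :=
  hF.integrable_of_hasCompactSupport (TriB_supp hc h)

omit [FiniteDimensional ℝ X] in
private lemma TriB_left {f g χ : X → ℝ} (hf : ContDiff ℝ 1 f) (hg : ContDiff ℝ 1 g)
    (hχ : ContDiff ℝ 1 χ) (hc : HasCompactSupport χ) (a b : X) :
    Integrable (fun x => f x * (fderiv ℝ χ x a * fderiv ℝ g x b -
      fderiv ℝ χ x b * fderiv ℝ g x a)) μ := by
  refine TriB_int μ hc ?_ ?_
  · exact hf.continuous.mul (((TriB_cont hχ a).mul (TriB_cont hg b)).sub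
      ((TriB_cont hχ b).mul (TriB_cont hg a)))
  · intro x hx
    simp [hx]

omit [FiniteDimensional ℝ X] in
private lemma TriB_right {f g χ : X → ℝ} (hf : ContDiff ℝ 1 f) (hg : ContDiff ℝ 1 g)
    (hχ : ContDiff ℝ 1 χ) (hc : HasCompactSupport χ) (a b c : X) (ℓ : X →L[ℝ] ℝ) :
    Integrable (fun x => ℓ x * tri (fderiv ℝ χ x) (fderiv ℝ f x) (fderiv ℝ g x) a b c) μ := by
  refine TriB_int μ hc ?_ ?_
  · have ca := TriB_cont hχ a
    have cb := TriB_cont hχ b
    have cc := TriB_cont hχ c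
    have fa := TriB_cont hf a
    have fb := TriB_cont hf b
    have fc := TriB_cont hf c
    have ga := TriB_cont hg a
    have gb := TriB_cont hg b
    have gc := TriB_cont hg c
    unfold tri
    exact ℓ.continuous.mul (((ca.mul ((fb.mul gc).sub (fc.mul gb))).add
      (cb.mul ((fc.mul ga).sub (fa.mul gc)))).add (cc.mul ((fa.mul gb).sub (fb.mul ga))))
  · intro x hx
    simp [hx, tri]

omit [FiniteDimensional ℝ X] [BorelSpace X] [NormedAddCommGroup X] [NormedSpace ℝ X] [μ.IsAddHaarMeasure] in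
private lemma TriB_diff {F G H : X → ℝ} (hF : Integrable F μ) (hG : Integrable G μ)
    (hH : Integrable H μ) {ε : ℝ} (h : ∀ x, |F x - G x| ≤ ε * H x) :
    |∫ x, F x ∂μ - ∫ x, G x ∂μ| ≤ ε * ∫ x, H x ∂μ := by
  rw [← integral_sub hF hG, ← integral_const_mul]
  refine (abs_integral_le_integral_abs).trans ?_
  exact integral_mono (hF.sub hG).abs (hH.const_mul ε) h

omit [FiniteDimensional ℝ X] [MeasurableSpace X] [BorelSpace X] in
private lemma TriB_app {r r' : X →L[ℝ] ℝ} {ε : ℝ} (h : ‖r' - r‖ ≤ ε) (v : X) :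
    |r' v - r v| ≤ ε * ‖v‖ := by
  have h1 := (r' - r).le_opNorm v
  rw [Real.norm_eq_abs, sub_apply] at h1
  exact h1.trans (mul_le_mul_of_nonneg_right h (norm_nonneg v))

theorem tri_one {f g χ : X → ℝ} (hf : ContDiff ℝ 1 f) (hg : ContDiff ℝ 1 g)
    (hgc : HasCompactSupport g) (hχ : ContDiff ℝ 2 χ) (hc : HasCompactSupport χ) (a b c : X)
    (ℓ : X →L[ℝ] ℝ) (h1 : ℓ a = 0) (h2 : ℓ b = 0) (h3 : ℓ c = 1) :
    ∫ x, f x * (fderiv ℝ χ x a * fderiv ℝ g x b - fderiv ℝ χ x b * fderiv ℝ g x a) ∂μ =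
      ∫ x, ℓ x * tri (fderiv ℝ χ x) (fderiv ℝ f x) (fderiv ℝ g x) a b c ∂μ := by
  have hχ1 : ContDiff ℝ 1 χ := hχ.of_le (by norm_num)
  have ca := TriB_cont hχ1 a
  have cb := TriB_cont hχ1 b
  have cc := TriB_cont hχ1 c
  have fa := TriB_cont hf a
  have fb := TriB_cont hf b
  have fc := TriB_cont hf c
  set H1 : X → ℝ := fun x => |f x| * (|fderiv ℝ χ x a| * ‖b‖ + |fderiv ℝ χ x b| * ‖a‖) with hH1
  set H2 : X → ℝ := fun x => |ℓ x| * (|fderiv ℝ χ x a| * (|fderiv ℝ f x b| * ‖c‖ +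
      |fderiv ℝ f x c| * ‖b‖) + |fderiv ℝ χ x b| * (|fderiv ℝ f x c| * ‖a‖ +
      |fderiv ℝ f x a| * ‖c‖) + |fderiv ℝ χ x c| * (|fderiv ℝ f x a| * ‖b‖ +
      |fderiv ℝ f x b| * ‖a‖)) with hH2
  have i1 : Integrable H1 μ := by
    refine TriB_int μ hc ?_ ?_
    · exact hf.continuous.abs.mul ((ca.abs.mul continuous_const).add
        (cb.abs.mul continuous_const))
    · intro x hx
      simp [hH1, hx]
  have i2 : Integrable H2 μ := by
    refine TriB_int μ hc ?_ ?_
    · exact ℓ.continuous.abs.mul (((ca.abs.mul ((fb.abs.mul continuous_const).add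
        (fc.abs.mul continuous_const))).add (cb.abs.mul ((fc.abs.mul continuous_const).add
        (fa.abs.mul continuous_const)))).add (cc.abs.mul ((fa.abs.mul continuous_const).add
        (fb.abs.mul continuous_const))))
    · intro x hx
      simp [hH2, hx]
  set L : ℝ := ∫ x, f x * (fderiv ℝ χ x a * fderiv ℝ g x b - fderiv ℝ χ x b * fderiv ℝ g x a) ∂μ
    with hL
  set R : ℝ := ∫ x, ℓ x * tri (fderiv ℝ χ x) (fderiv ℝ f x) (fderiv ℝ g x) a b c ∂μ with hR
  have key : ∀ ε : ℝ, 0 < ε → |L - R| ≤ ε * (∫ x, H1 x ∂μ + ∫ x, H2 x ∂μ) := by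
    intro ε hε
    obtain ⟨h, hh, hd⟩ := exists_mol hg hgc hε
    have hh1 : ContDiff ℝ 1 h := hh.of_le (by norm_num)
    have e1 := tri_two μ hf hh hχ hc a b c ℓ h1 h2 h3
    have d1 := TriB_diff μ (TriB_left μ hf hh1 hχ1 hc a b) (TriB_left μ hf hg hχ1 hc a b) i1
      (ε := ε) (by
        intro x
        have hb := TriB_app (hd x) b
        have ha := TriB_app (hd x) a
        have e : f x * (fderiv ℝ χ x a * fderiv ℝ h x b - fderiv ℝ χ x b * fderiv ℝ h x a) -
            f x * (fderiv ℝ χ x a * fderiv ℝ g x b - fderiv ℝ χ x b * fderiv ℝ g x a) =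
            f x * (fderiv ℝ χ x a * (fderiv ℝ h x b - fderiv ℝ g x b) -
              fderiv ℝ χ x b * (fderiv ℝ h x a - fderiv ℝ g x a)) := by ring
        rw [e, abs_mul]
        have e2 : ε * H1 x = |f x| * (|fderiv ℝ χ x a| * (ε * ‖b‖) +
            |fderiv ℝ χ x b| * (ε * ‖a‖)) := by
          simp only [hH1]
          ring
        rw [e2]
        refine mul_le_mul_of_nonneg_left ((abs_sub _ _).trans ?_) (abs_nonneg _)
        rw [abs_mul, abs_mul]
        gcongr)
    have d2 := TriB_diff μ (TriB_right μ hf hh1 hχ1 hc a b c ℓ)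
      (TriB_right μ hf hg hχ1 hc a b c ℓ) i2
      (ε := ε) (by
        intro x
        have hb := TriB_app (hd x) b
        have ha := TriB_app (hd x) a
        have hc' := TriB_app (hd x) c
        have e : ℓ x * tri (fderiv ℝ χ x) (fderiv ℝ f x) (fderiv ℝ h x) a b c -
            ℓ x * tri (fderiv ℝ χ x) (fderiv ℝ f x) (fderiv ℝ g x) a b c =
            ℓ x * (fderiv ℝ χ x a * (fderiv ℝ f x b * (fderiv ℝ h x c - fderiv ℝ g x c) -
                fderiv ℝ f x c * (fderiv ℝ h x b - fderiv ℝ g x b)) +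
              fderiv ℝ χ x b * (fderiv ℝ f x c * (fderiv ℝ h x a - fderiv ℝ g x a) -
                fderiv ℝ f x a * (fderiv ℝ h x c - fderiv ℝ g x c)) +
              fderiv ℝ χ x c * (fderiv ℝ f x a * (fderiv ℝ h x b - fderiv ℝ g x b) -
                fderiv ℝ f x b * (fderiv ℝ h x a - fderiv ℝ g x a))) := by
          simp only [tri]
          ring
        rw [e, abs_mul]
        have e2 : ε * H2 x = |ℓ x| * (|fderiv ℝ χ x a| * (|fderiv ℝ f x b| * (ε * ‖c‖) +
            |fderiv ℝ f x c| * (ε * ‖b‖)) + |fderiv ℝ χ x b| * (|fderiv ℝ f x c| * (ε * ‖a‖) +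
            |fderiv ℝ f x a| * (ε * ‖c‖)) + |fderiv ℝ χ x c| * (|fderiv ℝ f x a| * (ε * ‖b‖) +
            |fderiv ℝ f x b| * (ε * ‖a‖))) := by
          simp only [hH2]
          ring
        rw [e2]
        refine mul_le_mul_of_nonneg_left ?_ (abs_nonneg _)
        have sub_le : ∀ u v A B u' v' : ℝ, |u'| ≤ A → |v'| ≤ B →
            |u * u' - v * v'| ≤ |u| * A + |v| * B := by
          intro u v A B u' v' h1 h2
          refine (abs_sub _ _).trans ?_
          rw [abs_mul, abs_mul]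
          exact add_le_add (mul_le_mul_of_nonneg_left h1 (abs_nonneg _))
            (mul_le_mul_of_nonneg_left h2 (abs_nonneg _))
        refine (abs_add_three _ _ _).trans ?_
        rw [abs_mul, abs_mul, abs_mul]
        exact add_le_add (add_le_add
          (mul_le_mul_of_nonneg_left (sub_le _ _ _ _ _ _ hc' hb) (abs_nonneg _))
          (mul_le_mul_of_nonneg_left (sub_le _ _ _ _ _ _ ha hc') (abs_nonneg _)))
          (mul_le_mul_of_nonneg_left (sub_le _ _ _ _ _ _ hb ha) (abs_nonneg _)))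
    rw [e1] at d1
    rw [abs_sub_comm] at d1
    have e3 := (abs_sub_le L (∫ x, ℓ x * tri (fderiv ℝ χ x) (fderiv ℝ f x) (fderiv ℝ h x) a b c ∂μ)
      R)
    calc |L - R| ≤ _ := e3
      _ ≤ ε * ∫ x, H1 x ∂μ + ε * ∫ x, H2 x ∂μ := add_le_add d1 d2
      _ = ε * (∫ x, H1 x ∂μ + ∫ x, H2 x ∂μ) := by ring
  set C : ℝ := ∫ x, H1 x ∂μ + ∫ x, H2 x ∂μ with hC
  by_contra hne
  have hpos : 0 < |L - R| := abs_pos.mpr (sub_ne_zero.mpr hne)
  have hC0 : 0 < |C| + 1 := by positivity
  have hk := key (|L - R| / (2 * (|C| + 1))) (by positivity)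
  have h5 : |L - R| / (2 * (|C| + 1)) * C ≤ |L - R| / (2 * (|C| + 1)) * (|C| + 1) :=
    mul_le_mul_of_nonneg_left (by linarith [le_abs_self C]) (by positivity)
  have h6 : |L - R| / (2 * (|C| + 1)) * (|C| + 1) = |L - R| / 2 := by
    field_simp
  linarith

omit [MeasurableSpace X] [BorelSpace X] in
private lemma TriB_cut {K N : Set X} (hK : IsCompact K) (hN : IsOpen N) (hKN : K ⊆ N) :
    ∃ κ : X → ℝ, ContDiff ℝ 1 κ ∧ (∀ x ∈ K, ∀ᶠ y in nhds x, κ y = 1) ∧
      ∃ L : Set X, IsCompact L ∧ L ⊆ N ∧ ∀ x, x ∉ L → κ x = 0 := by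
  obtain ⟨L, hL, hKL, hLN⟩ := exists_compact_between hK hN hKN
  obtain ⟨κ, h0, h1, -⟩ := exists_contMDiffMap_zero_one_nhds_of_isClosed
    (modelWithCornersSelf ℝ X) (n := 1) (s := (interior L)ᶜ) (t := K)
    isOpen_interior.isClosed_compl hK.isClosed
    (Set.disjoint_left.mpr fun x hx hxK => hx (hKL hxK))
  refine ⟨κ, κ.contMDiff.contDiff, ?_, L, hL, hLN, ?_⟩
  · intro x hx
    exact (h1.filter_mono (nhds_le_nhdsSet hx))
  · intro x hx
    have hx2 : x ∈ (interior L)ᶜ := fun h => hx (interior_subset h)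
    exact (h0.filter_mono (nhds_le_nhdsSet hx2)).self_of_nhds

omit [FiniteDimensional ℝ X] [MeasurableSpace X] [BorelSpace X] in
private lemma TriB_mul {N L : Set X} (hN : IsOpen N) (hL : IsCompact L) (hLN : L ⊆ N)
    {κ f : X → ℝ} (hκ : ContDiff ℝ 1 κ) (h0 : ∀ x, x ∉ L → κ x = 0) (hf : ContDiffOn ℝ 1 f N) :
    ContDiff ℝ 1 (fun x => κ x * f x) := by
  rw [contDiff_iff_contDiffAt]
  intro x
  by_cases hx : x ∈ N
  · exact hκ.contDiffAt.mul (hf.contDiffAt (hN.mem_nhds hx))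
  · have hxL : x ∈ Lᶜ := fun h => hx (hLN h)
    have he : (fun x => κ x * f x) =ᶠ[nhds x] fun _ => (0 : ℝ) := by
      filter_upwards [hL.isClosed.isOpen_compl.mem_nhds hxL] with y hy
      rw [h0 y hy, zero_mul]
    exact contDiffAt_const.congr_of_eventuallyEq he

theorem tri_loc {N : Set X} (hN : IsOpen N) {f g χ : X → ℝ} (hf : ContDiffOn ℝ 1 f N)
    (hg : ContDiffOn ℝ 1 g N) (hχ : ContDiff ℝ 2 χ) (hc : HasCompactSupport χ)
    (hS : tsupport (fderiv ℝ χ) ⊆ N) (a b c : X) (ℓ : X →L[ℝ] ℝ) (h1 : ℓ a = 0) (h2 : ℓ b = 0)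
    (h3 : ℓ c = 1) :
    Integrable (fun x => f x * (fderiv ℝ χ x a * fderiv ℝ g x b -
      fderiv ℝ χ x b * fderiv ℝ g x a)) μ ∧
    Integrable (fun x => ℓ x * tri (fderiv ℝ χ x) (fderiv ℝ f x) (fderiv ℝ g x) a b c) μ ∧
    ∫ x, f x * (fderiv ℝ χ x a * fderiv ℝ g x b - fderiv ℝ χ x b * fderiv ℝ g x a) ∂μ =
      ∫ x, ℓ x * tri (fderiv ℝ χ x) (fderiv ℝ f x) (fderiv ℝ g x) a b c ∂μ := by
  have hχ1 : ContDiff ℝ 1 χ := hχ.of_le (by norm_num)
  obtain ⟨κ, hκ, hk1, L, hL, hLN, h0⟩ := TriB_cut (hc.fderiv ℝ).isCompact hN hS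
  have hF := TriB_mul hN hL hLN hκ h0 hf
  have hG := TriB_mul hN hL hLN hκ h0 hg
  have hGc : HasCompactSupport (fun x => κ x * g x) := by
    refine HasCompactSupport.intro hL ?_
    intro x hx
    simp [h0 x hx]
  have heq : ∀ (u : X → ℝ) (x : X), fderiv ℝ χ x ≠ 0 →
      κ x * u x = u x ∧ fderiv ℝ (fun x => κ x * u x) x = fderiv ℝ u x := by
    intro u x hx
    have hxS : x ∈ tsupport (fderiv ℝ χ) := subset_tsupport _ hx
    have he : (fun x => κ x * u x) =ᶠ[nhds x] u := by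
      filter_upwards [hk1 x hxS] with y hy
      rw [hy, one_mul]
    exact ⟨he.self_of_nhds, he.fderiv_eq⟩
  have e1 : (fun x => f x * (fderiv ℝ χ x a * fderiv ℝ g x b -
      fderiv ℝ χ x b * fderiv ℝ g x a)) =
      fun x => (κ x * f x) * (fderiv ℝ χ x a * fderiv ℝ (fun x => κ x * g x) x b -
      fderiv ℝ χ x b * fderiv ℝ (fun x => κ x * g x) x a) := by
    funext x
    by_cases hx : fderiv ℝ χ x = 0
    · simp [hx]
    · rw [(heq f x hx).1, (heq g x hx).2]
  have e2 : (fun x => ℓ x * tri (fderiv ℝ χ x) (fderiv ℝ f x) (fderiv ℝ g x) a b c) =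
      fun x => ℓ x * tri (fderiv ℝ χ x) (fderiv ℝ (fun x => κ x * f x) x)
        (fderiv ℝ (fun x => κ x * g x) x) a b c := by
    funext x
    by_cases hx : fderiv ℝ χ x = 0
    · simp [hx, tri]
    · rw [(heq f x hx).2, (heq g x hx).2]
  rw [e1, e2]
  exact ⟨TriB_left μ hF hG hχ1 hc a b, TriB_right μ hF hG hχ1 hc a b c ℓ,
    tri_one μ hF hG hGc hχ hc a b c ℓ h1 h2 h3⟩

end Pool.Agent.H36.TD
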