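import Pool.Agent.H36.TD.Alg
import Pool.Agent.H36.TD.TriB

set_option autoImplicit false

/-!
# Module Tot: the integral of the closed form (170 lines)

Write `F x = s x * Lam (φ x) (fderiv φ x (sg (fderiv χ x)))`, `A = fderiv ℝ φ x`. By `lam_sg`
`F x = - ∑ i, ∑ j, s x * (φ x j).1 * (dχ(ex i) * (A (ey i) j).2 - dχ(ey i) * (A (ex i) j).2)`. For fixed `i` choose `k ≠ i` (`2 ≤ n`) and let
`a = ex i`, `b = ey i`, `c = ex k`, `ℓ x = (x k).1`; `ℓ a = ℓ b = 0`, `ℓ c = 1`. For every `j` apply `tri_loc` with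
`f x = s x * (φ x j).1`, `g x = (φ x j).2`, both of class `C¹` on `N` (`s` is locally constant on `N`; near `x ∈ N` the function `f` is equal to
`s x * (φ · j).1`), `fderiv f x v = s x * (A v j).1`, `fderiv g x v = (A v j).2` for `x ∈ N`; off `N` both sides vanish since `fderiv χ x = 0` there. So
`∫ F = - ∑ i, ∫ ℓ_i * ∑ j, s * tri (dχ) (d(φ_j).1) (d(φ_j).2) (ex i) (ey i) (ex k_i)`, and by the definition of `tri` and of `omega`, for `x ∈ N`
`∑ j, s * tri .. a b c = s * (dχ a * omega (A b) (A c) + dχ b * omega (A c) (A a) + dχ c * omega (A a) (A b))`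
`= dχ a * omega b c + dχ b * omega c a + dχ c * omega a b` (`Mul (s x) A`, `s * s = 1`): it does not depend on `φ` (`tri_sum`). The same computation with the identity
map (`N = univ`, `s = 1`) gives the same value for `∫ Lam x (sg (fderiv χ x))`. (So prove `tot_gen`: for all such `φ`, `s` the integral is
`- ∑ i, ∫ (x (k i)).1 * (dχ (ex i) * omega (ey i) (ex (k i)) + ..)`, and apply it twice, the second time with `φ = id`.)
-/

namespace Pool.Agent.H36.TD

open Pool.Agent.H72.Symp MeasureTheory Topology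

variable {n : ℕ}

theorem tri_sum {A : Sp n →L[ℝ] Sp n} {s : ℝ} (hs : s = 1 ∨ s = -1) (hA : Mul s A)
    (p : Sp n →L[ℝ] ℝ) (a b c : Sp n) :
    ∑ j, s * (p a * ((A b j).1 * (A c j).2 - (A c j).1 * (A b j).2) +
      p b * ((A c j).1 * (A a j).2 - (A a j).1 * (A c j).2) +
      p c * ((A a j).1 * (A b j).2 - (A b j).1 * (A a j).2)) =
      p a * omega b c + p b * omega c a + p c * omega a b := by
  have h1 : ∀ u v : Sp n, ∑ j, ((A u j).1 * (A v j).2 - (A v j).1 * (A u j).2) = s * omega u v := by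
    intro u v
    rw [← hA u v]
    unfold omega
    exact Finset.sum_congr rfl fun j _ => by ring
  have h2 : ∑ j, s * (p a * ((A b j).1 * (A c j).2 - (A c j).1 * (A b j).2) +
      p b * ((A c j).1 * (A a j).2 - (A a j).1 * (A c j).2) +
      p c * ((A a j).1 * (A b j).2 - (A b j).1 * (A a j).2)) =
      s * (p a * ∑ j, ((A b j).1 * (A c j).2 - (A c j).1 * (A b j).2) +
        p b * ∑ j, ((A c j).1 * (A a j).2 - (A a j).1 * (A c j).2) +
        p c * ∑ j, ((A a j).1 * (A b j).2 - (A b j).1 * (A a j).2)) := by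
    rw [Finset.mul_sum, Finset.mul_sum, Finset.mul_sum, ← Finset.sum_add_distrib,
      ← Finset.sum_add_distrib, Finset.mul_sum]
  rw [h2, h1, h1, h1]
  rcases hs with rfl | rfl <;> ring

private theorem Tot_ex_ne {i k : Fin n} (h : k ≠ i) : (ex i : Sp n) k = (0, 0) := by
  unfold ex
  rw [Pi.single_eq_of_ne h]
  rfl

private theorem Tot_ey_ne {i k : Fin n} (h : k ≠ i) : (ey i : Sp n) k = (0, 0) := by
  unfold ey
  rw [Pi.single_eq_of_ne h]
  rfl

private theorem Tot_ex_eq (i : Fin n) : (ex i : Sp n) i = (1, 0) := by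
  unfold ex
  rw [Pi.single_eq_same]

/-- The two coordinate functions of `φ`. -/
private theorem Tot_d1 {φ : Sp n → Sp n} {x : Sp n} (h : DifferentiableAt ℝ φ x) (j : Fin n) :
    HasFDerivAt (fun y => (φ y j).1) (((ContinuousLinearMap.fst ℝ ℝ ℝ).comp
      (ContinuousLinearMap.proj j)).comp (fderiv ℝ φ x)) x :=
  ((ContinuousLinearMap.fst ℝ ℝ ℝ).comp
    (ContinuousLinearMap.proj (R := ℝ) (φ := fun _ : Fin n => ℝ × ℝ) j)).hasFDerivAt.comp x
    h.hasFDerivAt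

private theorem Tot_d2 {φ : Sp n → Sp n} {x : Sp n} (h : DifferentiableAt ℝ φ x) (j : Fin n) :
    HasFDerivAt (fun y => (φ y j).2) (((ContinuousLinearMap.snd ℝ ℝ ℝ).comp
      (ContinuousLinearMap.proj j)).comp (fderiv ℝ φ x)) x :=
  ((ContinuousLinearMap.snd ℝ ℝ ℝ).comp
    (ContinuousLinearMap.proj (R := ℝ) (φ := fun _ : Fin n => ℝ × ℝ) j)).hasFDerivAt.comp x
    h.hasFDerivAt

private theorem Tot_c1 {φ : Sp n → Sp n} {x : Sp n} (h : ContDiffAt ℝ 1 φ x) (j : Fin n) :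
    ContDiffAt ℝ 1 (fun y => (φ y j).1) x :=
  ((ContinuousLinearMap.fst ℝ ℝ ℝ).comp
    (ContinuousLinearMap.proj (R := ℝ) (φ := fun _ : Fin n => ℝ × ℝ) j)).contDiff.contDiffAt.comp x h

private theorem Tot_c2 {φ : Sp n → Sp n} {x : Sp n} (h : ContDiffAt ℝ 1 φ x) (j : Fin n) :
    ContDiffAt ℝ 1 (fun y => (φ y j).2) x :=
  ((ContinuousLinearMap.snd ℝ ℝ ℝ).comp
    (ContinuousLinearMap.proj (R := ℝ) (φ := fun _ : Fin n => ℝ × ℝ) j)).contDiff.contDiffAt.comp x h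

theorem tot_gen {φ : Sp n → Sp n} {N : Set (Sp n)} (hN : IsOpen N) (hd : ContDiffOn ℝ 1 φ N)
    {s : Sp n → ℝ} (hs : ∀ x, s x = 1 ∨ s x = -1) (hM : ∀ x ∈ N, Mul (s x) (fderiv ℝ φ x))
    (hl : ∀ x ∈ N, ∀ᶠ y in 𝓝 x, s y = s x) {χ : Sp n → ℝ} (hχ : ContDiff ℝ 2 χ)
    (hc : HasCompactSupport χ) (hS : tsupport (fderiv ℝ χ) ⊆ N) (k : Fin n → Fin n)
    (hk : ∀ i, k i ≠ i) :
    ∫ x, s x * Lam (φ x) (fderiv ℝ φ x (sg (fderiv ℝ χ x))) =
      -∑ i, ∫ x : Sp n, (x (k i)).1 * (fderiv ℝ χ x (ex i) * omega (ey i) (ex (k i)) +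
        fderiv ℝ χ x (ey i) * omega (ex (k i)) (ex i) +
        fderiv ℝ χ x (ex (k i)) * omega (ex i) (ey i)) := by
  have hdiff : ∀ x ∈ N, DifferentiableAt ℝ φ x := fun x hx =>
    (hd.contDiffAt (hN.mem_nhds hx)).differentiableAt one_ne_zero
  have hoff : ∀ x, x ∉ N → fderiv ℝ χ x = 0 := by
    intro x hx
    exact image_eq_zero_of_notMem_tsupport fun h => hx (hS h)
  -- the functions `f j`, `g j`
  let f : Fin n → Sp n → ℝ := fun j y => s y * (φ y j).1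
  let g : Fin n → Sp n → ℝ := fun j y => (φ y j).2
  have hfloc : ∀ j, ∀ x ∈ N, f j =ᶠ[𝓝 x] fun y => s x * (φ y j).1 := by
    intro j x hx
    filter_upwards [hl x hx] with y hy
    simp only [f]
    rw [hy]
  have hfc : ∀ j, ContDiffOn ℝ 1 (f j) N := by
    intro j x hx
    have h1 := hd.contDiffAt (hN.mem_nhds hx)
    have h2 : ContDiffAt ℝ 1 (fun y => s x * (φ y j).1) x :=
      contDiffAt_const.mul (Tot_c1 h1 j)
    exact (h2.congr_of_eventuallyEq (hfloc j x hx)).contDiffWithinAt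
  have hgc : ∀ j, ContDiffOn ℝ 1 (g j) N := by
    intro j x hx
    exact (Tot_c2 (hd.contDiffAt (hN.mem_nhds hx)) j).contDiffWithinAt
  have hfd : ∀ j, ∀ x ∈ N, ∀ v, fderiv ℝ (f j) x v = s x * (fderiv ℝ φ x v j).1 := by
    intro j x hx v
    have h1 : HasFDerivAt (fun y => s x * (φ y j).1) (s x • (((ContinuousLinearMap.fst ℝ ℝ ℝ).comp
      (ContinuousLinearMap.proj j)).comp (fderiv ℝ φ x))) x :=
      (Tot_d1 (hdiff x hx) j).const_mul (s x)
    rw [(hfloc j x hx).fderiv_eq, h1.fderiv]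
    rfl
  have hgd : ∀ j, ∀ x ∈ N, ∀ v, fderiv ℝ (g j) x v = (fderiv ℝ φ x v j).2 := by
    intro j x hx v
    rw [(Tot_d2 (hdiff x hx) j).fderiv]
    rfl
  let ℓ : Fin n → Sp n →L[ℝ] ℝ := fun i => (ContinuousLinearMap.fst ℝ ℝ ℝ).comp
    (ContinuousLinearMap.proj (R := ℝ) (φ := fun _ : Fin n => ℝ × ℝ) (k i))
  have hℓ : ∀ i x, ℓ i x = (x (k i)).1 := fun i x => rfl
  have hT := fun i j => tri_loc (X := Sp n) volume hN (hfc j) (hgc j) hχ hc hS (ex i) (ey i)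
    (ex (k i)) (ℓ i) (by rw [hℓ, Tot_ex_ne (hk i)]) (by rw [hℓ, Tot_ey_ne (hk i)])
    (by rw [hℓ, Tot_ex_eq])
  have e1 : ∀ x, s x * Lam (φ x) (fderiv ℝ φ x (sg (fderiv ℝ χ x))) =
      -∑ i, ∑ j, f j x * (fderiv ℝ χ x (ex i) * fderiv ℝ (g j) x (ey i) -
        fderiv ℝ χ x (ey i) * fderiv ℝ (g j) x (ex i)) := by
    intro x
    rw [lam_sg, mul_neg, Finset.mul_sum]
    congr 1
    refine Finset.sum_congr rfl fun i _ => ?_
    rw [Finset.mul_sum]
    refine Finset.sum_congr rfl fun j _ => ?_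
    by_cases hx : x ∈ N
    · rw [hgd j x hx, hgd j x hx]
      simp only [f]
      ring
    · rw [hoff x hx]
      simp
  have e2 : ∀ i x, ∑ j, ℓ i x * tri (fderiv ℝ χ x) (fderiv ℝ (f j) x) (fderiv ℝ (g j) x)
      (ex i) (ey i) (ex (k i)) =
      (x (k i)).1 * (fderiv ℝ χ x (ex i) * omega (ey i) (ex (k i)) +
        fderiv ℝ χ x (ey i) * omega (ex (k i)) (ex i) +
        fderiv ℝ χ x (ex (k i)) * omega (ex i) (ey i)) := by
    intro i x
    rw [← Finset.mul_sum, hℓ]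
    congr 1
    by_cases hx : x ∈ N
    · rw [← tri_sum (hs x) (hM x hx)]
      refine Finset.sum_congr rfl fun j _ => ?_
      unfold tri
      rw [hfd j x hx, hfd j x hx, hfd j x hx, hgd j x hx, hgd j x hx, hgd j x hx]
      ring
    · rw [hoff x hx]
      simp [tri]
  have e3 : ∫ x, s x * Lam (φ x) (fderiv ℝ φ x (sg (fderiv ℝ χ x))) =
      ∫ x, -∑ i, ∑ j, f j x * (fderiv ℝ χ x (ex i) * fderiv ℝ (g j) x (ey i) -
        fderiv ℝ χ x (ey i) * fderiv ℝ (g j) x (ex i)) :=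
    integral_congr_ae (Filter.Eventually.of_forall e1)
  rw [e3, integral_neg, integral_finsetSum _ fun i _ =>
    integrable_finsetSum _ fun j _ => (hT i j).1]
  congr 1
  refine Finset.sum_congr rfl fun i _ => ?_
  rw [integral_finsetSum _ fun j _ => (hT i j).1]
  have e4 : ∀ j, ∫ x, f j x * (fderiv ℝ χ x (ex i) * fderiv ℝ (g j) x (ey i) -
        fderiv ℝ χ x (ey i) * fderiv ℝ (g j) x (ex i)) =
      ∫ x, ℓ i x * tri (fderiv ℝ χ x) (fderiv ℝ (f j) x) (fderiv ℝ (g j) x)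
        (ex i) (ey i) (ex (k i)) := fun j => (hT i j).2.2
  simp_rw [e4]
  rw [← integral_finsetSum _ fun j _ => (hT i j).2.1]
  exact integral_congr_ae (Filter.Eventually.of_forall (e2 i))

theorem tot (hn : 2 ≤ n) {φ : Sp n → Sp n} {N : Set (Sp n)} (hN : IsOpen N)
    (hd : ContDiffOn ℝ 1 φ N) {s : Sp n → ℝ} (hs : ∀ x, s x = 1 ∨ s x = -1)
    (hM : ∀ x ∈ N, Mul (s x) (fderiv ℝ φ x)) (hl : ∀ x ∈ N, ∀ᶠ y in 𝓝 x, s y = s x)
    {χ : Sp n → ℝ} (hχ : ContDiff ℝ 2 χ) (hc : HasCompactSupport χ)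
    (hS : tsupport (fderiv ℝ χ) ⊆ N) :
    ∫ x, s x * Lam (φ x) (fderiv ℝ φ x (sg (fderiv ℝ χ x))) =
      ∫ x, Lam x (sg (fderiv ℝ χ x)) := by
  have : Nontrivial (Fin n) := Fin.nontrivial_iff_two_le.2 hn
  have hex : ∀ i : Fin n, ∃ j, j ≠ i := fun i => exists_ne i
  choose k hk using hex
  rw [tot_gen hN hd hs hM hl hχ hc hS k hk]
  have h := tot_gen (φ := fun x : Sp n => x) (N := Set.univ) (s := fun _ => 1) isOpen_univ
    contDiff_id.contDiffOn (fun _ => Or.inl rfl) (by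
      intro x _ u v
      rw [fderiv_fun_id]
      simp) (fun x _ => Filter.Eventually.of_forall fun _ => rfl) hχ hc (Set.subset_univ _) k hk
  rw [← h]
  refine integral_congr_ae (Filter.Eventually.of_forall fun x => ?_)
  simp only
  rw [fderiv_fun_id, one_mul]
  rfl

end Pool.Agent.H36.TD
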