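import Pool.Agent.H36.TD.Sgn
import Pool.Agent.H36.TD.Ibp
import Pool.Agent.H36.TD.Cov
import Pool.Agent.H36.TD.Tot

set_option autoImplicit false

/-!
# Module Key: test functions which are locally constant near `K` (40 lines)

`exists_sign`: `s`. `n ∫ θ = - ∫ dθ(Y)` (`ibp_Y`), `∫ dθ(Y) = - ∫ s Lam (φ x) (..)` (`cov`), equal to `- ∫ Lam x (sg dχ)` (`tot`), equal to
`∫ dχ(Y)` (`alg_id`), equal to `- n ∫ χ` (`ibp_Y`). Divide by `n`.
-/

namespace Pool.Agent.H36.TD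

open Pool.Agent.H72.Symp MeasureTheory

variable {n : ℕ} [NeZero n]

theorem key (hn : 2 ≤ n) {φ : Sp n ≃ₜ Sp n} {N : Set (Sp n)} (hN : IsOpen N)
    (hd : ContDiffOn ℝ 1 φ N) (hs : ∀ x ∈ N, PM (fderiv ℝ φ x)) {χ : Sp n → ℝ}
    (hχ : ContDiff ℝ 2 χ) (hc : HasCompactSupport χ) (hS : tsupport (fderiv ℝ χ) ⊆ N) :
    ∫ y, χ (φ.symm y) = ∫ x, χ x := by
  obtain ⟨s, h1, h2, h3⟩ := exists_sign hN hd hs
  have hχ1 : ContDiff ℝ 1 χ := hχ.of_le (by norm_num)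
  obtain ⟨h4, h5, -, -⟩ := theta hN hd hs hχ1 hc hS
  have e1 := ibp_Y h4 h5
  have e2 := ibp_Y hχ1 hc
  have e3 := cov hN hd h1 h2 hχ1 hc hS
  have e4 := tot hn hN hd h1 h2 h3 hχ hc hS
  have e5 : ∫ x, fderiv ℝ χ x (Yx x) = -∫ x, Lam x (sg (fderiv ℝ χ x)) := by
    rw [← integral_neg]
    exact integral_congr_ae (Filter.Eventually.of_forall fun x => alg_id _ _)
  rw [e3, e4] at e1
  rw [e5] at e2
  have hn0 : (n : ℝ) ≠ 0 := by
    have := NeZero.ne n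
    exact_mod_cast this
  have e6 : (n : ℝ) * ∫ y, χ (φ.symm y) = n * ∫ x, χ x := by linarith
  exact mul_left_cancel₀ hn0 e6

end Pool.Agent.H36.TD
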