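import Pool.Agent.H36.TD.Mea

set_option autoImplicit false

/-!
# Module SatB: saturated Borel sets

The union `St K C` of the components which meet a compact set `C ⊆ K` is compact, so the measures agree on all Borel sets whose part in `K` is a union of components.
-/

namespace Pool.Agent.H36.TD

open MeasureTheory Topology Set

section top

variable {X : Type} [TopologicalSpace X] [T2Space X] [LocallyCompactSpace X]

/-- the union of the components which meet `C` -/
def St (K C : Set X) : Set X := {y | ∃ x ∈ C, y ∈ connectedComponentIn K x}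

omit [T2Space X] [LocallyCompactSpace X] in
theorem St_sub (K C : Set X) : St K C ⊆ K := by
  rintro y ⟨x, -, hy⟩
  exact connectedComponentIn_subset _ _ hy

omit [T2Space X] [LocallyCompactSpace X] in
theorem sub_St {K C : Set X} (hCK : C ⊆ K) : C ⊆ St K C := fun x hx =>
  ⟨x, hx, mem_connectedComponentIn (hCK hx)⟩

omit [T2Space X] [LocallyCompactSpace X] in
theorem St_sat (K C : Set X) : ∀ x ∈ St K C, connectedComponentIn K x ⊆ St K C := by
  rintro y ⟨x, hx, hy⟩ z hz
  rw [← connectedComponentIn_eq hy] at hz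
  exact ⟨x, hx, hz⟩

theorem St_compact {K : Set X} (hK : IsClosed K)
    (hc : ∀ x ∈ K, IsCompact (connectedComponentIn K x)) {C : Set X} (hC : IsCompact C)
    (hCK : C ⊆ K) : IsCompact (St K C) := by
  classical
  have h1 : ∀ x ∈ C, ∃ Q : Set X, IsCompact Q ∧ Q ⊆ K ∧ x ∈ Q ∧ IsClosed (K \ Q) := by
    intro x hx
    obtain ⟨Q, h1, h2, -, h4, h5⟩ := comp_nhd hK (hCK hx) (hc x (hCK hx)) isOpen_univ
      (subset_univ _)
    exact ⟨Q, h1, h2, h4 (mem_connectedComponentIn (hCK hx)), h5⟩
  choose! Q hQ1 hQ2 hQ3 hQ4 using h1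
  obtain ⟨t, ht, htC⟩ := hC.elim_nhds_subcover (fun x => (K \ Q x)ᶜ) (fun x hx =>
    (hQ4 x hx).isOpen_compl.mem_nhds fun h => h.2 (hQ3 x hx))
  have hcpt : IsCompact (⋃ x ∈ t, Q x) := t.isCompact_biUnion fun x hx => hQ1 x (ht x hx)
  refine hcpt.of_isClosed_subset ?_ ?_
  · rw [← isOpen_compl_iff, isOpen_iff_mem_nhds]
    intro y hy
    by_cases hyK : y ∈ K
    · have hdis : connectedComponentIn K y ⊆ Cᶜ := by
        intro x hx hxC
        refine hy ⟨x, hxC, ?_⟩
        rw [← connectedComponentIn_eq hx]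
        exact mem_connectedComponentIn hyK
      obtain ⟨R, hR1, hR2, hR3, hR4, hR5⟩ := comp_nhd hK hyK (hc y hyK)
        hC.isClosed.isOpen_compl hdis
      have hyR : y ∈ R := hR4 (mem_connectedComponentIn hyK)
      refine Filter.mem_of_superset (hR5.isOpen_compl.mem_nhds fun h => h.2 hyR) ?_
      intro z hz hzS
      obtain ⟨x, hx, hzx⟩ := hzS
      have hzK : z ∈ K := connectedComponentIn_subset _ _ hzx
      have hzR : z ∈ R := by
        by_contra h
        exact hz ⟨hzK, h⟩
      have h2 := sat_sub hR1 hR2 hR5 hzR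
      rw [← connectedComponentIn_eq hzx] at h2
      exact hR3 (h2 (mem_connectedComponentIn (hCK hx))) hx
    · refine Filter.mem_of_superset (hK.isOpen_compl.mem_nhds hyK) ?_
      intro z hz hzS
      exact hz (St_sub K C hzS)
  · rintro y ⟨x, hx, hy⟩
    obtain ⟨w, hw, hxw⟩ := mem_iUnion₂.1 (htC hx)
    have hxQ : x ∈ Q w := by
      by_contra h
      exact hxw ⟨hCK hx, h⟩
    refine mem_iUnion₂.2 ⟨w, hw, ?_⟩
    exact sat_sub (hQ1 w (ht w hw)) (hQ2 w (ht w hw)) (hQ4 w (ht w hw)) hxQ hy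

end top

variable {X : Type} [NormedAddCommGroup X] [NormedSpace ℝ X] [FiniteDimensional ℝ X]
  [MeasurableSpace X] [BorelSpace X]

private theorem SatB_le (μ ν : Measure X) [IsFiniteMeasureOnCompacts μ]
    [IsFiniteMeasureOnCompacts ν] {K : Set X} (hK : IsClosed K)
    (hc : ∀ x ∈ K, IsCompact (connectedComponentIn K x))
    (hQ : ∀ Q ⊆ K, IsCompact Q → IsClosed (K \ Q) → μ Q = ν Q) {A F : Set X}
    (hA : MeasurableSet A) (hAK : A ⊆ K) (hF : IsCompact F) (hAF : A ⊆ F)
    (hsat : ∀ x ∈ A, connectedComponentIn K x ⊆ A) : μ A ≤ ν A := by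
  have : ProperSpace X := FiniteDimensional.proper_real X
  have hfin : μ A ≠ ⊤ := ((measure_mono hAF).trans_lt hF.measure_lt_top).ne
  refine le_of_forall_lt fun a ha => ?_
  obtain ⟨C, hCA, hC, haC⟩ := hA.exists_lt_isCompact_of_ne_top hfin ha
  have hCK : C ⊆ K := hCA.trans hAK
  have h1 : St K C ⊆ A := by
    rintro y ⟨x, hx, hy⟩
    exact hsat x (hCA hx) hy
  have h2 : μ (St K C) = ν (St K C) :=
    mea_sat μ ν hK hc hQ (St_compact hK hc hC hCK) (St_sub K C) (St_sat K C)
  calc a < μ C := haC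
    _ ≤ μ (St K C) := measure_mono (sub_St hCK)
    _ = ν (St K C) := h2
    _ ≤ ν A := measure_mono h1

theorem mea_borel (μ ν : Measure X) [IsFiniteMeasureOnCompacts μ] [IsFiniteMeasureOnCompacts ν]
    {K : Set X} (hK : IsClosed K) (hc : ∀ x ∈ K, IsCompact (connectedComponentIn K x))
    (hQ : ∀ Q ⊆ K, IsCompact Q → IsClosed (K \ Q) → μ Q = ν Q)
    (hoff : ∀ A ⊆ Kᶜ, MeasurableSet A → μ A = ν A) {A : Set X} (hA : MeasurableSet A)
    (hsat : ∀ x ∈ A, connectedComponentIn K x ⊆ A) : μ A = ν A := by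
  obtain ⟨F, hF, hKF⟩ := cover hK hc
  have hFm : ∀ i, MeasurableSet (F i) := fun i => (hF i).1.isClosed.measurableSet
  have hGsat : ∀ i, ∀ x ∈ disjointed F i, connectedComponentIn K x ⊆ disjointed F i := by
    intro i x hx y hy
    rw [disjointed_eq_inter_compl] at hx ⊢
    refine ⟨sat_sub (hF i).1 (hF i).2.1 (hF i).2.2 hx.1 hy, ?_⟩
    rw [mem_iInter₂]
    intro j hj hyj
    have h1 := sat_sub (hF j).1 (hF j).2.1 (hF j).2.2 hyj
    rw [← connectedComponentIn_eq hy] at h1
    have h2 := mem_iInter₂.1 hx.2 j hj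
    exact h2 (h1 (mem_connectedComponentIn ((hF i).2.1 hx.1)))
  have hpart : ∀ i, μ (A ∩ disjointed F i) = ν (A ∩ disjointed F i) := by
    intro i
    have h1 : MeasurableSet (A ∩ disjointed F i) := hA.inter (MeasurableSet.disjointed hFm i)
    have h2 : A ∩ disjointed F i ⊆ F i := inter_subset_right.trans (disjointed_subset F i)
    have h3 : ∀ x ∈ A ∩ disjointed F i, connectedComponentIn K x ⊆ A ∩ disjointed F i :=
      fun x hx y hy => ⟨hsat x hx.1 hy, hGsat i x hx.2 hy⟩
    exact le_antisymm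
      (SatB_le μ ν hK hc hQ h1 (h2.trans (hF i).2.1) (hF i).1 h2 h3)
      (SatB_le ν μ hK hc (fun Q h4 h5 h6 => (hQ Q h4 h5 h6).symm) h1 (h2.trans (hF i).2.1)
        (hF i).1 h2 h3)
  have hU : A ∩ K = ⋃ i, A ∩ disjointed F i := by
    rw [← inter_iUnion, iUnion_disjointed]
    congr 1
    exact Subset.antisymm hKF (iUnion_subset fun i => (hF i).2.1)
  have hdis : Pairwise (Function.onFun Disjoint fun i => A ∩ disjointed F i) := fun i j hij =>
    (disjoint_disjointed F hij).mono inter_subset_right inter_subset_right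
  have hm : ∀ i, MeasurableSet (A ∩ disjointed F i) := fun i =>
    hA.inter (MeasurableSet.disjointed hFm i)
  have h4 : μ (A ∩ K) = ν (A ∩ K) := by
    rw [hU, measure_iUnion hdis hm, measure_iUnion hdis hm]
    exact tsum_congr hpart
  have h5 : μ (A \ K) = ν (A \ K) :=
    hoff _ (fun x hx => hx.2) (hA.diff hK.measurableSet)
  rw [← measure_inter_add_sdiff A hK.measurableSet, ← measure_inter_add_sdiff (μ := ν) A
    hK.measurableSet, h4, h5]

end Pool.Agent.H36.TD
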