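import Pool.Agent.H36.TD.Key
import Pool.Agent.H36.TD.Cmp
import Pool.Agent.H36.TD.SatB
import Pool.Agent.H36.TD.Dif

set_option autoImplicit false

/-!
# Homeomorphisms which are `C¹` off a closed set with compact components
-/

namespace Pool.Agent.H36.TD

open Pool.Agent.H36.CSymp Pool.Agent.H72.Symp MeasureTheory

section

variable {n : ℕ} [NeZero n]

/-- the measure `A ↦ vol (φ A)` -/
noncomputable def pull (φ : Sp n ≃ₜ Sp n) : Measure (Sp n) := volume.map φ.symm

omit [NeZero n] in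
theorem pull_apply (φ : Sp n ≃ₜ Sp n) (A : Set (Sp n)) : pull φ A = volume (φ '' A) := by
  have h1 : pull φ A = volume (φ.symm ⁻¹' A) :=
    φ.symm.toMeasurableEquiv.map_apply A
  rw [h1, ← φ.image_eq_preimage_symm]

omit [NeZero n] in
theorem pull_fin (φ : Sp n ≃ₜ Sp n) : IsFiniteMeasureOnCompacts (pull φ) :=
  ⟨fun {A} hA => by
    rw [pull_apply]
    exact (hA.image φ.continuous).measure_lt_top⟩

theorem main_open (hn : 2 ≤ n) {φ : Sp n ≃ₜ Sp n} {K : Set (Sp n)} (hK : IsClosed K)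
    (hd : ContDiffOn ℝ 1 φ Kᶜ) (hs : ∀ x ∈ Kᶜ, PM (fderiv ℝ φ x)) {Q : Set (Sp n)}
    (hQK : Q ⊆ K) (hQ : IsCompact Q) (hKQ : IsClosed (K \ Q)) : pull φ Q = volume Q := by
  have := pull_fin φ
  refine cmp_open (pull φ) volume ?_ hQ hQK hKQ
  intro χ hχ hc hS
  have h1 : ∫ x, χ x ∂(pull φ) = ∫ y, χ (φ.symm y) :=
    φ.symm.measurableEmbedding.integral_map χ
  rw [h1]
  exact key hn hK.isOpen_compl hd hs hχ hc hS

end

/-- **Theorem.** Let `n ≥ 2`, `φ` a `c`-symplectic homeomorphism of `R^{2n}` which is `C¹` off a closed set `K` with compact components.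
Then `φ` preserves the volume of the Borel sets whose part in `K` is a union of components of `K`, and of all Borel sets if the union of
the components with more than one point has measure zero. -/
theorem main {O : (m : ℕ) → Set (Sp m ≃ₜ Sp m)} {c : CapacityChoice} {n : ℕ} [NeZero n]
    (hn : 2 ≤ n) {φ : Sp n ≃ₜ Sp n} (hφ : IsCSymplectic O c φ) {K : Set (Sp n)} (hK : IsClosed K)
    (hd : ContDiffOn ℝ 1 φ Kᶜ) (hc : ∀ x ∈ K, IsCompact (connectedComponentIn K x)) :
    (∀ A, MeasurableSet A → (∀ x ∈ A, connectedComponentIn K x ⊆ A) →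
      volume (φ '' A) = volume A) ∧
    (volume {x | x ∈ K ∧ ∃ y ∈ connectedComponentIn K x, y ≠ x} = 0 →
      ∀ A, MeasurableSet A → volume (φ '' A) = volume A) := by
  have hs : ∀ x ∈ Kᶜ, PM (fderiv ℝ φ x) := fun x hx =>
    dif hφ (((hd.contDiffAt (hK.isOpen_compl.mem_nhds hx)).differentiableAt (by norm_num)).hasFDerivAt)
  have := pull_fin φ
  have hQ : ∀ Q ⊆ K, IsCompact Q → IsClosed (K \ Q) → pull φ Q = volume Q :=
    fun Q h1 h2 h3 => main_open hn hK hd hs h1 h2 h3
  have hoff : ∀ A ⊆ Kᶜ, MeasurableSet A → pull φ A = volume A := by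
    intro A hAK hA
    rw [pull_apply]
    exact vol_off hK.isOpen_compl hd hs hA hAK
  constructor
  · intro A hA hsat
    rw [← pull_apply]
    exact mea_borel (pull φ) volume hK hc hQ hoff hA hsat
  · intro h0 A hA
    rw [← pull_apply]
    exact mea_all (pull φ) volume hK hc hQ h0 hoff hA

end Pool.Agent.H36.TD
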