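import Pool.Agent.H36.TD.TopC

set_option autoImplicit false

/-!
# Module Mea: two measures which agree on compact relatively open sets (140 lines)

`mea_sat`: both measures are regular. For `ε > 0` choose an open `U ⊇ B` with `μ U ≤ μ B + ε`, `ν U ≤ ν B + ε` (`Set.exists_isOpen_le_add`, intersect) and `Q` from `sat_nhd`:
`μ B ≤ μ Q = ν Q ≤ ν U ≤ ν B + ε`, and conversely. `ENNReal.le_of_forall_pos_le_add`.
`mea_all`: (1) `μ (Ntr K) = 0`: `Ntr K` is the union of the sets `Fd K δ ∩ F i` (`Ntr_eq`, `cover`), which are compact (`Fd_closed`), saturated (`Fd_sat`, `sat_sub`) and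
`ν`-null, so `μ`-null by `mea_sat`. `Ntr K` is measurable (countable union of closed sets). (2) Let `A ⊆ K \ Ntr K` be compact: every component of a point of `A` is the point, so `A` is saturated, so `μ A = ν A`. By inner
regularity (`MeasurableSet.measure_eq_iSup_isCompact`, sets of finite measure `A ∩ F i` (`F i` compact; make them disjoint, or use that `μ`, `ν` are sigma-finite)) `μ A = ν A` for all measurable
`A ⊆ K \ Ntr K`. Simplest: the restrictions of `μ` and `ν` to `K \ Ntr K` are equal: both are sigma-finite and regular; `Measure.ext_of_..` or: for measurable `A ⊆ K \ Ntr K` with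
`A ⊆ F i` both measures are finite and equal to the supremum over the compact subsets of `A`; then `A = ⋃ (A ∩ disjointed F i)` and countable additivity. (3) A measurable `A` is the disjoint union of
`A \ K` (`hoff`), `A ∩ Ntr K` (both zero) and `A ∩ (K \ Ntr K)`.
-/

namespace Pool.Agent.H36.TD

open MeasureTheory

variable {X : Type} [NormedAddCommGroup X] [NormedSpace ℝ X] [FiniteDimensional ℝ X]
  [MeasurableSpace X] [BorelSpace X]

private theorem mea_le (μ ν : Measure X) [IsFiniteMeasureOnCompacts ν]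
    {K : Set X} (hK : IsClosed K) (hc : ∀ x ∈ K, IsCompact (connectedComponentIn K x))
    (hQ : ∀ Q ⊆ K, IsCompact Q → IsClosed (K \ Q) → μ Q = ν Q) {B : Set X} (hB : IsCompact B)
    (hBK : B ⊆ K) (hsat : ∀ x ∈ B, connectedComponentIn K x ⊆ B) : μ B ≤ ν B := by
  have : ProperSpace X := FiniteDimensional.proper_real X
  have : IsLocallyFiniteMeasure ν := isLocallyFiniteMeasure_of_isFiniteMeasureOnCompacts
  refine ENNReal.le_of_forall_pos_le_add fun ε hε _ => ?_
  obtain ⟨U, hBU, hU, hνU⟩ := B.exists_isOpen_le_add ν (ε := (ε : ENNReal))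
    (by exact_mod_cast hε.ne')
  obtain ⟨Q, h1, h2, h3, h4, h5⟩ := sat_nhd hK hc hB hBK hsat hU hBU
  calc μ B ≤ μ Q := measure_mono h2
    _ = ν Q := hQ Q h3 h1 h5
    _ ≤ ν U := measure_mono h4
    _ ≤ ν B + ε := hνU

theorem mea_sat (μ ν : Measure X) [IsFiniteMeasureOnCompacts μ] [IsFiniteMeasureOnCompacts ν]
    {K : Set X} (hK : IsClosed K) (hc : ∀ x ∈ K, IsCompact (connectedComponentIn K x))
    (hQ : ∀ Q ⊆ K, IsCompact Q → IsClosed (K \ Q) → μ Q = ν Q) {B : Set X} (hB : IsCompact B)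
    (hBK : B ⊆ K) (hsat : ∀ x ∈ B, connectedComponentIn K x ⊆ B) : μ B = ν B :=
  le_antisymm (mea_le μ ν hK hc hQ hB hBK hsat)
    (mea_le ν μ hK hc (fun Q h1 h2 h3 => (hQ Q h1 h2 h3).symm) hB hBK hsat)

theorem mea_all (μ ν : Measure X) [IsFiniteMeasureOnCompacts μ] [IsFiniteMeasureOnCompacts ν]
    {K : Set X} (hK : IsClosed K) (hc : ∀ x ∈ K, IsCompact (connectedComponentIn K x))
    (hQ : ∀ Q ⊆ K, IsCompact Q → IsClosed (K \ Q) → μ Q = ν Q) (h0 : ν (Ntr K) = 0)
    (hoff : ∀ A ⊆ Kᶜ, MeasurableSet A → μ A = ν A) {A : Set X} (hA : MeasurableSet A) :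
    μ A = ν A := by
  have : ProperSpace X := FiniteDimensional.proper_real X
  have : IsLocallyFiniteMeasure ν := isLocallyFiniteMeasure_of_isFiniteMeasureOnCompacts
  have : IsLocallyFiniteMeasure μ := isLocallyFiniteMeasure_of_isFiniteMeasureOnCompacts
  obtain ⟨F, hF, hFK⟩ := cover hK hc
  have hNm : MeasurableSet (Ntr K) := by
    rw [Ntr_eq]
    exact MeasurableSet.iUnion fun i => (Fd_closed hK hc _).measurableSet
  have hN0 : μ (Ntr K) = 0 := by
    have e : Ntr K ⊆ ⋃ p : ℕ × ℕ, (Fd K (1 / ((p.1 : ℝ) + 1)) ∩ F p.2) := by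
      intro x hx
      have hxK : x ∈ K := hx.1
      rw [Ntr_eq] at hx
      obtain ⟨i, hi⟩ := Set.mem_iUnion.1 hx
      obtain ⟨j, hj⟩ := Set.mem_iUnion.1 (hFK hxK)
      exact Set.mem_iUnion.2 ⟨(i, j), hi, hj⟩
    refine measure_mono_null e (measure_iUnion_null fun p => ?_)
    have h1 : IsCompact (Fd K (1 / ((p.1 : ℝ) + 1)) ∩ F p.2) :=
      (hF p.2).1.inter_left (Fd_closed hK hc _)
    have h2 : Fd K (1 / ((p.1 : ℝ) + 1)) ∩ F p.2 ⊆ K := fun x hx => (hF p.2).2.1 hx.2
    rw [mea_sat μ ν hK hc hQ h1 h2 fun x hx => Set.subset_inter (Fd_sat hx.1)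
      (sat_sub (hF p.2).1 (hF p.2).2.1 (hF p.2).2.2 hx.2)]
    refine measure_mono_null (fun x hx => ?_) h0
    rw [Ntr_eq]
    exact Set.mem_iUnion.2 ⟨p.1, hx.1⟩
  have hcpt : ∀ B : Set X, IsCompact B → B ⊆ K \ Ntr K → μ B = ν B := by
    intro B hB hBK
    refine mea_sat μ ν hK hc hQ hB (fun x hx => (hBK hx).1) fun x hx y hy => ?_
    by_contra hn
    refine (hBK hx).2 ⟨(hBK hx).1, y, hy, ?_⟩
    rintro rfl
    exact hn hx
  have hmea : ∀ B : Set X, MeasurableSet B → B ⊆ K \ Ntr K → μ B = ν B := by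
    intro B hB hBK
    rw [hB.measure_eq_iSup_isCompact μ, hB.measure_eq_iSup_isCompact ν]
    refine iSup_congr fun C => iSup_congr fun hC => iSup_congr fun hCc => ?_
    exact hcpt C hCc (hC.trans hBK)
  rw [← measure_inter_add_sdiff A hK.measurableSet, ← measure_inter_add_sdiff A hK.measurableSet,
    ← measure_inter_add_sdiff (A ∩ K) hNm, ← measure_inter_add_sdiff (A ∩ K) hNm,
    hoff (A \ K) (fun x hx => hx.2) (hA.diff hK.measurableSet),
    measure_mono_null Set.inter_subset_right hN0, measure_mono_null Set.inter_subset_right h0,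
    hmea ((A ∩ K) \ Ntr K) ((hA.inter hK.measurableSet).diff hNm)
      (fun x hx => ⟨hx.1.2, hx.2⟩)]

end Pool.Agent.H36.TD
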