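import Pool.Agent.H36.TD.Defs

set_option autoImplicit false

/-!
# Module Sgn: the sign is locally constant (50 lines)

`s x = omega (fderiv ℝ φ x (ex 0)) (fderiv ℝ φ x (ey 0))` for `x ∈ N` and `s x = 1` otherwise; `omega (ex 0) (ey 0) = 1` (`NeZero n`). By `PM` it is `1` or
`-1` and `Mul (s x) (fderiv ℝ φ x)` for `x ∈ N`. It is continuous on the open set `N` (`fderiv ℝ φ` is continuous on `N`,
`ContDiffOn.continuousOn_fderiv_of_isOpen`), so `|s y - s x| < 1` for `y` near `x`, hence `s y = s x`.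
-/

namespace Pool.Agent.H36.TD

open Pool.Agent.H72.Symp Topology

variable {n : ℕ} [NeZero n]

private theorem Sgn_unit : omega (ex (0 : Fin n)) (ey (0 : Fin n)) = 1 := by
  unfold omega ex ey
  rw [Finset.sum_eq_single (0 : Fin n)]
  · simp
  · intro b _ hb
    simp [Pi.single_eq_of_ne hb]
  · simp

private theorem Sgn_cont : Continuous fun p : Sp n × Sp n => omega p.1 p.2 := by
  unfold omega
  fun_prop

theorem exists_sign {φ : Sp n → Sp n} {N : Set (Sp n)} (hN : IsOpen N) (hd : ContDiffOn ℝ 1 φ N)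
    (hs : ∀ x ∈ N, PM (fderiv ℝ φ x)) :
    ∃ s : Sp n → ℝ, (∀ x, s x = 1 ∨ s x = -1) ∧ (∀ x ∈ N, Mul (s x) (fderiv ℝ φ x)) ∧
      ∀ x ∈ N, ∀ᶠ y in 𝓝 x, s y = s x := by
  classical
  set g : Sp n → ℝ := fun x => omega (fderiv ℝ φ x (ex 0)) (fderiv ℝ φ x (ey 0)) with hg
  have h1 : ∀ x ∈ N, (g x = 1 ∧ Mul 1 (fderiv ℝ φ x)) ∨ (g x = -1 ∧ Mul (-1) (fderiv ℝ φ x)) := by
    intro x hx
    rcases hs x hx with h | h
    · left
      refine ⟨?_, h⟩
      have := h (ex 0) (ey 0)
      rw [Sgn_unit] at this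
      simpa [hg] using this
    · right
      refine ⟨?_, h⟩
      have := h (ex 0) (ey 0)
      rw [Sgn_unit] at this
      simpa [hg] using this
  have hc : ContinuousOn g N := by
    have h2 : ContinuousOn (fderiv ℝ φ) N := hd.continuousOn_fderiv_of_isOpen hN le_rfl
    have h3 : ContinuousOn (fun x => (fderiv ℝ φ x (ex 0), fderiv ℝ φ x (ey 0))) N :=
      (h2.clm_apply continuousOn_const).prodMk (h2.clm_apply continuousOn_const)
    exact Sgn_cont.comp_continuousOn h3
  refine ⟨fun x => if x ∈ N then g x else 1, ?_, ?_, ?_⟩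
  · intro x
    by_cases hx : x ∈ N
    · rcases h1 x hx with h | h
      · left; simp only [if_pos hx]; exact h.1
      · right; simp only [if_pos hx]; exact h.1
    · left; simp only [if_neg hx]
  · intro x hx
    simp only [if_pos hx]
    rcases h1 x hx with h | h
    · rw [h.1]; exact h.2
    · rw [h.1]; exact h.2
  · intro x hx
    have h4 : Filter.Tendsto g (𝓝 x) (𝓝 (g x)) := hc.continuousAt (hN.mem_nhds hx)
    have h5 : ∀ᶠ y in 𝓝 x, dist (g y) (g x) < 1 := Metric.tendsto_nhds.1 h4 1 one_pos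
    filter_upwards [h5, hN.mem_nhds hx] with y hy hyN
    simp only [if_pos hx, if_pos hyN]
    rw [Real.dist_eq] at hy
    rcases h1 x hx with h | h <;> rcases h1 y hyN with h' | h'
    · rw [h.1, h'.1]
    · rw [h.1, h'.1] at hy
      norm_num at hy
    · rw [h.1, h'.1] at hy
      norm_num at hy
    · rw [h.1, h'.1]

end Pool.Agent.H36.TD
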