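import Pool.Agent.H36.TD.Defs

set_option autoImplicit false

/-!
# Module TopA: compact components have compact relatively open neighbourhoods (120 lines)

Let `C = connectedComponentIn K x`, compact, `C ⊆ U`. Choose an open `V` with compact closure and `C ⊆ V`, `closure V ⊆ U` (`exists_open_between_and_isCompact_closure`).
`M = K ∩ closure V` is compact. In the compact Hausdorff space `M` (subtype) the component of `x` is the intersection of the clopen sets which contain `x`
(`connectedComponent_eq_iInter_isClopen`). Its image in `X` is connected and contained in `K`, so it is contained in `C` (`IsPreconnected.subset_connectedComponentIn`), hence in `V`. So the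
intersection of all clopen `Z ∋ x` of `M` does not meet the compact set `M \ V`, and by compactness (`IsCompact.elim_directed_family_closed_of_isCompact`-like, the clopen sets containing
`x` are closed under finite intersections; or `exists_subset_nhds_of_isCompact'`) one of them, `Z`, is contained in `V`. Let `Q` be its image in `X`: compact, `Q ⊆ K ∩ V`. `K \ Q` is the union of
`K ∩ Vᶜ` and of the image of `M \ Z`, both closed. `C ⊆ Q`: `C` is preconnected, contained in `M` (as `C ⊆ K ∩ V`), and meets `Z` in `x`
(`IsPreconnected.subset_isClopen`).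
-/

namespace Pool.Agent.H36.TD

open Topology

variable {X : Type} [TopologicalSpace X] [T2Space X] [LocallyCompactSpace X]

theorem comp_nhd {K : Set X} (hK : IsClosed K) {x : X} (hx : x ∈ K)
    (hc : IsCompact (connectedComponentIn K x)) {U : Set X} (hU : IsOpen U)
    (hCU : connectedComponentIn K x ⊆ U) :
    ∃ Q : Set X, IsCompact Q ∧ Q ⊆ K ∧ Q ⊆ U ∧ connectedComponentIn K x ⊆ Q ∧
      IsClosed (K \ Q) := by
  obtain ⟨V, hVo, hCV, hVU, hVc⟩ := exists_open_between_and_isCompact_closure hc hU hCU
  have hMc : IsCompact (K ∩ closure V) := hVc.inter_left hK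
  have hMcs : CompactSpace (K ∩ closure V : Set X) := isCompact_iff_compactSpace.mp hMc
  have hxC : x ∈ connectedComponentIn K x := mem_connectedComponentIn hx
  have hxM : x ∈ K ∩ closure V := ⟨hx, subset_closure (hCV hxC)⟩
  have hcomp : connectedComponent (⟨x, hxM⟩ : (K ∩ closure V : Set X)) ⊆
      (Subtype.val ⁻¹' V : Set (K ∩ closure V : Set X)) := by
    intro y hy
    have h1 : IsPreconnected (Subtype.val ''
        connectedComponent (⟨x, hxM⟩ : (K ∩ closure V : Set X))) :=
      isPreconnected_connectedComponent.image _ continuous_subtype_val.continuousOn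
    have h2 : Subtype.val '' connectedComponent (⟨x, hxM⟩ : (K ∩ closure V : Set X)) ⊆ K := by
      rintro _ ⟨z, _, rfl⟩
      exact z.2.1
    have h3 : x ∈ Subtype.val '' connectedComponent (⟨x, hxM⟩ : (K ∩ closure V : Set X)) :=
      ⟨⟨x, hxM⟩, mem_connectedComponent, rfl⟩
    exact hCV (h1.subset_connectedComponentIn h3 h2 ⟨y, hy, rfl⟩)
  rw [connectedComponent_eq_iInter_isClopen] at hcomp
  have hne : Nonempty {s : Set (K ∩ closure V : Set X) // IsClopen s ∧
      (⟨x, hxM⟩ : (K ∩ closure V : Set X)) ∈ s} := ⟨⟨Set.univ, isClopen_univ, Set.mem_univ _⟩⟩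
  obtain ⟨⟨Z, hZ, hxZ⟩, hZV⟩ := exists_subset_nhds_of_isCompact'
    (V := fun s : {s : Set (K ∩ closure V : Set X) // IsClopen s ∧
      (⟨x, hxM⟩ : (K ∩ closure V : Set X)) ∈ s} => s.val)
    (fun s t => ⟨⟨s.val ∩ t.val, s.2.1.inter t.2.1, s.2.2, t.2.2⟩,
      Set.inter_subset_left, Set.inter_subset_right⟩)
    (fun s => s.2.1.isClosed.isCompact) (fun s => s.2.1.isClosed)
    (U := Subtype.val ⁻¹' V)
    (fun y hy => (hVo.preimage continuous_subtype_val).mem_nhds (hcomp hy))
  simp only at hZV
  have hQK : Subtype.val '' Z ⊆ K := by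
    rintro _ ⟨z, _, rfl⟩
    exact z.2.1
  have hQV : Subtype.val '' Z ⊆ V := by
    rintro _ ⟨z, hz, rfl⟩
    exact hZV hz
  refine ⟨Subtype.val '' Z, hZ.isClosed.isCompact.image continuous_subtype_val, hQK,
    hQV.trans (subset_closure.trans hVU), ?_, ?_⟩
  · have hpre : IsPreconnected (Subtype.val ⁻¹' (connectedComponentIn K x) :
        Set (K ∩ closure V : Set X)) := by
      refine isPreconnected_connectedComponentIn.preimage_of_isClosedMap
        Subtype.val_injective ?_ ?_
      · exact (hK.inter isClosed_closure).isClosedEmbedding_subtypeVal.isClosedMap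
      · intro y hy
        exact ⟨⟨y, connectedComponentIn_subset _ _ hy, subset_closure (hCV hy)⟩, rfl⟩
    have hsub := hpre.subset_isClopen hZ ⟨⟨x, hxM⟩, hxC, hxZ⟩
    intro y hy
    exact ⟨⟨y, connectedComponentIn_subset _ _ hy, subset_closure (hCV hy)⟩, hsub hy, rfl⟩
  · have heq : K \ (Subtype.val '' Z) = (K ∩ Vᶜ) ∪ Subtype.val '' Zᶜ := by
      ext y
      constructor
      · rintro ⟨hyK, hyQ⟩
        by_cases hyV : y ∈ V
        · right
          refine ⟨⟨y, hyK, subset_closure hyV⟩, ?_, rfl⟩
          intro hz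
          exact hyQ ⟨_, hz, rfl⟩
        · exact Or.inl ⟨hyK, hyV⟩
      · rintro (⟨hyK, hyV⟩ | ⟨z, hz, rfl⟩)
        · exact ⟨hyK, fun h => hyV (hQV h)⟩
        · refine ⟨z.2.1, ?_⟩
          rintro ⟨w, hw, hwz⟩
          exact hz (Subtype.val_injective hwz ▸ hw)
    rw [heq]
    exact (hK.inter hVo.isClosed_compl).union
      ((hZ.compl.isClosed.isCompact.image continuous_subtype_val).isClosed)

end Pool.Agent.H36.TD
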