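import Pool.Agent.H36.TD.TopA

set_option autoImplicit false

/-!
# Module TopB: saturated compact sets, countable covers (90 lines)

If `Q ⊆ K` and `K \ Q` is closed, then `(K \ Q)ᶜ` is open, contains `Q`, and its intersection with `K` is `Q` (`rel_open`). `sat_nhd`: for every `x ∈ B` apply `comp_nhd` (the component is
contained in `B ⊆ U`): `Q x`. The open sets `(K \ Q x)ᶜ` cover the compact set `B`; take a finite subcover (`IsCompact.elim_nhds_subcover'` or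
`elim_finite_subcover`) and the finite union of the `Q x`; `K \ ⋃ = ⋂ (K \ Q x)`.
`cover`: for every `x ∈ K` apply `comp_nhd` with `U = univ`; Lindeloef (`TopologicalSpace.countable_cover_nhdsWithin` or `isLindelof`): countably many `(K \ Q x)ᶜ` cover `K`.
`sat_sub`: a component which meets a compact relatively open `Q` is contained in it: `C` is preconnected, contained in `K`, and `C ∩ Q`, `C \ Q` are separated by the
disjoint closed sets `Q`, `K \ Q` (`isPreconnected_closed_iff` or `IsPreconnected.subset_left_of_subset_union` with the open sets `Qᶜ`, `(K \ Q)ᶜ`).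
-/

namespace Pool.Agent.H36.TD

open Topology

variable {X : Type} [TopologicalSpace X] [T2Space X] [LocallyCompactSpace X]

theorem sat_sub {K Q : Set X} (hQ : IsCompact Q) (hQK : Q ⊆ K) (hKQ : IsClosed (K \ Q)) {x : X}
    (hx : x ∈ Q) : connectedComponentIn K x ⊆ Q := by
  intro y hy
  by_contra hyQ
  have hxC : x ∈ connectedComponentIn K x := mem_connectedComponentIn (hQK hx)
  have hCK : connectedComponentIn K x ⊆ K := connectedComponentIn_subset K x
  obtain ⟨z, -, hz1, hz2⟩ := isPreconnected_closed_iff.1 isPreconnected_connectedComponentIn Q (K \ Q)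
    hQ.isClosed hKQ (fun z hz => by
      by_cases h : z ∈ Q
      · exact Or.inl h
      · exact Or.inr ⟨hCK hz, h⟩) ⟨x, hxC, hx⟩ ⟨y, hy, hCK hy, hyQ⟩
  exact hz2.2 hz1

theorem sat_nhd {K : Set X} (hK : IsClosed K)
    (hc : ∀ x ∈ K, IsCompact (connectedComponentIn K x)) {B U : Set X} (hB : IsCompact B)
    (hBK : B ⊆ K) (hsat : ∀ x ∈ B, connectedComponentIn K x ⊆ B) (hU : IsOpen U) (hBU : B ⊆ U) :
    ∃ Q : Set X, IsCompact Q ∧ B ⊆ Q ∧ Q ⊆ K ∧ Q ⊆ U ∧ IsClosed (K \ Q) := by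
  have key : ∃ Q : Set X, IsCompact Q ∧ B ∩ K ⊆ Q ∧ Q ⊆ K ∧ Q ⊆ U ∧ IsClosed (K \ Q) := by
    refine hB.induction_on
      (p := fun S : Set X => ∃ Q : Set X, IsCompact Q ∧ S ∩ K ⊆ Q ∧ Q ⊆ K ∧ Q ⊆ U ∧ IsClosed (K \ Q))
      ?_ ?_ ?_ ?_
    · refine ⟨∅, isCompact_empty, ?_, Set.empty_subset _, Set.empty_subset _, ?_⟩
      · rintro z ⟨hz, -⟩
        exact hz
      · rw [Set.sdiff_empty]
        exact hK
    · rintro S T hST ⟨Q, h1, h2, h3, h4, h5⟩
      exact ⟨Q, h1, fun z hz => h2 ⟨hST hz.1, hz.2⟩, h3, h4, h5⟩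
    · rintro S T ⟨Q, h1, h2, h3, h4, h5⟩ ⟨Q', h1', h2', h3', h4', h5'⟩
      refine ⟨Q ∪ Q', h1.union h1', ?_, Set.union_subset h3 h3', Set.union_subset h4 h4', ?_⟩
      · rintro z ⟨hz | hz, hzK⟩
        · exact Or.inl (h2 ⟨hz, hzK⟩)
        · exact Or.inr (h2' ⟨hz, hzK⟩)
      · have e : K \ (Q ∪ Q') = (K \ Q) ∩ (K \ Q') := by
          ext z
          simp only [Set.mem_sdiff, Set.mem_union, Set.mem_inter_iff]
          tauto
        rw [e]
        exact h5.inter h5'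
    · intro x hx
      obtain ⟨Q, h1, h2, h3, h4, h5⟩ := comp_nhd hK (hBK hx) (hc x (hBK hx)) hU
        ((hsat x hx).trans hBU)
      refine ⟨(K \ Q)ᶜ, mem_nhdsWithin_of_mem_nhds (h5.isOpen_compl.mem_nhds ?_), Q, h1, ?_, h2, h3,
        h5⟩
      · rintro ⟨-, hxQ⟩
        exact hxQ (h4 (mem_connectedComponentIn (hBK hx)))
      · rintro z ⟨hz, hzK⟩
        by_contra hzQ
        exact hz ⟨hzK, hzQ⟩
  obtain ⟨Q, h1, h2, h3, h4, h5⟩ := key
  exact ⟨Q, h1, fun z hz => h2 ⟨hz, hBK hz⟩, h3, h4, h5⟩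

theorem cover [SecondCountableTopology X] {K : Set X} (hK : IsClosed K)
    (hc : ∀ x ∈ K, IsCompact (connectedComponentIn K x)) :
    ∃ F : ℕ → Set X, (∀ i, IsCompact (F i) ∧ F i ⊆ K ∧ IsClosed (K \ F i)) ∧ K ⊆ ⋃ i, F i := by
  have h : ∀ x ∈ K, ∃ Q : Set X, IsCompact Q ∧ Q ⊆ K ∧ x ∈ Q ∧ IsClosed (K \ Q) := by
    intro x hx
    obtain ⟨Q, h1, h2, h3, h4, h5⟩ := comp_nhd hK hx (hc x hx) isOpen_univ (Set.subset_univ _)
    exact ⟨Q, h1, h2, h4 (mem_connectedComponentIn hx), h5⟩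
  choose! Q hQ using h
  obtain ⟨t, htK, htc, ht⟩ := TopologicalSpace.countable_cover_nhdsWithin
    (f := fun x => (K \ Q x)ᶜ) (s := K) (fun x hx => mem_nhdsWithin_of_mem_nhds
      ((hQ x hx).2.2.2.isOpen_compl.mem_nhds fun h => h.2 (hQ x hx).2.2.1))
  rcases t.eq_empty_or_nonempty with hte | hte
  · refine ⟨fun _ => ∅, fun i => ⟨isCompact_empty, Set.empty_subset _, ?_⟩, ?_⟩
    · rw [Set.sdiff_empty]
      exact hK
    · intro x hx
      have := ht hx
      rw [hte] at this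
      simp at this
  · obtain ⟨e, he⟩ := htc.exists_eq_range hte
    have heK : ∀ i, e i ∈ K := fun i => htK (by rw [he]; exact ⟨i, rfl⟩)
    refine ⟨fun i => Q (e i), fun i => ⟨(hQ _ (heK i)).1, (hQ _ (heK i)).2.1, (hQ _ (heK i)).2.2.2⟩, ?_⟩
    intro x hx
    obtain ⟨y, hy⟩ := Set.mem_iUnion.1 (ht hx)
    obtain ⟨hyt, hy2⟩ := Set.mem_iUnion.1 hy
    rw [he] at hyt
    obtain ⟨i, rfl⟩ := hyt
    refine Set.mem_iUnion.2 ⟨i, ?_⟩
    by_contra hn
    exact hy2 ⟨hx, hn⟩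

end Pool.Agent.H36.TD
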