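import Pool.Agent.H36.TD.TopB

set_option autoImplicit false

/-!
# Module TopC: the components of diameter at least `δ` (90 lines)

`F δ = {x ∈ K | the component of x has two points of distance at least δ}`. It is saturated: the component of a point of the component of `x` is the component of `x`
(`connectedComponentIn_eq`). It is closed: let `x_i ∈ F δ` converge to `x` (`isClosed_of_closure_subset`, sequences `mem_closure_iff_seq_limit`); `x ∈ K`. Let `C` be the component of
`x` and `y_i, z_i` in the component of `x_i` with `δ ≤ dist (y_i) (z_i)`. Fix a compact relatively open `Q0 ⊇ C` (`comp_nhd` with `univ`); `x_i ∈ Q0` for large `i`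
(`(K \ Q0)ᶜ` is an open neighbourhood of `x`), so `y_i, z_i ∈ Q0` (`sat_sub`), and for a subsequence `y_i → y`, `z_i → z` (`IsCompact.tendsto_subseq`, twice), `δ ≤ dist y z`. For
every open `U ⊇ C` there is a compact relatively open `Q`, `C ⊆ Q ⊆ U`, and again `y_i, z_i ∈ Q` for large `i`, so `y, z ∈ Q ⊆ U`. As `C` is closed (compact), it is the intersection of its
open neighbourhoods (the complement of a point outside `C` is such a `U`): `y, z ∈ C`. So `x ∈ F δ`.
`Ntr K = ⋃ i, F (1 / (i + 1))`: if `y` is in the component of `x` and `y ≠ x`, then `dist y x > 0` (`exists_nat_one_div_lt`); conversely one of `y`, `z` is different from `x`.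
-/

namespace Pool.Agent.H36.TD

open Topology

variable {X : Type} [MetricSpace X] [LocallyCompactSpace X]

/-- the union of the components with two points of distance at least `δ` -/
def Fd (K : Set X) (δ : ℝ) : Set X :=
  {x | x ∈ K ∧ ∃ y ∈ connectedComponentIn K x, ∃ z ∈ connectedComponentIn K x, δ ≤ dist y z}

theorem Fd_sat {K : Set X} {δ : ℝ} {x : X} (hx : x ∈ Fd K δ) : connectedComponentIn K x ⊆ Fd K δ := by
  intro w hw
  have h1 : connectedComponentIn K x = connectedComponentIn K w := connectedComponentIn_eq hw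
  obtain ⟨hxK, y, hy, z, hz, h⟩ := hx
  exact ⟨connectedComponentIn_subset K x hw, y, h1 ▸ hy, z, h1 ▸ hz, h⟩

theorem Fd_closed {K : Set X} (hK : IsClosed K)
    (hc : ∀ x ∈ K, IsCompact (connectedComponentIn K x)) (δ : ℝ) : IsClosed (Fd K δ) := by
  refine isClosed_of_closure_subset ?_
  intro x hx
  obtain ⟨u, hu, hux⟩ := mem_closure_iff_seq_limit.1 hx
  have hxK : x ∈ K := hK.mem_of_tendsto hux (Filter.Eventually.of_forall fun i => (hu i).1)
  choose hu1 y hy z hz hyz using hu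
  have key : ∀ Q : Set X, Q ⊆ K → IsCompact Q → IsClosed (K \ Q) → x ∈ Q →
      ∀ᶠ i in Filter.atTop, y i ∈ Q ∧ z i ∈ Q := by
    intro Q hQK hQ hKQ hxQ
    have h1 : ∀ᶠ i in Filter.atTop, u i ∈ (K \ Q)ᶜ :=
      hux.eventually (hKQ.isOpen_compl.mem_nhds fun h => h.2 hxQ)
    filter_upwards [h1] with i hi
    have h2 : u i ∈ Q := by
      by_contra h3
      exact hi ⟨hu1 i, h3⟩
    have h4 := sat_sub hQ hQK hKQ h2
    exact ⟨h4 (hy i), h4 (hz i)⟩
  obtain ⟨Q0, h1, h2, _, h4, h5⟩ := comp_nhd hK hxK (hc x hxK) isOpen_univ (Set.subset_univ _)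
  have hx0 : x ∈ Q0 := h4 (mem_connectedComponentIn hxK)
  have hev := key Q0 h2 h1 h5 hx0
  obtain ⟨N, hN⟩ := Filter.eventually_atTop.1 hev
  have hin : ∀ i : ℕ, (y (i + N), z (i + N)) ∈ Q0 ×ˢ Q0 := by
    intro i
    exact ⟨(hN (i + N) (by omega)).1, (hN (i + N) (by omega)).2⟩
  obtain ⟨⟨a, b⟩, hab, φ, hφ, hlim⟩ := (h1.prod h1).tendsto_subseq hin
  have hφ2 : Filter.Tendsto (fun i => φ i + N) Filter.atTop Filter.atTop :=
    (Filter.tendsto_add_atTop_nat N).comp hφ.tendsto_atTop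
  have hya : Filter.Tendsto (fun i => y (φ i + N)) Filter.atTop (𝓝 a) :=
    (continuous_fst.tendsto (a, b)).comp hlim
  have hzb : Filter.Tendsto (fun i => z (φ i + N)) Filter.atTop (𝓝 b) :=
    (continuous_snd.tendsto (a, b)).comp hlim
  have hδ : δ ≤ dist a b :=
    ge_of_tendsto (hya.dist hzb) (Filter.Eventually.of_forall fun i => hyz _)
  have hmem : ∀ Q : Set X, Q ⊆ K → IsCompact Q → IsClosed (K \ Q) → x ∈ Q → a ∈ Q ∧ b ∈ Q := by
    intro Q hQK hQ hKQ hxQ
    have h6 := hφ2.eventually (key Q hQK hQ hKQ hxQ)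
    exact ⟨hQ.isClosed.mem_of_tendsto hya (h6.mono fun i hi => hi.1),
      hQ.isClosed.mem_of_tendsto hzb (h6.mono fun i hi => hi.2)⟩
  have hcl : ∀ w : X, (∀ Q : Set X, Q ⊆ K → IsCompact Q → IsClosed (K \ Q) → x ∈ Q → w ∈ Q) →
      w ∈ connectedComponentIn K x := by
    intro w hw
    by_contra hwC
    obtain ⟨Q, g1, g2, g3, g4, g5⟩ := comp_nhd hK hxK (hc x hxK) (U := {w}ᶜ)
      isOpen_compl_singleton (by
        intro v hv hvw
        exact hwC ((Set.mem_singleton_iff.1 hvw) ▸ hv))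
    exact g3 (hw Q g2 g1 g5 (g4 (mem_connectedComponentIn hxK))) rfl
  exact ⟨hxK, a, hcl a fun Q g1 g2 g3 g4 => (hmem Q g1 g2 g3 g4).1, b,
    hcl b fun Q g1 g2 g3 g4 => (hmem Q g1 g2 g3 g4).2, hδ⟩

theorem Ntr_eq (K : Set X) : Ntr K = ⋃ i : ℕ, Fd K (1 / ((i : ℝ) + 1)) := by
  ext x
  rw [Set.mem_iUnion]
  constructor
  · rintro ⟨hxK, y, hy, hyx⟩
    obtain ⟨i, hi⟩ := exists_nat_one_div_lt (dist_pos.2 hyx)
    exact ⟨i, hxK, y, hy, x, mem_connectedComponentIn hxK, hi.le⟩
  · rintro ⟨i, hxK, y, hy, z, hz, h⟩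
    have hpos : (0 : ℝ) < 1 / ((i : ℝ) + 1) := by positivity
    have hyz : y ≠ z := dist_pos.1 (hpos.trans_le h)
    by_cases hyx : y = x
    · refine ⟨hxK, z, hz, ?_⟩
      intro hzx
      exact hyz (hyx.trans hzx.symm)
    · exact ⟨hxK, y, hy, hyx⟩

end Pool.Agent.H36.TD
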