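import Pool.Agent.H36.CSymp.Conf

set_option autoImplicit false

/-!
# Module TrS: the linear symplectic group is transitive on pairs with `Om u v = 1` (110 lines)

The transvection `T_w,a (x) = x + a * Om w x • w` is linear, preserves `Om` (`Om w w = 0`), with inverse `T_w,-a`. Step 1: if `Om u u' ≠ 0`, then with `w = u' - u` and
`a = 1 / Om u' u`, `T (u) = u + a * Om (u' - u) u • (u' - u) = u'`. Step 2: if `u, u' ≠ 0` there is a symplectic `T` with `T u = u'`: if `Om u u' = 0` choose `w` with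
`Om u w ≠ 0` and `Om w u' ≠ 0` (`Om` is nondegenerate; if `w₁`, `w₂` work for one each, `w₁`, `w₂` or `w₁ + w₂` works for both) and use step 1 twice. Step 3: if
`Om u v = Om u v' = 1` there is a symplectic `T` with `T u = u`, `T v = v'`: if `Om v v' ≠ 0` the transvection of step 1 for `v`, `v'` (`w = v' - v`,
`Om w u = 0`, so `u` is fixed); otherwise go through `v'' = u + v` (`Om u v'' = 1`, `Om v v'' = -1`, `Om v'' v' = 1`). Combine: `T (e0) = u`, then `T' u = u`,
`T' (T f0) = v` (`Om u (T f0) = Om (T e0) (T f0) = 1`).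
-/

namespace Pool.Agent.H36.TD

open Pool.Agent.H36.CSymp

variable {m : ℕ} [NeZero m]

/-- the first vector of the standard basis -/
def e0 : E m := (Pi.single 0 1, 0)

/-- the dual vector -/
def f0 : E m := (0, Pi.single 0 1)

theorem om_e0f0 : Om (e0 : E m) f0 = 1 := by
  have h : dt (Pi.single 0 1 : V m) (Pi.single 0 1) = 1 := by
    rw [dt_single_left, one_mul, Pi.single_eq_same]
  have h' : dt (0 : V m) 0 = 0 := by simp [dt]
  change dt (Pi.single 0 1 : V m) (Pi.single 0 1) - dt (0 : V m) 0 = 1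
  rw [h, h', sub_zero]

omit [NeZero m] in
private theorem TrS_add_left (u u' v : E m) : Om (u + u') v = Om u v + Om u' v := by
  simp only [Om, Prod.fst_add, Prod.snd_add, dt_add_left]
  ring

omit [NeZero m] in
private theorem TrS_add_right (u v v' : E m) : Om u (v + v') = Om u v + Om u v' := by
  simp only [Om, Prod.fst_add, Prod.snd_add, dt_add_right]
  ring

omit [NeZero m] in
private theorem TrS_smul_left (t : ℝ) (u v : E m) : Om (t • u) v = t * Om u v := by
  simp only [Om, Prod.smul_fst, Prod.smul_snd, dt_smul_left]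
  ring

omit [NeZero m] in
private theorem TrS_smul_right (t : ℝ) (u v : E m) : Om u (t • v) = t * Om u v := by
  simp only [Om, Prod.smul_fst, Prod.smul_snd, dt_smul_right]
  ring

omit [NeZero m] in
private theorem TrS_swap (u v : E m) : Om v u = - Om u v := by
  simp only [Om]
  rw [dt_comm v.1 u.2, dt_comm v.2 u.1]
  ring

omit [NeZero m] in
private theorem TrS_self (u : E m) : Om u u = 0 := by
  have := TrS_swap u u
  linarith

omit [NeZero m] in
private theorem TrS_nondeg {u : E m} (hu : u ≠ 0) : ∃ w : E m, Om u w ≠ 0 := by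
  refine ⟨(-u.2, u.1), ?_⟩
  intro h
  apply hu
  have e : Om u ((-u.2, u.1) : E m) = ∑ j, (u.1 j * u.1 j + u.2 j * u.2 j) := by
    simp only [Om, dt, Pi.neg_apply, Finset.sum_add_distrib, mul_neg, Finset.sum_neg_distrib]
    ring
  rw [e, Finset.sum_eq_zero_iff_of_nonneg] at h
  · refine Prod.ext ?_ ?_
    · funext j
      have := h j (Finset.mem_univ j)
      have h1 : u.1 j * u.1 j = 0 := by nlinarith [mul_self_nonneg (u.1 j), mul_self_nonneg (u.2 j)]
      exact mul_self_eq_zero.1 h1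
    · funext j
      have := h j (Finset.mem_univ j)
      have h1 : u.2 j * u.2 j = 0 := by nlinarith [mul_self_nonneg (u.1 j), mul_self_nonneg (u.2 j)]
      exact mul_self_eq_zero.1 h1
  · intro j _
    exact add_nonneg (mul_self_nonneg _) (mul_self_nonneg _)

/-- the transvection as a linear map -/
private def TrS_lin (w : E m) (a : ℝ) : E m →ₗ[ℝ] E m where
  toFun x := x + (a * Om w x) • w
  map_add' x y := by
    rw [TrS_add_right, mul_add, add_smul]
    abel
  map_smul' t x := by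
    rw [TrS_smul_right, RingHom.id_apply, smul_add, smul_smul]
    congr 2
    ring

omit [NeZero m] in
private theorem TrS_inv (w : E m) (a : ℝ) (x : E m) :
    TrS_lin w a (TrS_lin w (-a) x) = x := by
  change (x + (-a * Om w x) • w) + (a * Om w (x + (-a * Om w x) • w)) • w = x
  rw [TrS_add_right, TrS_smul_right, TrS_self, mul_zero, add_zero, add_assoc, ← add_smul]
  simp

omit [NeZero m] in
/-- the transvection -/
private theorem TrS_ex (w : E m) (a : ℝ) : ∃ B : E m ≃L[ℝ] E m,
    (∀ x y, Om (B x) (B y) = Om x y) ∧ ∀ x, B x = x + (a * Om w x) • w := by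
  refine ⟨(LinearEquiv.ofLinearMap (TrS_lin w a) (TrS_lin w (-a)) ?_ ?_).toContinuousLinearEquiv,
    ?_, ?_⟩
  · exact LinearMap.ext fun x => TrS_inv w a x
  · refine LinearMap.ext fun x => ?_
    have := TrS_inv w (-a) x
    rw [neg_neg] at this
    exact this
  · intro x y
    change Om (x + (a * Om w x) • w) (y + (a * Om w y) • w) = Om x y
    rw [TrS_add_right, TrS_add_left, TrS_add_left, TrS_smul_right, TrS_smul_right, TrS_smul_left,
      TrS_smul_left, TrS_self, TrS_swap w x]
    ring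
  · intro x
    rfl

omit [NeZero m] in
private theorem TrS_one {u u' : E m} (h : Om u u' ≠ 0) : ∃ B : E m ≃L[ℝ] E m,
    (∀ x y, Om (B x) (B y) = Om x y) ∧ B u = u' ∧ ∀ x, Om u x = Om u' x → B x = x := by
  obtain ⟨B, h1, h2⟩ := TrS_ex (u' - u) (Om u' u)⁻¹
  have hs : ∀ x, Om (u' - u) x = Om u' x - Om u x := by
    intro x
    rw [sub_eq_add_neg, TrS_add_left, ← neg_one_smul ℝ u, TrS_smul_left]
    ring
  refine ⟨B, h1, ?_, ?_⟩
  · have hne : Om u' u ≠ 0 := by
      rw [TrS_swap u u']
      exact neg_ne_zero.2 h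
    rw [h2, hs, TrS_self, sub_zero, inv_mul_cancel₀ hne, one_smul]
    abel
  · intro x hx
    rw [h2, hs, hx, sub_self, mul_zero, zero_smul, add_zero]

omit [NeZero m] in
private theorem TrS_comp {B B' : E m ≃L[ℝ] E m} (h : ∀ x y, Om (B x) (B y) = Om x y)
    (h' : ∀ x y, Om (B' x) (B' y) = Om x y) :
    ∀ x y, Om ((B.trans B') x) ((B.trans B') y) = Om x y := by
  intro x y
  rw [ContinuousLinearEquiv.trans_apply, ContinuousLinearEquiv.trans_apply, h', h]

omit [NeZero m] in
private theorem TrS_two {u u' : E m} (hu : u ≠ 0) (hu' : u' ≠ 0) : ∃ B : E m ≃L[ℝ] E m,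
    (∀ x y, Om (B x) (B y) = Om x y) ∧ B u = u' := by
  by_cases h : Om u u' = 0
  · obtain ⟨w, hw, hw'⟩ : ∃ w : E m, Om u w ≠ 0 ∧ Om w u' ≠ 0 := by
      obtain ⟨w1, h1⟩ := TrS_nondeg hu
      obtain ⟨w2, h2⟩ := TrS_nondeg hu'
      have h2' : Om w2 u' ≠ 0 := by
        rw [TrS_swap u' w2]
        exact neg_ne_zero.2 h2
      by_cases h3 : Om w1 u' = 0
      · by_cases h4 : Om u w2 = 0
        · refine ⟨w1 + w2, ?_, ?_⟩
          · rw [TrS_add_right, h4, add_zero]
            exact h1
          · rw [TrS_add_left, h3, zero_add]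
            exact h2'
        · exact ⟨w2, h4, h2'⟩
      · exact ⟨w1, h1, h3⟩
    obtain ⟨B1, a1, b1, -⟩ := TrS_one hw
    obtain ⟨B2, a2, b2, -⟩ := TrS_one hw'
    refine ⟨B1.trans B2, TrS_comp a1 a2, ?_⟩
    rw [ContinuousLinearEquiv.trans_apply, b1, b2]
  · obtain ⟨B, a1, b1, -⟩ := TrS_one h
    exact ⟨B, a1, b1⟩

omit [NeZero m] in
private theorem TrS_three {u v v' : E m} (h : Om u v = 1) (h' : Om u v' = 1) :
    ∃ B : E m ≃L[ℝ] E m, (∀ x y, Om (B x) (B y) = Om x y) ∧ B u = u ∧ B v = v' := by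
  have hvu : Om v u = -1 := by rw [TrS_swap u v, h]
  have hvu' : Om v' u = -1 := by rw [TrS_swap u v', h']
  by_cases hv : Om v v' = 0
  · have e1 : Om v (u + v) ≠ 0 := by
      rw [TrS_add_right, TrS_self, hvu]
      norm_num
    have e2 : Om (u + v) v' ≠ 0 := by
      rw [TrS_add_left, h', hv]
      norm_num
    obtain ⟨B1, a1, b1, c1⟩ := TrS_one e1
    obtain ⟨B2, a2, b2, c2⟩ := TrS_one e2
    refine ⟨B1.trans B2, TrS_comp a1 a2, ?_, ?_⟩
    · rw [ContinuousLinearEquiv.trans_apply, c1 u, c2 u]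
      · rw [TrS_add_left, TrS_self, hvu, hvu']
        norm_num
      · rw [TrS_add_left, TrS_self, zero_add]
    · rw [ContinuousLinearEquiv.trans_apply, b1, b2]
  · obtain ⟨B, a1, b1, c1⟩ := TrS_one hv
    exact ⟨B, a1, c1 u (by rw [hvu, hvu']), b1⟩

theorem symp_trans {u v : E m} (h : Om u v = 1) :
    ∃ B : E m ≃L[ℝ] E m, (∀ x y, Om (B x) (B y) = Om x y) ∧ B e0 = u ∧ B f0 = v := by
  have hz : ∀ x : E m, Om 0 x = 0 := by
    intro x
    have := TrS_smul_left 0 (0 : E m) x
    rwa [zero_smul, zero_mul] at this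
  have he : (e0 : E m) ≠ 0 := by
    intro h0
    have := om_e0f0 (m := m)
    rw [h0, hz] at this
    exact zero_ne_one this
  have hu : u ≠ 0 := by
    intro h0
    rw [h0, hz] at h
    exact zero_ne_one h
  obtain ⟨B1, a1, b1⟩ := TrS_two he hu
  have h1 : Om u (B1 f0) = 1 := by
    rw [← b1, a1, om_e0f0]
  obtain ⟨B2, a2, b2, c2⟩ := TrS_three h1 h
  refine ⟨B1.trans B2, TrS_comp a1 a2, ?_, ?_⟩
  · rw [ContinuousLinearEquiv.trans_apply, b1, b2]
  · rw [ContinuousLinearEquiv.trans_apply, c2]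

end Pool.Agent.H36.TD
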