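import Pool.Agent.H36.TD.Defs
import Pool.Agent.H36.CSymp.Chart

set_option autoImplicit false

/-!
# Module Vol: determinants and volume off `K` (90 lines)

`pm_equiv`: a map with `Mul s A`, `s = ±1`, is injective (`omega_nondeg` in CSymp/Chart), hence bijective in finite dimension
(`LinearEquiv.ofInjectiveEndo`, `toContinuousLinearEquiv`). `pm_det`: for `s = 1` this is `symp_det` (CSymp/Chart). For `s = -1` let
`σ` be the linear map `(x_j, y_j) ↦ (x_j, -y_j)` in every coordinate; `Mul (-1) σ`, so `Mul 1 (σ ∘ A)` and `Mul 1 (σ ∘ σ)`; by `symp_det`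
`|det (σ ∘ A)| = 1`, and `σ ∘ σ = 1` gives `|det σ| = 1`; the determinant is multiplicative.
`vol_off`: `MeasureTheory.lintegral_abs_det_fderiv_eq_addHaar_image` for the set `A`, the map `φ` (injective) and the derivative
`fderiv ℝ φ x` (`HasFDerivAt.hasFDerivWithinAt`; `φ` is differentiable at the points of the open set `N`); the integrand is `1`.
-/

namespace Pool.Agent.H36.TD

open Pool.Agent.H72.Symp MeasureTheory Pool.Agent.H36.CSymp

variable {n : ℕ}

private lemma Vol_inj {A : Sp n →L[ℝ] Sp n} {s : ℝ} (hs : s ≠ 0) (h : Mul s A) :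
    Function.Injective (A : Sp n →ₗ[ℝ] Sp n) := by
  rw [← LinearMap.ker_eq_bot, LinearMap.ker_eq_bot']
  intro u hu
  refine omega_nondeg fun v => ?_
  have h1 := h u v
  have hu' : A u = 0 := hu
  have h2 : omega (0 : Sp n) (A v) = 0 := by simp [omega]
  rw [hu', h2] at h1
  rcases mul_eq_zero.mp h1.symm with h3 | h3
  · exact absurd h3 hs
  · exact h3

theorem pm_equiv {A : Sp n →L[ℝ] Sp n} (h : PM A) : ∃ e : Sp n ≃L[ℝ] Sp n, (e : Sp n →L[ℝ] Sp n) = A := by
  have hi : Function.Injective (A : Sp n →ₗ[ℝ] Sp n) := by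
    rcases h with h | h
    · exact Vol_inj one_ne_zero h
    · exact Vol_inj (by norm_num) h
  refine ⟨(LinearEquiv.ofInjectiveEndo (A : Sp n →ₗ[ℝ] Sp n) hi).toContinuousLinearEquiv, ?_⟩
  refine ContinuousLinearMap.ext fun u => ?_
  rfl

private noncomputable def Vol_cj : Sp n →L[ℝ] Sp n :=
  ContinuousLinearMap.pi fun j =>
    ((ContinuousLinearMap.fst ℝ ℝ ℝ).prod (-(ContinuousLinearMap.snd ℝ ℝ ℝ))).comp
      (ContinuousLinearMap.proj (R := ℝ) (φ := fun _ : Fin n => ℝ × ℝ) j)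

private lemma Vol_cj_apply (u : Sp n) (j : Fin n) : Vol_cj u j = ((u j).1, -(u j).2) := rfl

private lemma Vol_cj_mul (u v : Sp n) : omega (Vol_cj u) (Vol_cj v) = -omega u v := by
  unfold omega
  rw [← Finset.sum_neg_distrib]
  refine Finset.sum_congr rfl fun j _ => ?_
  rw [Vol_cj_apply, Vol_cj_apply]
  ring

private lemma Vol_det_comp (A B : Sp n →L[ℝ] Sp n) : (A.comp B).det = A.det * B.det := by
  have h : ((A.comp B : Sp n →L[ℝ] Sp n) : Sp n →ₗ[ℝ] Sp n) =
      (A : Sp n →ₗ[ℝ] Sp n) ∘ₗ (B : Sp n →ₗ[ℝ] Sp n) := rfl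
  unfold ContinuousLinearMap.det
  rw [h, LinearMap.det_comp]

theorem pm_det {A : Sp n →L[ℝ] Sp n} (h : PM A) : |A.det| = 1 := by
  rcases h with h | h
  · exact symp_det fun u v => by rw [h u v, one_mul]
  · have h1 : |(Vol_cj.comp Vol_cj : Sp n →L[ℝ] Sp n).det| = 1 := symp_det fun u v => by
      rw [ContinuousLinearMap.comp_apply, ContinuousLinearMap.comp_apply, Vol_cj_mul, Vol_cj_mul,
        neg_neg]
    have h2 : |(Vol_cj.comp A : Sp n →L[ℝ] Sp n).det| = 1 := symp_det fun u v => by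
      rw [ContinuousLinearMap.comp_apply, ContinuousLinearMap.comp_apply, Vol_cj_mul, h u v]
      ring
    rw [Vol_det_comp, abs_mul] at h1 h2
    have h3 := abs_nonneg (Vol_cj : Sp n →L[ℝ] Sp n).det
    have h4 : |(Vol_cj : Sp n →L[ℝ] Sp n).det| = 1 := by nlinarith
    rw [h4, one_mul] at h2
    exact h2

theorem vol_off {φ : Sp n ≃ₜ Sp n} {N : Set (Sp n)} (hN : IsOpen N) (hd : ContDiffOn ℝ 1 φ N)
    (hs : ∀ x ∈ N, PM (fderiv ℝ φ x)) {A : Set (Sp n)} (hA : MeasurableSet A) (hAN : A ⊆ N) :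
    volume (φ '' A) = volume A := by
  have hf : ∀ x ∈ A, HasFDerivWithinAt φ (fderiv ℝ φ x) A x := fun x hx =>
    ((hd.differentiableOn one_ne_zero).differentiableAt
      (hN.mem_nhds (hAN hx))).hasFDerivAt.hasFDerivWithinAt
  rw [← lintegral_abs_det_fderiv_eq_addHaar_image volume hA hf φ.injective.injOn]
  have h : ∫⁻ x in A, ENNReal.ofReal |(fderiv ℝ φ x).det| = ∫⁻ _ in A, (1 : ENNReal) :=
    setLIntegral_congr_fun hA fun x hx => by
      simp only [pm_det (hs x (hAN hx)), ENNReal.ofReal_one]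
  rw [h]
  simp

end Pool.Agent.H36.TD
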