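import Pool.Agent.H36.TD.Cyl

set_option autoImplicit false

/-!
# Module Zm: zooming into a point of differentiability (150 lines)

`zoom`: `g y = t⁻¹ • (f (x0 + t • y) - f x0)`, `Ω' = {y | x0 + t • y ∈ Ω}`. `Pres c Ω' g`: `Pres.conj` with `D y = x0 + t • y` and `D' z = f x0 + t • z`, both multiply the capacities by
`t²` (`Conf c (t ^ 2)`: `scaleH a b ht ht` and `conf_scale` of CSymp/Conf with `l = n = t`, `a, b` the two components of `x0`; `D'.symm z = t⁻¹ • (z - f x0)`). The compact set `K` is contained in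
`Ω'` for small `t > 0` and `g → A` uniformly on `K` (`HasFDerivAt`, see `zoom_deriv` in CSymp/Kappa).
`zoom_inj`: `A` is injective. Otherwise `A` is not surjective, and there is `u ≠ 0` with `Om u (A x) = 0` for all `x` (`Om` is nondegenerate: a linear form vanishing on the range is `Om u`). Let `R > ‖A‖ + 1`. For every
`0 < δ < 1` `zoom` for `K = closedBall 0 1` and a small error gives `g` with `g '' ball 0 1 ⊆ ball 0 R` and `|Om u (g y)| < δ` on `ball 0 1`; by `thin`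
`val (ball 0 1) = val (g '' ball 0 1) ≤ δ C` for all `δ`, against `RCap.ball_pos`. (`|Om u z| ≤ M ‖z‖` for a constant `M`.)
`zoom_pres`: `A` is an injective endomorphism of a finite-dimensional space, so a homeomorphism, and `Pres.limit` with `Ω = univ`.
-/

namespace Pool.Agent.H36.TD

open Pool.Agent.H36.CSymp Set Metric

/-- zooming into a point of differentiability, uniformly on balls -/
private theorem Zm_deriv {F : Type} [NormedAddCommGroup F] [NormedSpace ℝ F] {f : F → F}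
    {L : F →L[ℝ] F} {q0 : F} (hf : HasFDerivAt f L q0)
    {R : ℝ} (hR : 0 < R) {ε : ℝ} (hε : 0 < ε) :
    ∀ᶠ l : ℝ in nhdsWithin 0 (Ioi 0),
      ∀ x : F, ‖x‖ ≤ R → dist (l⁻¹ • (f (q0 + l • x) - f q0)) (L x) < ε := by
  have h1 := hf.isLittleO.def (show 0 < ε / (2 * R) by positivity)
  obtain ⟨δ, hδ, h1⟩ := Metric.eventually_nhds_iff.1 h1
  have h2 : ∀ᶠ l : ℝ in nhdsWithin 0 (Ioi 0), l < δ / (2 * R) :=
    (eventually_lt_nhds (by positivity : (0 : ℝ) < δ / (2 * R))).filter_mono nhdsWithin_le_nhds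
  filter_upwards [h2, self_mem_nhdsWithin] with l hl hl0 x hx
  have hl0' : 0 < l := hl0
  have hd : dist (q0 + l • x) q0 < δ := by
    rw [dist_eq_norm, add_sub_cancel_left, norm_smul, Real.norm_of_nonneg hl0'.le]
    rw [lt_div_iff₀ (by positivity)] at hl
    nlinarith [norm_nonneg x]
  have h3 := h1 hd
  rw [add_sub_cancel_left, map_smul, norm_smul, Real.norm_of_nonneg hl0'.le] at h3
  rw [dist_eq_norm]
  have h4 : l⁻¹ • (f (q0 + l • x) - f q0) - L x = l⁻¹ • (f (q0 + l • x) - f q0 - l • L x) := by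
    rw [smul_sub l⁻¹ (f (q0 + l • x) - f q0), smul_smul, inv_mul_cancel₀ hl0'.ne', one_smul]
  rw [h4, norm_smul, norm_inv, Real.norm_of_nonneg hl0'.le]
  calc l⁻¹ * ‖f (q0 + l • x) - f q0 - l • L x‖ ≤ l⁻¹ * (ε / (2 * R) * (l * ‖x‖)) := by gcongr
    _ = ε / (2 * R) * ‖x‖ := by field_simp
    _ ≤ ε / (2 * R) * R := by gcongr
    _ = ε / 2 := by field_simp
    _ < ε := by linarith

private theorem Zm_small {F : Type} [NormedAddCommGroup F] [NormedSpace ℝ F] {Ω : Set F}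
    (hΩ : IsOpen Ω) {q0 : F} (hq : q0 ∈ Ω) {R : ℝ} (hR : 0 < R) :
    ∀ᶠ l : ℝ in nhdsWithin 0 (Ioi 0), ∀ x : F, ‖x‖ ≤ R → q0 + l • x ∈ Ω := by
  obtain ⟨ρ, hρ, hball⟩ := Metric.isOpen_iff.mp hΩ q0 hq
  have h2 : ∀ᶠ l : ℝ in nhdsWithin 0 (Ioi 0), l < ρ / (2 * R) :=
    (eventually_lt_nhds (by positivity : (0 : ℝ) < ρ / (2 * R))).filter_mono nhdsWithin_le_nhds
  filter_upwards [h2, self_mem_nhdsWithin] with l hl hl0 x hx
  have hl0' : 0 < l := hl0
  apply hball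
  rw [mem_ball, dist_eq_norm, add_sub_cancel_left, norm_smul, Real.norm_of_nonneg hl0'.le]
  rw [lt_div_iff₀ (by positivity)] at hl
  nlinarith [norm_nonneg x]

private theorem Zm_dt_le {m : ℕ} (u v : V m) : |dt u v| ≤ (∑ j, |u j|) * ‖v‖ := by
  unfold dt
  calc |∑ j, u j * v j| ≤ ∑ j, |u j * v j| := Finset.abs_sum_le_sum_abs _ _
    _ ≤ ∑ j, |u j| * ‖v‖ := by
        refine Finset.sum_le_sum fun j _ => ?_
        rw [abs_mul]
        exact mul_le_mul_of_nonneg_left (norm_le_pi_norm v j) (abs_nonneg _)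
    _ = (∑ j, |u j|) * ‖v‖ := by rw [Finset.sum_mul]

private theorem Zm_Om_le {m : ℕ} (u : E m) : ∃ M : ℝ, 0 ≤ M ∧ ∀ z : E m, |Om u z| ≤ M * ‖z‖ := by
  refine ⟨(∑ j, |u.1 j|) + ∑ j, |u.2 j|, ?_, fun z => ?_⟩
  · have h1 : 0 ≤ ∑ j, |u.1 j| := Finset.sum_nonneg fun j _ => abs_nonneg _
    have h2 : 0 ≤ ∑ j, |u.2 j| := Finset.sum_nonneg fun j _ => abs_nonneg _
    linarith
  · have h1 : 0 ≤ ∑ j, |u.1 j| := Finset.sum_nonneg fun j _ => abs_nonneg _
    have h2 : 0 ≤ ∑ j, |u.2 j| := Finset.sum_nonneg fun j _ => abs_nonneg _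
    unfold Om
    calc |dt u.1 z.2 - dt u.2 z.1| ≤ |dt u.1 z.2| + |dt u.2 z.1| := abs_sub _ _
      _ ≤ (∑ j, |u.1 j|) * ‖z.2‖ + (∑ j, |u.2 j|) * ‖z.1‖ :=
          add_le_add (Zm_dt_le _ _) (Zm_dt_le _ _)
      _ ≤ (∑ j, |u.1 j|) * ‖z‖ + (∑ j, |u.2 j|) * ‖z‖ := by
          have h3 := norm_snd_le z
          have h4 := norm_fst_le z
          gcongr
      _ = _ := by ring

private theorem Zm_Om_sub {m : ℕ} (u x y : E m) : Om u (x - y) = Om u x - Om u y := by
  have h : ∀ a b c : V m, dt a (b - c) = dt a b - dt a c := by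
    intro a b c
    simp [dt, mul_sub, Finset.sum_sub_distrib]
  unfold Om
  rw [Prod.fst_sub, Prod.snd_sub, h, h]
  ring

/-- every linear form is `Om u` -/
private theorem Zm_form {m : ℕ} (φ : E m →ₗ[ℝ] ℝ) : ∃ u : E m, ∀ x, φ x = Om u x := by
  refine ⟨(fun j => φ (0, Pi.single j 1), fun j => -φ (Pi.single j 1, 0)), fun x => ?_⟩
  have h1 : x = ∑ j, x.1 j • ((Pi.single j (1 : ℝ), 0) : E m) +
      ∑ j, x.2 j • ((0, Pi.single j (1 : ℝ)) : E m) := by
    refine Prod.ext ?_ ?_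
    · rw [Prod.fst_add, Prod.fst_sum, Prod.fst_sum]
      simp only [Prod.smul_fst, smul_zero, Finset.sum_const_zero, add_zero]
      funext i
      simp [Finset.sum_apply, Pi.single_apply]
    · rw [Prod.snd_add, Prod.snd_sum, Prod.snd_sum]
      simp only [Prod.smul_snd, smul_zero, Finset.sum_const_zero, zero_add]
      funext i
      simp [Finset.sum_apply, Pi.single_apply]
  conv_lhs => rw [h1]
  rw [map_add, map_sum, map_sum]
  simp only [map_smul, smul_eq_mul]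
  unfold Om dt
  simp only [neg_mul, Finset.sum_neg_distrib, sub_neg_eq_add]
  rw [add_comm]
  congr 1
  · exact Finset.sum_congr rfl fun j _ => mul_comm _ _
  · exact Finset.sum_congr rfl fun j _ => mul_comm _ _

variable {m : ℕ} [NeZero m]

theorem zoom {c : RCap m} {Ω : Set (E m)} {f : E m → E m} (h : Pres c Ω f) {x0 : E m}
    (hx : x0 ∈ Ω) {A : E m →L[ℝ] E m} (hA : HasFDerivAt f A x0) {K : Set (E m)}
    (hK : IsCompact K) {ε : ℝ} (hε : 0 < ε) :
    ∃ (g : E m → E m) (Ω' : Set (E m)), K ⊆ Ω' ∧ Pres c Ω' g ∧ ∀ x ∈ K, dist (g x) (A x) < ε := by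
  obtain ⟨R, hR0, hR⟩ : ∃ R : ℝ, 0 < R ∧ K ⊆ closedBall 0 R := by
    obtain ⟨R, hR⟩ := hK.isBounded.subset_closedBall 0
    exact ⟨max R 1, by positivity, hR.trans (closedBall_subset_closedBall (le_max_left _ _))⟩
  have k1 := Zm_deriv hA hR0 hε
  have k2 := Zm_small h.isOpen hx hR0
  obtain ⟨l, ⟨hl1, hl2⟩, hl0⟩ := ((k1.and k2).and
    (self_mem_nhdsWithin (s := Ioi (0 : ℝ)))).exists
  have hl0' : 0 < l := hl0
  have hD : ∀ x : E m, scaleH x0.1 x0.2 hl0' hl0' x = x0 + l • x := fun x => rfl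
  have hD' : ∀ z : E m, (scaleH (f x0).1 (f x0).2 hl0' hl0').symm z = l⁻¹ • (z - f x0) :=
    fun z => rfl
  refine ⟨_, _, ?_, Pres.conj (mul_pos hl0' hl0') (conf_scale c x0.1 x0.2 hl0' hl0')
    (conf_scale c (f x0).1 (f x0).2 hl0' hl0') h, fun x hxK => ?_⟩
  · intro x hxK
    rw [mem_preimage, hD]
    exact hl2 x (mem_closedBall_zero_iff.1 (hR hxK))
  · show dist ((scaleH (f x0).1 (f x0).2 hl0' hl0').symm (f (scaleH x0.1 x0.2 hl0' hl0' x))) _ < ε
    rw [hD, hD']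
    exact hl1 x (mem_closedBall_zero_iff.1 (hR hxK))

theorem zoom_inj {c : RCap m} {Ω : Set (E m)} {f : E m → E m} (h : Pres c Ω f) {x0 : E m}
    (hx : x0 ∈ Ω) {A : E m →L[ℝ] E m} (hA : HasFDerivAt f A x0) : Function.Injective A := by
  by_contra hninj
  have hsurj : ¬ Function.Surjective A := by
    intro hs
    exact hninj ((LinearMap.injective_iff_surjective (f := (A : E m →ₗ[ℝ] E m))).mpr hs)
  have hlt : LinearMap.range (A : E m →ₗ[ℝ] E m) < ⊤ := by
    rw [lt_top_iff_ne_top]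
    intro htop
    exact hsurj (LinearMap.range_eq_top.mp htop)
  obtain ⟨φ, hφ, hφk⟩ := Submodule.exists_le_ker_of_lt_top _ hlt
  obtain ⟨u, hu⟩ := Zm_form φ
  have hu0 : u ≠ 0 := by
    rintro rfl
    apply hφ
    ext x
    · simp [hu, Om, dt]
    · simp [hu, Om, dt]
  have huA : ∀ x, Om u (A x) = 0 := by
    intro x
    rw [← hu]
    exact hφk ⟨x, rfl⟩
  obtain ⟨M, hM0, hM⟩ := Zm_Om_le u
  have hR : 0 < ‖A‖ + 1 := by positivity
  obtain ⟨C, hC, hthin⟩ := thin c hu0 hR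
  have key : ∀ δ : ℝ, 0 < δ → c.val (ball 0 1) ≤ ENNReal.ofReal δ * C := by
    intro δ hδ
    have hε : 0 < min 1 (δ / (M + 1)) := by positivity
    obtain ⟨g, Ω', hKΩ, hg, hgA⟩ := zoom h hx hA (isCompact_closedBall (0 : E m) 1) hε
    have hsub : ball (0 : E m) 1 ⊆ Ω' := ball_subset_closedBall.trans hKΩ
    rw [← hg.val _ hsub isOpen_ball]
    refine hthin δ hδ _ (hg.opn _ hsub isOpen_ball) ?_ ?_
    · rintro _ ⟨y, hy, rfl⟩
      have h1 := hgA y (ball_subset_closedBall hy)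
      rw [mem_ball_zero_iff] at hy ⊢
      have h2 : ‖g y‖ ≤ ‖A y‖ + dist (g y) (A y) := by
        rw [dist_eq_norm]
        calc ‖g y‖ = ‖A y + (g y - A y)‖ := by rw [add_sub_cancel]
          _ ≤ _ := norm_add_le _ _
      have h3 : ‖A y‖ ≤ ‖A‖ := (A.le_opNorm y).trans
        (mul_le_of_le_one_right (norm_nonneg _) hy.le)
      have h4 := min_le_left 1 (δ / (M + 1))
      linarith
    · rintro _ ⟨y, hy, rfl⟩
      have h1 := hgA y (ball_subset_closedBall hy)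
      have h2 : Om u (g y) = Om u (g y - A y) := by
        rw [Zm_Om_sub, huA, sub_zero]
      rw [h2]
      have h3 := hM (g y - A y)
      rw [dist_eq_norm] at h1
      have h4 : ‖g y - A y‖ < δ / (M + 1) := h1.trans_le (min_le_right _ _)
      rw [lt_div_iff₀ (by positivity)] at h4
      have h5 := norm_nonneg (g y - A y)
      nlinarith
  obtain ⟨n, hn, hlt2⟩ := ENNReal.exists_nnreal_pos_mul_lt hC.ne c.ball_pos.ne'
  have h1 := key n (by exact_mod_cast hn)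
  rw [ENNReal.ofReal_coe_nnreal] at h1
  exact absurd h1 (not_le.mpr hlt2)

theorem zoom_pres {c : RCap m} {Ω : Set (E m)} {f : E m → E m} (h : Pres c Ω f) {x0 : E m}
    (hx : x0 ∈ Ω) {A : E m →L[ℝ] E m} (hA : HasFDerivAt f A x0) :
    ∃ e : E m ≃L[ℝ] E m, (e : E m →L[ℝ] E m) = A ∧ Pres c univ e := by
  have hinj := zoom_inj h hx hA
  let e : E m ≃L[ℝ] E m :=
    (LinearEquiv.ofInjectiveEndo (A : E m →ₗ[ℝ] E m) hinj).toContinuousLinearEquiv
  have he : ∀ x, e x = A x := fun x => rfl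
  refine ⟨e, ContinuousLinearMap.ext he, ?_⟩
  refine Pres.limit isOpen_univ e.continuous.continuousOn e.injective.injOn
    (fun W _ hW => e.toHomeomorph.isOpenMap W hW) fun K _ hK ε hε => ?_
  obtain ⟨g, Ω', hKΩ, hg, hgA⟩ := zoom h hx hA hK hε
  exact ⟨g, Ω', hKΩ, hg, fun x hxK => by rw [he]; exact hgA x hxK⟩

end Pool.Agent.H36.TD
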